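import Mathlib

/-!
# FAD-systems: definitions (MP_dde008_nt)
-/

set_option autoImplicit false

open Filter Topology

namespace Pool.Agent.Q9.FD

universe u

/-- `fix f n` is the number of the points `x` with `f^n (x) = x`. -/
noncomputable def fix {X : Type u} (f : X → X) (n : ℕ) : ℕ := {x : X | f^[n] x = x}.ncard

/-- `a` is a gcd sequence with period `N`: `a n = a (gcd (n, N))`. -/
def GcdSeq (a : ℕ → ℝ) (N : ℕ) : Prop := 1 ≤ N ∧ ∀ n : ℕ, 1 ≤ n → a n = a (Nat.gcd n N)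

/-- The `p`-adic absolute value `|n|_p = p^(-v)`, `p^v` the exact power of `p` dividing `n`. -/
noncomputable def absp (p n : ℕ) : ℝ := ((p : ℝ) ^ padicValNat p n)⁻¹

/-- The factor `r_n ∏_{p ∈ S} |n|_p^(s_{p,n}) p^(-t_{p,n} / |n|_p)`. -/
noncomputable def gfac (S : Finset ℕ) (r : ℕ → ℝ) (s t : ℕ → ℕ → ℝ) (n : ℕ) : ℝ :=
  r n * ∏ p ∈ S, (absp p n ^ (s p n) * (p : ℝ) ^ (-(t p n) * (absp p n)⁻¹))

/-- The conditions on `S`, `r`, `s`, `t`: `S` consists of primes, `r` is a positive gcd sequence, and for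
`p ∈ S` the sequences `s p` and `t p` are nonnegative gcd sequences with a period prime to `p`. -/
def Admissible (S : Finset ℕ) (r : ℕ → ℝ) (s t : ℕ → ℕ → ℝ) : Prop :=
  (∀ p ∈ S, p.Prime) ∧ (∃ N, GcdSeq r N) ∧ (∀ n, 1 ≤ n → 0 < r n) ∧
  ∀ p ∈ S, (∃ N, GcdSeq (s p) N ∧ N.Coprime p) ∧ (∃ N, GcdSeq (t p) N ∧ N.Coprime p) ∧
    ∀ n, 1 ≤ n → 0 ≤ s p n ∧ 0 ≤ t p n

/-- `(X, f)` is a FAD-system. -/
def IsFAD {X : Type u} (f : X → X) : Prop :=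
  (∀ n : ℕ, 1 ≤ n → {x : X | f^[n] x = x}.Finite) ∧
  ∃ (k : ℕ) (A : Matrix (Fin k) (Fin k) ℤ) (S : Finset ℕ) (c : ℝ) (r : ℕ → ℝ) (s t : ℕ → ℕ → ℝ),
    0 < c ∧ Admissible S r s t ∧
    ∀ n : ℕ, 1 ≤ n → (fix f n : ℝ) = |(((A ^ n - 1).det : ℤ) : ℝ)| * c ^ n * gfac S r s t n

/-- `Λ = limsup f_n^(1/n) = exp (limsup (log f_n) / n)`. -/
noncomputable def Lam {X : Type u} (f : X → X) : ℝ :=
  limsup (fun n : ℕ => (fix f n : ℝ) ^ (1 / (n : ℝ))) atTop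

/-- The zeta function `exp (∑_{n ≥ 1} f_n z^n / n)`. -/
noncomputable def zeta {X : Type u} (f : X → X) (z : ℂ) : ℂ :=
  Complex.exp (∑' n : ℕ, (fix f (n + 1) : ℂ) / ((n : ℂ) + 1) * z ^ (n + 1))

/-- Some power of `ζ_f` is a rational function. -/
def RootRational {X : Type u} (f : X → X) : Prop :=
  ∃ k : ℕ, 1 ≤ k ∧ ∃ P Q : Polynomial ℂ, Q ≠ 0 ∧
    ∀ z : ℂ, ‖z‖ * Lam f < 1 → Q.eval z * zeta f z ^ k = P.eval z

/-- `ζ_f` has the circle `|z| = 1/Λ` as a natural boundary: no analytic continuation to an open set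
meeting the circle. -/
def NaturalBoundary {X : Type u} (f : X → X) : Prop :=
  ∀ Ω : Set ℂ, IsOpen Ω → (∃ w ∈ Ω, ‖w‖ * Lam f = 1) →
    ¬ ∃ g : ℂ → ℂ, DifferentiableOn ℂ g Ω ∧ ∀ z ∈ Ω, ‖z‖ * Lam f < 1 → g z = zeta f z

/-- `e(x) = exp (2 π i x)` -/
noncomputable def e (x : ℝ) : ℂ := Complex.exp (2 * Real.pi * Complex.I * x)

/-- the mean value of `a 1, a 2, ...` is `c` -/
def HasMean (a : ℕ → ℂ) (c : ℂ) : Prop :=
  Tendsto (fun N : ℕ => (∑ n ∈ Finset.range N, a (n + 1)) / (N : ℂ)) atTop (𝓝 c)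

/-- `G 1, G 2, ...` is a uniform limit of periodic sequences whose periods have only prime factors
dividing `m`. -/
def ApproxBy (m : ℕ) (G : ℕ → ℝ) : Prop :=
  1 ≤ m ∧ ∀ ε : ℝ, 0 < ε → ∃ M : ℕ, 1 ≤ M ∧ (∀ p : ℕ, p.Prime → p ∣ M → p ∣ m) ∧
    ∃ h : ℕ → ℝ, (∀ n, h (n + M) = h n) ∧ ∀ n, 1 ≤ n → |G n - h n| ≤ ε

/-- invariance under multiplication by numbers prime to `m` -/
def UnitInv {α : Type*} (m : ℕ) (G : ℕ → α) : Prop :=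
  ∀ u n : ℕ, 1 ≤ u → 1 ≤ n → u.Coprime m → G (u * n) = G n

end Pool.Agent.Q9.FD
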