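import Pool.Agent.Q9.FD.Stmts

set_option autoImplicit false

open Filter Topology

namespace Pool.Agent.Q9.FD.Final

universe u

theorem e_neg_nat (n : ℕ) (y : ℝ) : e (-(n * y)) = e (-y) ^ n := by
  unfold e
  rw [← Complex.exp_nat_mul]
  congr 1
  push_cast
  ring

theorem norm_e (y : ℝ) : ‖e y‖ = 1 := by
  unfold e
  rw [show (2 * Real.pi * Complex.I * y : ℂ) = ((2 * Real.pi * y : ℝ) : ℂ) * Complex.I by push_cast; ring]
  exact Complex.norm_exp_ofReal_mul_I _

theorem e_arg (w : ℂ) (h : ‖w‖ = 1) : e (-(-(w.arg / (2 * Real.pi)))) = w := by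
  have h1 := Complex.norm_mul_exp_arg_mul_I w
  rw [h] at h1
  unfold e
  have h3 : (2 * Real.pi * Complex.I * ((-(-(w.arg / (2 * Real.pi))) : ℝ) : ℂ)) = w.arg * Complex.I := by
    push_cast
    have : (Real.pi : ℂ) ≠ 0 := by exact_mod_cast Real.pi_ne_zero
    field_simp
  rw [h3]
  simpa using h1

theorem hasMean_of_close (a b : ℕ → ℂ) (c : ℂ) (C κ : ℝ) (hκ0 : 0 ≤ κ) (hκ1 : κ < 1)
    (h : HasMean a c) (hab : ∀ n, 1 ≤ n → ‖b n - a n‖ ≤ C * κ ^ n) : HasMean b c := by
  have h0 : Tendsto (fun N : ℕ => (∑ n ∈ Finset.range N, (b (n + 1) - a (n + 1))) / (N : ℂ)) atTop (𝓝 0) := by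
    have hsum : Summable (fun n : ℕ => |C| * κ ^ n) := (summable_geometric_of_lt_one hκ0 hκ1).mul_left _
    refine squeeze_zero_norm (a := fun N : ℕ => (∑' n : ℕ, |C| * κ ^ n) / (N : ℝ)) (fun N => ?_) ?_
    · rw [norm_div, Complex.norm_natCast]
      refine div_le_div_of_nonneg_right ?_ (Nat.cast_nonneg N)
      refine (norm_sum_le _ _).trans ?_
      refine (Finset.sum_le_sum (g := fun n => |C| * κ ^ n) (fun n _ => ?_)).trans
        (hsum.sum_le_tsum _ (fun n _ => mul_nonneg (abs_nonneg _) (pow_nonneg hκ0 _)))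
      refine (hab (n + 1) (by omega)).trans ?_
      refine mul_le_mul (le_abs_self C) ?_ (pow_nonneg hκ0 _) (abs_nonneg _)
      exact pow_le_pow_of_le_one hκ0 hκ1.le (by omega)
    · exact tendsto_const_div_atTop_nhds_zero_nat _
  have h1 := h.add h0
  rw [add_zero] at h1
  refine h1.congr (fun N => ?_)
  rw [← add_div, ← Finset.sum_add_distrib]
  congr 1
  exact Finset.sum_congr rfl (fun n _ => by ring)

theorem periodic_bdd (P : ℕ → ℕ) (m0 : ℕ) (hm : 1 ≤ m0) (hP : ∀ n, 1 ≤ n → P (n + m0) = P n) :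
    ∃ B : ℕ, ∀ n, 1 ≤ n → P n ≤ B := by
  refine ⟨∑ i ∈ Finset.range m0, P (i + 1), fun n hn => ?_⟩
  obtain ⟨k, rfl⟩ : ∃ k, n = k + 1 := ⟨n - 1, by omega⟩
  have hper : Function.Periodic (fun k => P (k + 1)) m0 := fun k => by
    show P (k + m0 + 1) = P (k + 1)
    rw [show k + m0 + 1 = (k + 1) + m0 by ring]
    exact hP (k + 1) (by omega)
  have h1 : P (k + 1) = P (k % m0 + 1) := (hper.map_mod_nat k).symm
  rw [h1]
  exact Finset.single_le_sum (f := fun i => P (i + 1)) (fun i _ => Nat.zero_le _)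
    (Finset.mem_range.2 (Nat.mod_lt _ (by omega)))

theorem Q_bdd (r : ℕ) (lam : Fin r → ℂ) (h : ∀ j, ‖lam j‖ = 1) (n : ℕ) :
    |∏ j, (2 - 2 * (lam j ^ n).re)| ≤ 4 ^ r := by
  rw [Finset.abs_prod]
  refine (Finset.prod_le_prod (g := fun _ => (4 : ℝ)) (fun j _ => abs_nonneg _) (fun j _ => ?_)).trans ?_
  · have h1 : |(lam j ^ n).re| ≤ 1 := by
      refine (Complex.abs_re_le_norm _).trans ?_
      rw [norm_pow, h j, one_pow]
    rw [abs_le] at h1 ⊢
    constructor <;> linarith [h1.1, h1.2]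
  · simp

theorem det_zero {k : ℕ} (A : Matrix (Fin k) (Fin k) ℤ) (h : (A - 1).det = 0) (n : ℕ) :
    (A ^ n - 1).det = 0 := by
  have h1 : A ^ n - 1 = (A - 1) * ∑ i ∈ Finset.range n, A ^ i := by
    rw [mul_geom_sum]
  rw [h1, Matrix.det_mul, h, zero_mul]

theorem trivial_case {X : Type u} (f : X → X) (h : ∀ n, 1 ≤ n → fix f n = 0) : RootRational f := by
  refine ⟨1, le_refl 1, 1, 1, one_ne_zero, fun z _ => ?_⟩
  have : zeta f z = 1 := by
    unfold zeta
    have : ∀ n : ℕ, (fix f (n + 1) : ℂ) / ((n : ℂ) + 1) * z ^ (n + 1) = 0 := fun n => by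
      rw [h (n + 1) (by omega)]
      simp
    simp [this]
  rw [this]
  simp

theorem main (hG : TaskGauss.{u}) (hDC : TaskDetCong) (hNR : TaskNonres) (hRat : TaskRat) (hDS : DetStr)
    (hLP : TaskLP) (hPLP : TaskProdLP) (hME : TaskMeanEx) (hInv : TaskInv) (hZ : TaskZero)
    (hDense : TaskDense) (hQ : TaskQmean) (hAbel : TaskAbel) (hPole : TaskPole) (hGcd : TaskGcd)
    (hRR : TaskRR) (hLam : TaskLam) (hFreq : TaskFreq) :
    ∀ (X : Type u) (f : X → X), IsFAD f → ¬ RootRational f → NaturalBoundary f := by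
  intro X f hf hnr
  obtain ⟨hfin, k, A, S, c, r, s, t, hc, hadm, hfix⟩ := hf
  by_cases hdet : (A - 1).det = 0
  · exfalso
    apply hnr
    apply trivial_case
    intro n hn
    have h1 := hfix n hn
    rw [det_zero A hdet n] at h1
    simpa using h1
  obtain ⟨m0, P, D, K, a, ν, L, ρ, lam, κ, C, hm0, hPper, hPinv, hP1, hPD, hD0, hDsum, hL, hνL, hlam, hκ0, hκ1,
    hDas⟩ := hDS k A hdet
  obtain ⟨m, B, hgB, hginv, hgap⟩ := hLP S r s t hadm
  -- the arithmetic factor
  set G : ℕ → ℝ := fun n => (P n : ℝ) * gfac S r s t n with hGdef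
  have hGap : ApproxBy (m0 * m) G := by
    refine hPLP m m0 (gfac S r s t) (fun n => (P n : ℝ)) hgap ⟨B, fun n hn => ?_⟩ hm0 (fun n hn => ?_)
    · rw [abs_of_pos (hgB n hn).1]
      exact (hgB n hn).2
    · rw [hPper n hn]
  have hGinv : UnitInv (m0 * m) G := by
    intro u n hu hn hcop
    have h1 : u.Coprime m0 := Nat.Coprime.coprime_mul_right_right hcop
    have h2 : u.Coprime m := Nat.Coprime.coprime_mul_left_right hcop
    simp only [hGdef]
    rw [hPinv u n hu hn h1, hginv u n hu hn h2]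
  have hG1 : 0 < G 1 := mul_pos (by exact_mod_cast Nat.pos_of_ne_zero hP1) (hgB 1 le_rfl).1
  obtain ⟨BP, hBP⟩ := periodic_bdd P m0 hm0 hPper
  have hGnn : ∀ n, 1 ≤ n → 0 ≤ G n := fun n hn => mul_nonneg (Nat.cast_nonneg _) (hgB n hn).1.le
  have hB0 : 0 ≤ B := (hgB 1 le_rfl).1.le.trans (hgB 1 le_rfl).2
  have hGB : ∀ n, 1 ≤ n → |G n| ≤ BP * B := fun n hn => by
    rw [abs_of_nonneg (hGnn n hn)]
    exact mul_le_mul (by exact_mod_cast hBP n hn) (hgB n hn).2 (hgB n hn).1.le (Nat.cast_nonneg _)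
  have hL0 : 0 < L := by linarith
  set Λ : ℝ := c * L with hΛdef
  have hΛ0 : 0 < Λ := mul_pos hc hL0
  have hfixG : ∀ n, 1 ≤ n → (fix f n : ℝ) = G n * (D n : ℝ) * c ^ n := fun n hn => by
    rw [hfix n hn]
    have : |(((A ^ n - 1).det : ℤ) : ℝ)| = (P n : ℝ) * (D n : ℝ) := by
      rw [← Int.cast_abs, hPD n hn]
      push_cast
      ring
    rw [this]
    simp only [hGdef]
    ring
  set v : ℕ → ℝ := fun n => (fix f n : ℝ) / Λ ^ n with hvdef
  have hv : ∀ n, 1 ≤ n → v n = G n * ((D n : ℝ) / L ^ n) := fun n hn => by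
    simp only [hvdef]
    rw [hfixG n hn, hΛdef, mul_pow]
    have : c ^ n ≠ 0 := (pow_pos hc n).ne'
    have h2 : L ^ n ≠ 0 := (pow_pos hL0 n).ne'
    field_simp
  have hvnn : ∀ n, 0 ≤ v n := fun n => div_nonneg (Nat.cast_nonneg _) (pow_pos hΛ0 n).le
  have hvQ : ∀ n, 1 ≤ n → |v n - G n * ∏ j, (2 - 2 * (lam j ^ n).re)| ≤ (BP * B * C) * κ ^ n := fun n hn => by
    rw [hv n hn, ← mul_sub, abs_mul, mul_assoc]
    have h1 := hDas n hn
    exact mul_le_mul (hGB n hn) h1 (abs_nonneg _) (mul_nonneg (Nat.cast_nonneg _) hB0)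
  have hC0 : 0 ≤ (BP * B * |C|) := mul_nonneg (mul_nonneg (Nat.cast_nonneg _) hB0) (abs_nonneg _)
  set Bv : ℝ := BP * B * 4 ^ ρ + BP * B * |C| with hBv
  have hvB : ∀ n, 1 ≤ n → |v n| ≤ Bv := fun n hn => by
    have h1 := hvQ n hn
    have h2 : |G n * ∏ j, (2 - 2 * (lam j ^ n).re)| ≤ BP * B * 4 ^ ρ := by
      rw [abs_mul]
      exact mul_le_mul (hGB n hn) (Q_bdd ρ lam (fun j => (hlam j).1) n) (abs_nonneg _)
        (mul_nonneg (Nat.cast_nonneg _) hB0)
    have h3 : (BP * B * C) * κ ^ n ≤ BP * B * |C| := by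
      calc (BP * B * C) * κ ^ n ≤ (BP * B * |C|) * κ ^ n := by
            refine mul_le_mul_of_nonneg_right ?_ (pow_nonneg hκ0 n)
            exact mul_le_mul_of_nonneg_left (le_abs_self C) (mul_nonneg (Nat.cast_nonneg _) hB0)
        _ ≤ (BP * B * |C|) * 1 := mul_le_mul_of_nonneg_left (pow_le_one₀ hκ0 hκ1.le) hC0
        _ = _ := mul_one _
    have h4 : |v n| ≤ |v n - G n * ∏ j, (2 - 2 * (lam j ^ n).re)| + |G n * ∏ j, (2 - 2 * (lam j ^ n).re)| := by
      have := abs_add_le (v n - G n * ∏ j, (2 - 2 * (lam j ^ n).re)) (G n * ∏ j, (2 - 2 * (lam j ^ n).re))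
      rwa [sub_add_cancel] at this
    rw [hBv]
    linarith
  -- the means of `v`
  obtain ⟨θ, hθ⟩ := hQ hME ρ lam hlam
  have hmean : ∀ (x : ℚ) (c' : ℂ), HasMean (fun n => (G n : ℂ) * e (-(n * x))) c' →
      HasMean (fun n => (v n : ℂ) * e (-(x + θ)) ^ n) ((-1) ^ ρ * c') := fun x c' hx => by
    have h1 := hθ (m0 * m) G hGap x c' hx
    refine hasMean_of_close _ _ _ (BP * B * C) κ hκ0 hκ1 h1 (fun n hn => ?_)
    rw [e_neg_nat, ← sub_mul, norm_mul, norm_pow, norm_e, one_pow, mul_one, ← Complex.ofReal_mul,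
      ← Complex.ofReal_sub, Complex.norm_real, Real.norm_eq_abs]
    exact hvQ n hn
  -- `Lam f = Λ`
  have hLamf : Lam f = Λ := by
    obtain ⟨x, cx, hcx0, hcx⟩ : ∃ (x : ℚ) (c' : ℂ), c' ≠ 0 ∧ HasMean (fun n => (G n : ℂ) * e (-(n * x))) c' := by
      by_contra hcon
      push Not at hcon
      have h0 : ∀ x : ℚ, HasMean (fun n => (G n : ℂ) * e (-(n * x))) 0 := fun x => by
        obtain ⟨c', hc'⟩ := (hME (m0 * m) G hGap).1 x
        by_cases h : c' = 0
        · rw [h] at hc'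
          exact hc'
        · exact absurd hc' (hcon x c' h)
      exact hG1.ne' (hZ (m0 * m) G hGap h0 1 le_rfl)
    obtain ⟨δ, hδ, hfr⟩ := hFreq _ _ (mul_ne_zero (pow_ne_zero _ (by norm_num)) hcx0) (hmean x cx hcx)
    refine hLam (fix f) Λ Bv δ hΛ0 hδ (fun n hn => ?_) (hfr.mono (fun n hn => ?_))
    · have h1 := hvB n hn
      rw [abs_of_nonneg (hvnn n)] at h1
      simp only [hvdef] at h1
      rwa [div_le_iff₀ (pow_pos hΛ0 n)] at h1
    · rw [norm_mul, norm_pow, norm_e, one_pow, mul_one, Complex.norm_real, Real.norm_eq_abs,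
        abs_of_nonneg (hvnn n)] at hn
      simp only [hvdef] at hn
      rwa [le_div_iff₀ (pow_pos hΛ0 n)] at hn
  intro Ω hΩ hw hg
  obtain ⟨w, hwΩ, hw1⟩ := hw
  obtain ⟨g, hgd, hgz⟩ := hg
  rw [hLamf] at hw1
  -- the scaled continuation
  obtain ⟨δ0, hδ0, hball⟩ := Metric.isOpen_iff.1 hΩ w hwΩ
  have hΛC : (Λ : ℂ) ≠ 0 := by exact_mod_cast hΛ0.ne'
  have hnormΛ : ‖(Λ : ℂ)‖ = Λ := by rw [Complex.norm_real, Real.norm_eq_abs, abs_of_pos hΛ0]
  have hw' : ‖w * Λ‖ = 1 := by rw [norm_mul, hnormΛ]; exact hw1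
  have hmaps : Set.MapsTo (fun z : ℂ => z / Λ) (Metric.ball (w * Λ) (δ0 * Λ)) Ω := by
    intro z hz
    apply hball
    rw [Metric.mem_ball, dist_eq_norm] at hz ⊢
    have : z / Λ - w = (z - w * Λ) / Λ := by field_simp
    rw [this, norm_div, hnormΛ, div_lt_iff₀ hΛ0]
    exact hz
  have hgd' : DifferentiableOn ℂ (fun z : ℂ => g (z / Λ)) (Metric.ball (w * Λ) (δ0 * Λ)) :=
    hgd.comp ((differentiable_id.div_const _).differentiableOn) hmaps
  have hgz' : ∀ z ∈ Metric.ball (w * Λ) (δ0 * Λ), ‖z‖ < 1 →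
      g (z / Λ) = Complex.exp (∑' n : ℕ, (v (n + 1) : ℂ) / ((n : ℂ) + 1) * z ^ (n + 1)) := by
    intro z hz hz1
    rw [hgz (z / Λ) (hmaps hz) (by
      rw [hLamf, norm_div, hnormΛ, div_mul_cancel₀ _ hΛ0.ne']
      exact hz1)]
    unfold zeta
    congr 1
    refine tsum_congr (fun n => ?_)
    simp only [hvdef]
    push_cast
    rw [div_pow]
    have : (Λ : ℂ) ^ (n + 1) ≠ 0 := pow_ne_zero _ hΛC
    field_simp
  obtain ⟨δ', hδ', hF⟩ := hPole v Bv hvB (w * Λ) (δ0 * Λ) _ hw' (mul_pos hδ0 hΛ0) hgd' hgz'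
  rcases hDense hME hInv hZ (m0 * m) G hGap hGinv with ⟨M, hM1, hMper⟩ | hdense
  · -- periodic case
    apply hnr
    -- `c` is rational
    have hf1 : fix f 1 ≠ 0 := by
      intro h
      have h1 := hfixG 1 le_rfl
      rw [h] at h1
      have : 0 < G 1 * (D 1 : ℝ) * c ^ 1 :=
        mul_pos (mul_pos hG1 (by exact_mod_cast Nat.pos_of_ne_zero (hD0 1 le_rfl))) (pow_pos hc 1)
      rw [← h1] at this
      simp at this
    have hm1 : 1 ≤ m := hgap.1
    obtain ⟨q, hq⟩ : ∃ q : ℚ, c = q := by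
      refine hRat hNR c hc ⟨2 + m + fix f 1 + (A - 1).det.natAbs, fun p hp hBp => ?_⟩
      have hp2 : p ≠ 2 := by omega
      have hpm : p.Coprime m := (Nat.Prime.coprime_iff_not_dvd hp).2
        (fun h => by have := Nat.le_of_dvd (by omega) h; omega)
      have hpf1 : ¬ p ∣ fix f 1 := fun h => by
        have := Nat.le_of_dvd (Nat.pos_of_ne_zero hf1) h
        omega
      have hpd1 : ¬ p ∣ (A - 1).det.natAbs := fun h => by
        have := Nat.le_of_dvd (Int.natAbs_pos.2 hdet) h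
        omega
      have hga := hG X f p hp (hfin p hp.one_lt.le)
      have hdc := hDC k A p hp hp2
      have hc1 : fix f p ≡ fix f 1 [MOD p] := by
        rw [← Int.natCast_modEq_iff]
        exact (Int.modEq_iff_dvd.2 hga).symm
      have hc2 : (A ^ p - 1).det.natAbs ≡ (A - 1).det.natAbs [MOD p] := by
        rw [← Int.natCast_modEq_iff, Int.natCast_natAbs, Int.natCast_natAbs]
        exact (Int.modEq_iff_dvd.2 hdc).symm
      refine ⟨fix f p * (A - 1).det.natAbs, (A ^ p - 1).det.natAbs * fix f 1, ?_, ?_, ?_, ?_⟩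
      · intro h
        rcases (Nat.Prime.dvd_mul hp).1 h with h | h
        · exact hpf1 ((hc1.dvd_iff (dvd_refl p)).1 h)
        · exact hpd1 h
      · intro h
        rcases (Nat.Prime.dvd_mul hp).1 h with h | h
        · exact hpd1 ((hc2.dvd_iff (dvd_refl p)).1 h)
        · exact hpf1 h
      · push_cast
        rw [hfix p hp.one_lt.le, hfix 1 le_rfl]
        have h1 : gfac S r s t p = gfac S r s t 1 := by
          have := hginv p 1 hp.one_lt.le le_rfl hpm
          rwa [mul_one] at this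
        rw [h1]
        have h2 : ((((A ^ p - 1).det.natAbs : ℕ) : ℝ)) = |(((A ^ p - 1).det : ℤ) : ℝ)| := by
          rw [Nat.cast_natAbs, Int.cast_abs]
        have h3 : ((((A - 1).det.natAbs : ℕ) : ℝ)) = |(((A - 1).det : ℤ) : ℝ)| := by
          rw [Nat.cast_natAbs, Int.cast_abs]
        rw [h2, h3, pow_one, pow_one]
        have h4 : c ^ p = c ^ (p - 1) * c := by
          rw [← pow_succ, Nat.sub_add_cancel hp.one_lt.le]
        rw [h4]
        ring
      · calc fix f p * (A - 1).det.natAbs ≡ fix f 1 * (A ^ p - 1).det.natAbs [MOD p] := hc1.mul hc2.symm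
          _ = (A ^ p - 1).det.natAbs * fix f 1 := mul_comm _ _
    have hq0 : (0 : ℝ) < q := hq ▸ hc
    set Gq : ℕ → ℚ := fun n => (fix f n : ℚ) / ((D n : ℚ) * q ^ n) with hGq
    have hGqG : ∀ n, 1 ≤ n → (Gq n : ℝ) = G n := fun n hn => by
      simp only [hGq]
      push_cast
      rw [hfixG n hn, hq]
      have h1 : (D n : ℝ) ≠ 0 := by exact_mod_cast hD0 n hn
      have h2 : ((q : ℝ)) ^ n ≠ 0 := (pow_pos hq0 n).ne'
      field_simp
    have hm01 : 1 ≤ m0 * m := Nat.mul_pos hm0 hm1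
    have hper' : ∀ j n : ℕ, 1 ≤ n → G (n + j * M) = G n := by
      intro j
      induction j with
      | zero => intro n hn; simp
      | succ j ih =>
        intro n hn
        rw [show n + (j + 1) * M = (n + j * M) + M by ring, hMper _ (by omega), ih n hn]
    obtain ⟨γ, hγ⟩ := hGcd (m0 * m * M) Gq (Nat.mul_pos hm01 hM1) (fun n hn => by
      have h1 : (Gq (n + m0 * m * M) : ℝ) = Gq n := by
        rw [hGqG _ (by omega), hGqG n hn, hper' _ n hn]
      exact_mod_cast h1) (fun u n hu hn hcop => by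
      have h1 : u.Coprime (m0 * m) := Nat.Coprime.coprime_mul_right_right hcop
      have h2 : (Gq (u * n) : ℝ) = Gq n := by
        rw [hGqG _ (Nat.mul_pos hu hn), hGqG n hn, hGinv u n hu hn h1]
      exact_mod_cast h2)
    obtain ⟨j, hj, P', Q', hQ', hPQ⟩ := hRR (m0 * m * M) K γ a (fun k => (q : ℂ) * ν k) Λ (fix f) hΛ0
      (fun k => by
        rw [norm_mul, hΛdef]
        refine mul_le_mul ?_ (hνL k) (norm_nonneg _) hc.le
        rw [hq, show ((q : ℂ)) = (((q : ℝ)) : ℂ) by push_cast; rfl, Complex.norm_real, Real.norm_eq_abs,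
          abs_of_pos hq0])
      (fun n hn => by
        have h1 : ((Gq n : ℚ) : ℂ) = ∑ d ∈ (m0 * m * M).divisors, if d ∣ n then (γ d : ℂ) else 0 := by
          rw [hγ n hn]
          push_cast
          exact Finset.sum_congr rfl (fun d _ => by split_ifs <;> simp)
        rw [← h1]
        have h2 : ((Gq n : ℚ) : ℂ) = (G n : ℂ) := by
          rw [← hGqG n hn]
          push_cast
          rfl
        have h3 : (∑ k, (a k : ℂ) * ((q : ℂ) * ν k) ^ n) = (q : ℂ) ^ n * (D n : ℂ) := by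
          rw [hDsum n hn, Finset.mul_sum]
          exact Finset.sum_congr rfl (fun k _ => by rw [mul_pow]; ring)
        rw [h2, h3]
        have h4 : (((fix f n : ℝ)) : ℂ) = ((G n * (D n : ℝ) * c ^ n : ℝ) : ℂ) := by rw [hfixG n hn]
        rw [hq] at h4
        push_cast at h4
        rw [h4]
        ring)
    refine ⟨j, hj, P', Q', hQ', fun z hz => ?_⟩
    rw [hLamf] at hz
    exact hPQ z hz
  · -- dense case
    set τ : ℝ := -((w * Λ).arg / (2 * Real.pi)) with hτ
    have heτ : e (-τ) = w * Λ := e_arg (w * Λ) hw'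
    have hcont : Continuous (fun x : ℝ => e (-(x + θ))) := by
      unfold e
      fun_prop
    obtain ⟨η, hη, hηb⟩ : ∃ η : ℝ, 0 < η ∧ ∀ x : ℝ, |x - (τ - θ)| < η → e (-(x + θ)) ∈ Metric.ball (w * Λ : ℂ) δ' := by
      have h1 := Metric.continuous_iff.1 hcont (τ - θ) δ' hδ'
      obtain ⟨η, hη, h2⟩ := h1
      refine ⟨η, hη, fun x hx => ?_⟩
      have h3 := h2 x (by rw [Real.dist_eq]; exact hx)
      rw [Metric.mem_ball]
      simp only [sub_add_cancel] at h3
      rwa [heτ] at h3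
    have hinf := hdense (τ - θ) (τ - θ + min η (1 / 2)) (by
      have : 0 < min η (1 / 2) := lt_min hη (by norm_num)
      linarith)
    refine Set.Infinite.mono ?_ (hinf.image (f := fun x : ℚ => e (-((x : ℝ) + θ))) ?_) hF
    · rintro z ⟨x, ⟨hx1, hx2, cx, hcx0, hcx⟩, rfl⟩
      refine ⟨norm_e _, hηb x ?_, fun hlim => ?_⟩
      · rw [abs_lt]
        constructor
        · linarith
        · have := min_le_left η (1 / 2)
          linarith
      · have h1 := hmean x cx hcx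
        have h2 := hAbel _ Bv (fun n hn => by
          rw [norm_mul, norm_pow, norm_e, one_pow, mul_one, Complex.norm_real, Real.norm_eq_abs]
          exact hvB n hn) _ h1
        have h3 : ((-1 : ℂ)) ^ ρ * cx = 0 := by
          refine tendsto_nhds_unique h2 (hlim.congr (fun y => ?_))
          congr 1
          refine tsum_congr (fun n => ?_)
          rw [mul_pow]
          ring
        exact (mul_ne_zero (pow_ne_zero _ (by norm_num)) hcx0) h3
    · rintro x ⟨hx1, hx2, -⟩ y ⟨hy1, hy2, -⟩ hxy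
      simp only [] at hxy
      unfold e at hxy
      rw [Complex.exp_eq_exp_iff_exists_int] at hxy
      obtain ⟨n, hn⟩ := hxy
      have h1 : (-((x : ℝ) + θ)) = (-((y : ℝ) + θ)) + n := by
        have h2 : (2 * Real.pi * Complex.I : ℂ) ≠ 0 := Complex.two_pi_I_ne_zero
        have h3 : (2 * Real.pi * Complex.I : ℂ) * ((-((x : ℝ) + θ) : ℝ) : ℂ) =
            (2 * Real.pi * Complex.I) * (((-((y : ℝ) + θ) : ℝ) : ℂ) + n) := by
          rw [hn]; ring
        have h4 := mul_left_cancel₀ h2 h3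
        exact_mod_cast h4
      have hmin := min_le_right η (1 / 2)
      have h5 : |(n : ℝ)| < 1 := by
        rw [abs_lt]
        constructor <;> linarith
      have h6 : n = 0 := by
        rw [← Int.cast_abs] at h5
        have : |n| < 1 := by exact_mod_cast h5
        exact Int.abs_lt_one_iff.1 this
      rw [h6] at h1
      have h7 : (x : ℝ) = y := by
        push_cast at h1
        linarith
      exact_mod_cast h7

end Pool.Agent.Q9.FD.Final
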