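import Pool.Agent.Q9.FD.Defs

/-!
# FAD-systems: blueprint (MP_dde008_nt)

Prove `theorem main (h : TaskY) ... : Pool.Agent.Q9.FD.TaskX` in `Pool/Agent/Q9/FD/TaskX.lean`, namespace
`Pool.Agent.Q9.FD.TaskX`, where only the dependencies written before the arrow are used (they are part of the statement).
-/

set_option autoImplicit false

open Filter Topology

namespace Pool.Agent.Q9.FD

universe u

/-- `f^p` permutes its fixed points; the ones not fixed by `f` form cycles of length `p` -/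
def TaskGauss : Prop := ∀ (X : Type u) (f : X → X) (p : ℕ), p.Prime →
  {x : X | f^[p] x = x}.Finite → (p : ℤ) ∣ (fix f p : ℤ) - (fix f 1 : ℤ)

/-- `A^p - 1 = (A - 1)^p` mod `p`; `det (1 + A + ... + A^(p-1)) = ∏_{j ≤ (p-1)/2} |det (A - ζ^j)|^2 ≥ 0` over `ℂ` -/
def TaskDetCong : Prop := ∀ (k : ℕ) (A : Matrix (Fin k) (Fin k) ℤ) (p : ℕ), p.Prime → p ≠ 2 →
  (p : ℤ) ∣ |(A ^ p - 1).det| - |(A - 1).det|

/-- quadratic reciprocity (jacobiSym) and Dirichlet's theorem (`Nat.forall_exists_prime_gt_and_eq_mod`) -/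
def TaskNonres : Prop := ∀ w : ℕ, ¬ IsSquare w → ∀ B : ℕ, ∃ p : ℕ, p.Prime ∧ B < p ∧
  ¬ IsSquare ((w : ℕ) : ZMod p)

/-- `c² ∈ ℚ` from two large primes with `gcd (p-1, q-1) = 2` (Dirichlet), then `c² = u/v`, and `u v` is a square mod all
large primes -/
def TaskRat : Prop := TaskNonres → ∀ c : ℝ, 0 < c → (∃ B : ℕ, ∀ p : ℕ, p.Prime → B < p → ∃ x y : ℕ,
  ¬ p ∣ x ∧ ¬ p ∣ y ∧ (y : ℝ) * c ^ (p - 1) = x ∧ x ≡ y [MOD p]) → ∃ q : ℚ, c = q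

/-- `∏ (z^n - 1)` over the complex roots `z` of the integer polynomial `p` with multiplicity -/
noncomputable def prodP (p : Polynomial ℤ) (n : ℕ) : ℂ :=
  ((p.map (Int.castRingHom ℂ)).roots.map (fun z => z ^ n - 1)).prod

/-- the product of `max (1, |z|)` over the roots -/
noncomputable def mah (p : Polynomial ℤ) : ℝ :=
  ((p.map (Int.castRingHom ℂ)).roots.map (fun z => max 1 ‖z‖)).prod

/-- spectral mapping (triangular form over `ℂ`, or resultants) -/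
def TaskDetProd : Prop := ∀ (k : ℕ) (A : Matrix (Fin k) (Fin k) ℤ) (n : ℕ), 1 ≤ n →
  (((A ^ n - 1).det : ℤ) : ℂ) = prodP A.charpoly n

/-- split off the cyclotomic factors -/
def TaskCyc : Prop := ∀ p : Polynomial ℤ, p.Monic → ∃ T R : Polynomial ℤ, T.Monic ∧ R.Monic ∧ p = T * R ∧
  (∀ z ∈ (T.map (Int.castRingHom ℂ)).roots, ∃ n : ℕ, 1 ≤ n ∧ z ^ n = 1) ∧
  (∀ z ∈ (R.map (Int.castRingHom ℂ)).roots, ∀ n : ℕ, 1 ≤ n → z ^ n ≠ 1)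

/-- from TaskDetProd with a companion matrix, or symmetric functions, or resultants -/
def TaskIntProd : Prop := TaskDetProd → ∀ p : Polynomial ℤ, p.Monic → ∀ n : ℕ, 1 ≤ n → ∃ a : ℤ, prodP p n = a

/-- product of cyclotomic polynomials; `z ↦ z^u` permutes the roots for `u` prime to the orders -/
def TaskTor : Prop := ∀ T : Polynomial ℤ, T.Monic →
  (∀ z ∈ (T.map (Int.castRingHom ℂ)).roots, ∃ n : ℕ, 1 ≤ n ∧ z ^ n = 1) →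
  ∃ m : ℕ, 1 ≤ m ∧ (∀ n : ℕ, prodP T (n + m) = prodP T n) ∧ UnitInv m (prodP T)

/-- expand the product -/
def TaskExp : Prop := ∀ R : Polynomial ℤ, R.Monic → ∃ (K : ℕ) (a : Fin K → ℤ) (ν : Fin K → ℂ),
  (∀ n : ℕ, prodP R n = ∑ k, (a k : ℂ) * ν k ^ n) ∧ ∀ k, ‖ν k‖ ≤ mah R

/-- pair the complex conjugate roots; real roots give the sign -/
def TaskSign : Prop := ∀ R : Polynomial ℤ, R.Monic →
  (∀ z ∈ (R.map (Int.castRingHom ℂ)).roots, ∀ n : ℕ, 1 ≤ n → z ^ n ≠ 1) →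
  ∃ a b : ℤ, ∀ n : ℕ, 1 ≤ n → (‖prodP R n‖ : ℂ) = a * b ^ n * prodP R n ∧ |b| = 1 ∧ |a| = 1

/-- roots on the unit circle come in conjugate pairs with `|z^n - 1|² = 2 - 2 Re z^n`; the others contribute
`max (1, |z|)^n (1 + O(κ^n))` -/
def TaskAsym : Prop := ∀ R : Polynomial ℤ, R.Monic →
  (∀ z ∈ (R.map (Int.castRingHom ℂ)).roots, ∀ n : ℕ, 1 ≤ n → z ^ n ≠ 1) →
  ∃ (r : ℕ) (lam : Fin r → ℂ) (κ C : ℝ), (∀ j, ‖lam j‖ = 1 ∧ ∀ n : ℕ, 1 ≤ n → lam j ^ n ≠ 1) ∧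
    0 ≤ κ ∧ κ < 1 ∧ ∀ n : ℕ, 1 ≤ n →
      |‖prodP R n‖ / mah R ^ n - ∏ j, (2 - 2 * (lam j ^ n).re)| ≤ C * κ ^ n

/-- the structure of `|det (A^n - 1)|` -/
def DetStr : Prop := ∀ (k : ℕ) (A : Matrix (Fin k) (Fin k) ℤ), (A - 1).det ≠ 0 →
  ∃ (m0 : ℕ) (P D : ℕ → ℕ) (K : ℕ) (a : Fin K → ℤ) (ν : Fin K → ℂ) (L : ℝ) (r : ℕ) (lam : Fin r → ℂ)
    (κ C : ℝ), 1 ≤ m0 ∧ (∀ n, 1 ≤ n → P (n + m0) = P n) ∧ UnitInv m0 P ∧ P 1 ≠ 0 ∧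
    (∀ n, 1 ≤ n → |(A ^ n - 1).det| = ((P n * D n : ℕ) : ℤ)) ∧ (∀ n, 1 ≤ n → D n ≠ 0) ∧
    (∀ n, 1 ≤ n → (D n : ℂ) = ∑ k, (a k : ℂ) * ν k ^ n) ∧ 1 ≤ L ∧ (∀ k, ‖ν k‖ ≤ L) ∧
    (∀ j, ‖lam j‖ = 1 ∧ ∀ n : ℕ, 1 ≤ n → lam j ^ n ≠ 1) ∧ 0 ≤ κ ∧ κ < 1 ∧
    ∀ n, 1 ≤ n → |(D n : ℝ) / L ^ n - ∏ j, (2 - 2 * (lam j ^ n).re)| ≤ C * κ ^ n

/-- assembly: `charpoly = T R`, `P n = |prodP T n|`, `D n = |prodP R n|`, `L = mah R` -/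
def TaskDetAsm : Prop := TaskDetProd → TaskCyc → TaskIntProd → TaskTor → TaskExp → TaskSign → TaskAsym → DetStr

/-- `g` is bounded, positive, invariant, and a uniform limit of periodic sequences (cut off at `v_p(n) > V`) -/
def TaskLP : Prop := ∀ (S : Finset ℕ) (r : ℕ → ℝ) (s t : ℕ → ℕ → ℝ), Admissible S r s t →
  ∃ (m : ℕ) (B : ℝ), (∀ n, 1 ≤ n → 0 < gfac S r s t n ∧ gfac S r s t n ≤ B) ∧
    UnitInv m (gfac S r s t) ∧ ApproxBy m (gfac S r s t)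

def TaskProdLP : Prop := ∀ (m m0 : ℕ) (G P : ℕ → ℝ), ApproxBy m G → (∃ B, ∀ n, 1 ≤ n → |G n| ≤ B) → 1 ≤ m0 →
  (∀ n, 1 ≤ n → P (n + m0) = P n) → ApproxBy (m0 * m) (fun n => P n * G n)

/-- the mean values (Fourier-Bohr coefficients) exist -/
def TaskMeanEx : Prop := ∀ (m : ℕ) (G : ℕ → ℝ), ApproxBy m G →
  (∀ x : ℚ, ∃ c, HasMean (fun n => (G n : ℂ) * e (-(n * x))) c) ∧
  (∀ x : ℝ, Irrational x → HasMean (fun n => (G n : ℂ) * e (-(n * x))) 0) ∧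
  (∀ x : ℚ, (∃ p : ℕ, p.Prime ∧ p ∣ x.den ∧ ¬ p ∣ m) → HasMean (fun n => (G n : ℂ) * e (-(n * x))) 0)

/-- `n ↦ u n` is a bijection modulo the periods -/
def TaskInv : Prop := ∀ (m : ℕ) (G : ℕ → ℝ), ApproxBy m G → UnitInv m G → ∀ (x : ℚ) (u : ℕ) (c : ℂ),
  (∀ p : ℕ, p.Prime → p ∣ x.den → p ∣ m) → 1 ≤ u → u.Coprime m →
  HasMean (fun n => (G n : ℂ) * e (-(n * x))) c → HasMean (fun n => (G n : ℂ) * e (-(n * (u * x)))) c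

/-- `h` periodic with `|φ - h| ≤ ε`: mean of `φ h` is `0`, so mean of `h²` is `≤ ε (ε + sup |φ|)`; then a value
`φ n ≠ 0` gives a positive mean of `φ²` on a residue class -/
def TaskZero : Prop := ∀ (m : ℕ) (φ : ℕ → ℝ), ApproxBy m φ →
  (∀ x : ℚ, HasMean (fun n => (φ n : ℂ) * e (-(n * x))) 0) → ∀ n, 1 ≤ n → φ n = 0

/-- if not periodic: by TaskZero for `G (n + M) - G n` there are frequencies `a/q` with `q` arbitrarily large, the primes of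
`q` divide `m`; by TaskInv all `b/q` with `b` prime to `m` are frequencies -/
def TaskDense : Prop := TaskMeanEx → TaskInv → TaskZero → ∀ (m : ℕ) (G : ℕ → ℝ), ApproxBy m G → UnitInv m G →
  (∃ M : ℕ, 1 ≤ M ∧ ∀ n, 1 ≤ n → G (n + M) = G n) ∨
  ∀ a b : ℝ, a < b → {x : ℚ | a < x ∧ (x : ℝ) < b ∧ ∃ c : ℂ, c ≠ 0 ∧
    HasMean (fun n => (G n : ℂ) * e (-(n * x))) c}.Infinite

/-- `lam j = e(θ_j)`, `θ_j` irrational; a `ℚ`-linear `l : ℝ → ℝ` with `l 1 = 0`, `l θ_j ≠ 0` for all `j`;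
`θ = ∑ sign (l θ_j) θ_j`; expand `∏ (2 - lam^n - lam^(-n))`: all other frequencies differ from `θ` by an irrational -/
def TaskQmean : Prop := TaskMeanEx → ∀ (r : ℕ) (lam : Fin r → ℂ),
  (∀ j, ‖lam j‖ = 1 ∧ ∀ n : ℕ, 1 ≤ n → lam j ^ n ≠ 1) → ∃ θ : ℝ, ∀ (m : ℕ) (G : ℕ → ℝ), ApproxBy m G →
    ∀ (x : ℚ) (c : ℂ), HasMean (fun n => (G n : ℂ) * e (-(n * x))) c →
      HasMean (fun n => (G n : ℂ) * ((∏ j, (2 - 2 * (lam j ^ n).re) : ℝ) : ℂ) * e (-(n * (x + θ))))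
        ((-1) ^ r * c)

/-- Cesàro means give Abel means -/
def TaskAbel : Prop := ∀ (a : ℕ → ℂ) (B : ℝ), (∀ n, 1 ≤ n → ‖a n‖ ≤ B) → ∀ c : ℂ, HasMean a c →
  Tendsto (fun ρ : ℝ => (1 - ρ : ℂ) * ∑' n : ℕ, a (n + 1) * (ρ : ℂ) ^ (n + 1)) (𝓝[<] 1) (𝓝 c)

/-- at a point of the circle where the continuation `g` does not vanish, `∑ u_n z^n = z g'/g` is bounded near by;
`g` has finitely many zeros in a compact disc -/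
def TaskPole : Prop := ∀ (v : ℕ → ℝ) (B : ℝ), (∀ n, 1 ≤ n → |v n| ≤ B) → ∀ (w : ℂ) (δ : ℝ) (g : ℂ → ℂ), ‖w‖ = 1 →
  0 < δ → DifferentiableOn ℂ g (Metric.ball w δ) →
  (∀ z ∈ Metric.ball w δ, ‖z‖ < 1 → g z = Complex.exp (∑' n : ℕ, (v (n + 1) : ℂ) / ((n : ℂ) + 1) * z ^ (n + 1))) →
  ∃ δ' : ℝ, 0 < δ' ∧ {z : ℂ | ‖z‖ = 1 ∧ z ∈ Metric.ball w δ' ∧
    ¬ Tendsto (fun ρ : ℝ => (1 - ρ : ℂ) * ∑' n : ℕ, (v (n + 1) : ℂ) * ((ρ : ℂ) * z) ^ (n + 1))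
      (𝓝[<] 1) (𝓝 0)}.Finite

/-- `G n = G (gcd (n, M))`, Möbius inversion -/
def TaskGcd : Prop := ∀ (M : ℕ) (G : ℕ → ℚ), 1 ≤ M → (∀ n, 1 ≤ n → G (n + M) = G n) → UnitInv M G →
  ∃ γ : ℕ → ℚ, ∀ n, 1 ≤ n → G n = ∑ d ∈ M.divisors, if d ∣ n then γ d else 0

/-- `exp (∑ a_n z^n / n) = ∏ (1 - (ν_k z)^d)^(-γ_d a_k / d)`; take the power by a common denominator -/
def TaskRR : Prop := ∀ (M K : ℕ) (γ : ℕ → ℚ) (a : Fin K → ℤ) (ν : Fin K → ℂ) (L : ℝ) (b : ℕ → ℕ), 0 < L →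
  (∀ k, ‖ν k‖ ≤ L) →
  (∀ n, 1 ≤ n → (b n : ℂ) = (∑ d ∈ M.divisors, if d ∣ n then (γ d : ℂ) else 0) * ∑ k, (a k : ℂ) * ν k ^ n) →
  ∃ j : ℕ, 1 ≤ j ∧ ∃ P Q : Polynomial ℂ, Q ≠ 0 ∧ ∀ z : ℂ, ‖z‖ * L < 1 →
    Q.eval z * Complex.exp (∑' n : ℕ, (b (n + 1) : ℂ) / ((n : ℂ) + 1) * z ^ (n + 1)) ^ j = P.eval z

def TaskLam : Prop := ∀ (a : ℕ → ℕ) (Λ B δ : ℝ), 0 < Λ → 0 < δ → (∀ n, 1 ≤ n → (a n : ℝ) ≤ B * Λ ^ n) →
  (∃ᶠ n in atTop, δ * Λ ^ n ≤ (a n : ℝ)) → limsup (fun n : ℕ => (a n : ℝ) ^ (1 / (n : ℝ))) atTop = Λ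

/-- a nonzero mean forces infinitely many large terms -/
def TaskFreq : Prop := ∀ (a : ℕ → ℂ) (c : ℂ), c ≠ 0 → HasMean a c → ∃ δ : ℝ, 0 < δ ∧
  ∃ᶠ n in atTop, δ ≤ ‖a n‖

end Pool.Agent.Q9.FD
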