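import Pool.Agent.Q9.FD.Stmts

set_option autoImplicit false

open Filter Topology Finset

namespace Pool.Agent.Q9.FD.TaskAbel

theorem abel_id (b : ℕ → ℂ) (B : ℝ) (hb : ∀ n, ‖b n‖ ≤ B) (ρ : ℝ) (h0 : 0 < ρ) (h1 : ρ < 1) :
    (∑' n : ℕ, b n * (ρ : ℂ) ^ n) = (1 - ρ : ℂ) * ∑' n : ℕ, (∑ k ∈ range (n + 1), b k) * (ρ : ℂ) ^ n := by
  have hn : ‖(ρ : ℂ)‖ < 1 := by
    rw [Complex.norm_real, Real.norm_of_nonneg h0.le]; exact h1
  have hg : Summable (fun n : ℕ => ‖(ρ : ℂ) ^ n‖) := by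
    simpa [norm_pow] using summable_geometric_of_lt_one (norm_nonneg (ρ : ℂ)) hn
  have hf : Summable (fun n : ℕ => ‖b n * (ρ : ℂ) ^ n‖) := by
    refine Summable.of_nonneg_of_le (fun n => norm_nonneg _) (fun n => ?_) (hg.mul_left B)
    rw [norm_mul]
    exact mul_le_mul_of_nonneg_right (hb n) (norm_nonneg _)
  have h := tsum_mul_tsum_eq_tsum_sum_antidiagonal_of_summable_norm hf hg
  rw [tsum_geometric_of_norm_lt_one hn] at h
  have hne : (1 - ρ : ℂ) ≠ 0 := by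
    have : (1 - ρ : ℝ) ≠ 0 := by linarith
    exact_mod_cast this
  have h2 : (∑' n : ℕ, ∑ kl ∈ antidiagonal n, b kl.1 * (ρ : ℂ) ^ kl.1 * (ρ : ℂ) ^ kl.2) =
      ∑' n : ℕ, (∑ k ∈ range (n + 1), b k) * (ρ : ℂ) ^ n := by
    refine tsum_congr fun n => ?_
    rw [Finset.Nat.sum_antidiagonal_eq_sum_range_succ_mk, Finset.sum_mul]
    refine Finset.sum_congr rfl fun k hk => ?_
    have : k ≤ n := by
      have := Finset.mem_range.1 hk; omega
    simp only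
    rw [mul_assoc, ← pow_add, Nat.add_sub_cancel' this]
  rw [h2] at h
  rw [← h]
  field_simp

theorem main : TaskAbel := by
  intro a B hB c hm
  set b : ℕ → ℂ := fun n => a (n + 1) - c with hbdef
  have hb : ∀ n, ‖b n‖ ≤ B + ‖c‖ := by
    intro n
    calc ‖b n‖ ≤ ‖a (n + 1)‖ + ‖c‖ := norm_sub_le _ _
      _ ≤ B + ‖c‖ := by gcongr; exact hB _ (by omega)
  set d : ℕ → ℂ := fun N => ∑ n ∈ range N, b n with hddef
  have hd : Tendsto (fun N : ℕ => d N / (N : ℂ)) atTop (𝓝 0) := by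
    have h := hm.sub_const c
    rw [sub_self] at h
    refine h.congr' ?_
    filter_upwards [eventually_ge_atTop 1] with N hN
    have : (N : ℂ) ≠ 0 := by
      have : N ≠ 0 := by omega
      exact_mod_cast this
    simp only [hddef, hbdef, Finset.sum_sub_distrib, Finset.sum_const, Finset.card_range, nsmul_eq_mul]
    field_simp
  have key : ∀ ε : ℝ, 0 < ε → ∃ K : ℝ, 0 ≤ K ∧ ∀ n : ℕ, ‖d (n + 1)‖ ≤ ε * (n + 1) + K := by
    intro ε hε
    obtain ⟨N0, hN0⟩ := Metric.tendsto_atTop.1 hd ε hε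
    refine ⟨∑ j ∈ range (N0 + 1), ‖d j‖, Finset.sum_nonneg fun _ _ => norm_nonneg _, fun n => ?_⟩
    by_cases h : N0 ≤ n + 1
    · have h1 := hN0 (n + 1) h
      rw [dist_zero_right, norm_div] at h1
      have hpos : (0 : ℝ) < (n : ℝ) + 1 := by positivity
      have h2 : ‖((n + 1 : ℕ) : ℂ)‖ = (n : ℝ) + 1 := by
        rw [Complex.norm_natCast]; push_cast; ring
      rw [h2, div_lt_iff₀ hpos] at h1
      have : 0 ≤ ∑ j ∈ range (N0 + 1), ‖d j‖ := Finset.sum_nonneg fun _ _ => norm_nonneg _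
      linarith
    · have h1 : ‖d (n + 1)‖ ≤ ∑ j ∈ range (N0 + 1), ‖d j‖ :=
        Finset.single_le_sum (f := fun j => ‖d j‖) (fun _ _ => norm_nonneg _)
          (Finset.mem_range.2 (by omega))
      have : 0 ≤ ε * ((n : ℝ) + 1) := by positivity
      linarith
  have hD : Tendsto (fun ρ : ℝ => (1 - ρ : ℂ) ^ 2 * ∑' n : ℕ, d (n + 1) * (ρ : ℂ) ^ n) (𝓝[<] 1) (𝓝 0) := by
    rw [Metric.tendsto_nhds]
    intro ε hε
    obtain ⟨K, hK0, hK⟩ := key (ε / 2) (by linarith)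
    have hlim : Tendsto (fun ρ : ℝ => ε / 2 + K * (1 - ρ)) (𝓝[<] 1) (𝓝 (ε / 2 + K * (1 - 1))) := by
      apply Tendsto.mono_left _ nhdsWithin_le_nhds
      exact (Continuous.tendsto (by fun_prop) _)
    have hlt : ε / 2 + K * (1 - 1) < ε := by simp; linarith
    filter_upwards [hlim.eventually (gt_mem_nhds hlt), Ioo_mem_nhdsLT (show (0 : ℝ) < 1 by norm_num)]
      with ρ hρ hρ01
    obtain ⟨h0, h1⟩ := hρ01
    rw [dist_zero_right]
    refine lt_of_le_of_lt ?_ hρ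
    have hr : ‖ρ‖ < 1 := by rw [Real.norm_of_nonneg h0.le]; exact h1
    have hs1 : HasSum (fun n : ℕ => (n : ℝ) * ρ ^ n) (ρ / (1 - ρ) ^ 2) :=
      hasSum_coe_mul_geometric_of_norm_lt_one hr
    have hs2 : HasSum (fun n : ℕ => ρ ^ n) (1 - ρ)⁻¹ := hasSum_geometric_of_lt_one h0.le h1
    have hs3 : HasSum (fun n : ℕ => (ε / 2 * ((n : ℝ) + 1) + K) * ρ ^ n)
        (ε / 2 * (ρ / (1 - ρ) ^ 2) + (ε / 2 + K) * (1 - ρ)⁻¹) := by
      have := (hs1.mul_left (ε / 2)).add (hs2.mul_left (ε / 2 + K))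
      refine this.congr_fun ?_ |> fun h => h
      intro n
      ring
    have hbound : ‖∑' n : ℕ, d (n + 1) * (ρ : ℂ) ^ n‖ ≤
        ε / 2 * (ρ / (1 - ρ) ^ 2) + (ε / 2 + K) * (1 - ρ)⁻¹ := by
      refine tsum_of_norm_bounded hs3 fun n => ?_
      rw [norm_mul, norm_pow, Complex.norm_real, Real.norm_of_nonneg h0.le]
      exact mul_le_mul_of_nonneg_right (hK n) (by positivity)
    have h1ρ : (0 : ℝ) < 1 - ρ := by linarith
    have hnorm : ‖(1 - ρ : ℂ) ^ 2‖ = (1 - ρ) ^ 2 := by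
      rw [norm_pow]
      have : (1 - ρ : ℂ) = ((1 - ρ : ℝ) : ℂ) := by push_cast; ring
      rw [this, Complex.norm_real, Real.norm_of_nonneg h1ρ.le]
    rw [norm_mul, hnorm]
    calc (1 - ρ) ^ 2 * ‖∑' n : ℕ, d (n + 1) * (ρ : ℂ) ^ n‖
        ≤ (1 - ρ) ^ 2 * (ε / 2 * (ρ / (1 - ρ) ^ 2) + (ε / 2 + K) * (1 - ρ)⁻¹) := by
          gcongr
      _ = ε / 2 + K * (1 - ρ) := by
          field_simp
          ring
  have hfin : Tendsto (fun ρ : ℝ => (ρ : ℂ) * ((1 - ρ : ℂ) ^ 2 * ∑' n : ℕ, d (n + 1) * (ρ : ℂ) ^ n) + ρ * c)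
      (𝓝[<] 1) (𝓝 ((1 : ℝ) * 0 + (1 : ℝ) * c)) := by
    have hρ : Tendsto (fun ρ : ℝ => (ρ : ℂ)) (𝓝[<] 1) (𝓝 ((1 : ℝ) : ℂ)) :=
      (Complex.continuous_ofReal.tendsto 1).mono_left nhdsWithin_le_nhds
    exact (hρ.mul hD).add (hρ.mul_const c)
  have hc : ((1 : ℝ) : ℂ) * 0 + ((1 : ℝ) : ℂ) * c = c := by push_cast; ring
  rw [hc] at hfin
  refine hfin.congr' ?_
  filter_upwards [Ioo_mem_nhdsLT (show (0 : ℝ) < 1 by norm_num)] with ρ hρ01
  obtain ⟨h0, h1⟩ := hρ01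
  have hn : ‖(ρ : ℂ)‖ < 1 := by
    rw [Complex.norm_real, Real.norm_of_nonneg h0.le]; exact h1
  have hne : (1 - ρ : ℂ) ≠ 0 := by
    have : (1 - ρ : ℝ) ≠ 0 := by linarith
    exact_mod_cast this
  have hid := abel_id b (B + ‖c‖) hb ρ h0 h1
  have hg : Summable (fun n : ℕ => ‖(ρ : ℂ) ^ n‖) := by
    simpa [norm_pow] using summable_geometric_of_lt_one (norm_nonneg (ρ : ℂ)) hn
  have hsb : Summable (fun n : ℕ => b n * (ρ : ℂ) ^ n) := by
    refine Summable.of_norm ?_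
    refine Summable.of_nonneg_of_le (fun n => norm_nonneg _) (fun n => ?_) (hg.mul_left (B + ‖c‖))
    rw [norm_mul]
    exact mul_le_mul_of_nonneg_right (hb n) (norm_nonneg _)
  have hsc : Summable (fun n : ℕ => c * (ρ : ℂ) ^ n) := (Summable.of_norm hg).mul_left c
  have hsum : (∑' n : ℕ, a (n + 1) * (ρ : ℂ) ^ (n + 1)) =
      ρ * ((∑' n : ℕ, b n * (ρ : ℂ) ^ n) + c * (1 - ρ : ℂ)⁻¹) := by
    rw [← tsum_geometric_of_norm_lt_one hn, ← tsum_mul_left, ← hsb.tsum_add hsc, ← tsum_mul_left]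
    refine tsum_congr fun n => ?_
    simp only [hbdef]
    ring
  rw [hsum, hid]
  simp only [hddef]
  field_simp

end Pool.Agent.Q9.FD.TaskAbel
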