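import Pool.Agent.Q9.FD.Stmts

set_option autoImplicit false

open Filter Topology

namespace Pool.Agent.Q9.FD.TaskAsym

private noncomputable def aa (n : ℕ) (z : ℂ) : ℝ := ‖z ^ n - 1‖ / max 1 ‖z‖ ^ n

open Classical in
private noncomputable def bb (n : ℕ) (z : ℂ) : ℝ := if ‖z‖ = 1 then ‖z ^ n - 1‖ else 1

private theorem aa_nonneg (n : ℕ) (z : ℂ) : 0 ≤ aa n z := by unfold aa; positivity

private theorem bb_nonneg (n : ℕ) (z : ℂ) : 0 ≤ bb n z := by
  unfold bb; split_ifs
  · positivity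
  · norm_num

private theorem aa_le (n : ℕ) (z : ℂ) : aa n z ≤ 2 := by
  unfold aa
  have h1 : (1 : ℝ) ≤ max 1 ‖z‖ := le_max_left _ _
  have h2 : 1 ≤ max 1 ‖z‖ ^ n := one_le_pow₀ h1
  have h3 : ‖z‖ ^ n ≤ max 1 ‖z‖ ^ n := pow_le_pow_left₀ (norm_nonneg _) (le_max_right _ _) n
  rw [div_le_iff₀ (by linarith)]
  calc ‖z ^ n - 1‖ ≤ ‖z ^ n‖ + ‖(1 : ℂ)‖ := norm_sub_le _ _
    _ = ‖z‖ ^ n + 1 := by rw [norm_pow, norm_one]
    _ ≤ _ := by linarith

private theorem bb_le (n : ℕ) (z : ℂ) : bb n z ≤ 2 := by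
  unfold bb
  split_ifs with h
  · calc ‖z ^ n - 1‖ ≤ ‖z ^ n‖ + ‖(1 : ℂ)‖ := norm_sub_le _ _
      _ = ‖z‖ ^ n + 1 := by rw [norm_pow, norm_one]
      _ ≤ 2 := by rw [h, one_pow]; norm_num
  · norm_num

private theorem one_root (z : ℂ) : ∃ κ : ℝ, 0 ≤ κ ∧ κ < 1 ∧ ∀ n : ℕ, 1 ≤ n → |aa n z - bb n z| ≤ κ ^ n := by
  rcases lt_trichotomy ‖z‖ 1 with h | h | h
  · refine ⟨‖z‖, norm_nonneg _, h, fun n hn => ?_⟩
    unfold aa bb
    rw [if_neg h.ne, max_eq_left h.le, one_pow, div_one]
    have := abs_norm_sub_norm_le (z ^ n - 1) (-1)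
    rw [norm_neg, norm_one] at this
    calc _ ≤ _ := this
      _ = ‖z‖ ^ n := by rw [sub_neg_eq_add, sub_add_cancel, norm_pow]
  · refine ⟨0, le_rfl, one_pos, fun n hn => ?_⟩
    unfold aa bb
    rw [if_pos h, h, max_self, one_pow, div_one, sub_self, abs_zero]
    positivity
  · refine ⟨‖z‖⁻¹, by positivity, inv_lt_one_of_one_lt₀ h, fun n hn => ?_⟩
    unfold aa bb
    have h0 : 0 < ‖z‖ ^ n := by positivity
    rw [if_neg h.ne', max_eq_right h.le, div_sub_one h0.ne', abs_div, abs_of_pos h0, inv_pow,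
      div_le_iff₀ h0, inv_mul_cancel₀ h0.ne']
    have := abs_norm_sub_norm_le (z ^ n - 1) (z ^ n)
    rw [norm_pow] at this
    calc _ ≤ _ := this
      _ = 1 := by simp

private theorem est (s : Multiset ℂ) : ∃ κ C : ℝ, 0 ≤ κ ∧ κ < 1 ∧ 0 ≤ C ∧ ∀ n : ℕ, 1 ≤ n →
    |(s.map (aa n)).prod - (s.map (bb n)).prod| ≤ C * κ ^ n ∧ 0 ≤ (s.map (bb n)).prod ∧
      (s.map (bb n)).prod ≤ 2 ^ Multiset.card s := by
  induction s using Multiset.induction_on with
  | empty => exact ⟨0, 0, le_rfl, one_pos, le_rfl, fun n hn => by simp⟩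
  | cons z s ih =>
    obtain ⟨κ, C, h0, h1, hC, h⟩ := ih
    obtain ⟨κ', h0', h1', h'⟩ := one_root z
    refine ⟨max κ κ', 2 * C + 2 ^ Multiset.card s, le_max_of_le_left h0, max_lt h1 h1', by positivity,
      fun n hn => ?_⟩
    obtain ⟨hA, hB, hB2⟩ := h n hn
    have hz := h' n hn
    have k1 : κ ^ n ≤ max κ κ' ^ n := pow_le_pow_left₀ h0 (le_max_left _ _) n
    have k2 : κ' ^ n ≤ max κ κ' ^ n := pow_le_pow_left₀ h0' (le_max_right _ _) n
    rw [Multiset.map_cons, Multiset.map_cons, Multiset.prod_cons, Multiset.prod_cons,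
      Multiset.card_cons]
    refine ⟨?_, mul_nonneg (bb_nonneg n z) hB, ?_⟩
    · have e : aa n z * (s.map (aa n)).prod - bb n z * (s.map (bb n)).prod =
        aa n z * ((s.map (aa n)).prod - (s.map (bb n)).prod) +
          (aa n z - bb n z) * (s.map (bb n)).prod := by ring
      rw [e]
      have t1 : |aa n z * ((s.map (aa n)).prod - (s.map (bb n)).prod)| ≤ 2 * (C * κ ^ n) := by
        rw [abs_mul, abs_of_nonneg (aa_nonneg n z)]
        exact mul_le_mul (aa_le n z) hA (abs_nonneg _) (by norm_num)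
      have t2 : |(aa n z - bb n z) * (s.map (bb n)).prod| ≤ κ' ^ n * 2 ^ Multiset.card s := by
        rw [abs_mul, abs_of_nonneg hB]
        exact mul_le_mul hz hB2 hB (by positivity)
      calc _ ≤ _ := abs_add_le _ _
        _ ≤ 2 * (C * κ ^ n) + κ' ^ n * 2 ^ Multiset.card s := add_le_add t1 t2
        _ ≤ 2 * (C * max κ κ' ^ n) + max κ κ' ^ n * 2 ^ Multiset.card s := by gcongr
        _ = _ := by ring
    · rw [pow_succ, mul_comm]
      exact mul_le_mul hB2 (bb_le n z) (bb_nonneg n z) (by positivity)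

private theorem quot (s : Multiset ℂ) (n : ℕ) : ‖(s.map (fun z => z ^ n - 1)).prod‖ /
    (s.map (fun z => max 1 ‖z‖)).prod ^ n = (s.map (aa n)).prod := by
  induction s using Multiset.induction_on with
  | empty => simp
  | cons z s ih =>
    simp only [Multiset.map_cons, Multiset.prod_cons, norm_mul, mul_pow]
    rw [← ih, aa]
    rw [mul_div_mul_comm]

open Classical in
private theorem unitp (s : Multiset ℂ) (n : ℕ) : (s.map (bb n)).prod =
    ((s.filter (fun z => ‖z‖ = 1)).map (fun z => ‖z ^ n - 1‖)).prod := by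
  induction s using Multiset.induction_on with
  | empty => simp
  | cons z s ih =>
    by_cases h : ‖z‖ = 1
    · rw [Multiset.filter_cons_of_pos (p := fun z : ℂ => ‖z‖ = 1) s h]
      simp only [Multiset.map_cons, Multiset.prod_cons]
      rw [ih, bb, if_pos h]
    · rw [Multiset.filter_cons_of_neg (p := fun z : ℂ => ‖z‖ = 1) s h]
      simp only [Multiset.map_cons, Multiset.prod_cons]
      rw [ih, bb, if_neg h, one_mul]

private theorem sq_one {z : ℂ} (h : ‖z‖ = 1) (n : ℕ) :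
    ‖z ^ n - 1‖ * ‖z ^ n - 1‖ = 2 - 2 * (z ^ n).re := by
  have h1 : ‖z ^ n‖ = 1 := by rw [norm_pow, h, one_pow]
  have h2 : ‖z ^ n‖ ^ 2 = 1 := by rw [h1, one_pow]
  rw [Complex.sq_norm, Complex.normSq_apply] at h2
  rw [← pow_two, Complex.sq_norm, Complex.normSq_apply]
  simp only [Complex.sub_re, Complex.one_re, Complex.sub_im, Complex.one_im, sub_zero]
  linarith

open Classical in
theorem main : Pool.Agent.Q9.FD.TaskAsym := by
  intro R hR hroots
  set s := (R.map (Int.castRingHom ℂ)).roots with hs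
  have hconj : s.map (starRingEnd ℂ) = s := by
    have h1 : ((R.map (Int.castRingHom ℂ)).map (starRingEnd ℂ)).roots = s.map (starRingEnd ℂ) :=
      Polynomial.Splits.roots_map (IsAlgClosed.splits _) _
    rw [← h1, Polynomial.map_map]
    have : (starRingEnd ℂ).comp (Int.castRingHom ℂ) = Int.castRingHom ℂ := RingHom.ext_int _ _
    rw [this]
  set u := s.filter (fun z => ‖z‖ = 1) with hu
  have huc : u.map (starRingEnd ℂ) = u := by
    conv_rhs => rw [hu, ← hconj]
    rw [Multiset.filter_map]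
    congr 1
    rw [hu]
    refine Multiset.filter_congr fun z _ => ?_
    simp
  set v := u.filter (fun z => 0 < z.im) with hv
  have hne : ∀ z ∈ u, z.im ≠ 0 := by
    intro z hz h
    rw [hu, Multiset.mem_filter] at hz
    apply hroots z hz.1 2 (by norm_num)
    have h2 : ‖z‖ ^ 2 = 1 := by rw [hz.2, one_pow]
    rw [Complex.sq_norm, Complex.normSq_apply, h] at h2
    apply Complex.ext
    · simp [pow_two, h]
      linarith
    · simp [pow_two, h]
  have hrest : u.filter (fun z => ¬ 0 < z.im) = v.map (starRingEnd ℂ) := by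
    conv_lhs => rw [← huc]
    rw [Multiset.filter_map]
    congr 1
    rw [hv]
    refine Multiset.filter_congr fun z hz => ?_
    have := hne z hz
    simp only [Function.comp_apply, Complex.conj_im, Left.neg_pos_iff, not_lt]
    exact ⟨fun h => lt_of_le_of_ne (by linarith) this.symm, fun h => by linarith⟩
  have hprod : ∀ n : ℕ, (u.map (fun z => ‖z ^ n - 1‖)).prod = (v.map (fun z => 2 - 2 * (z ^ n).re)).prod := by
    intro n
    conv_lhs => rw [← Multiset.filter_add_not (fun z : ℂ => 0 < z.im) u]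
    rw [Multiset.map_add, Multiset.prod_add, hrest, Multiset.map_map, ← hv]
    rw [← Multiset.prod_map_mul]
    congr 1
    refine Multiset.map_congr rfl fun z hz => ?_
    have hz1 : ‖z‖ = 1 := by
      rw [hv, hu, Multiset.mem_filter, Multiset.mem_filter] at hz
      exact hz.1.2
    have : ‖(starRingEnd ℂ) z ^ n - 1‖ = ‖z ^ n - 1‖ := by
      rw [← map_pow, ← Complex.norm_conj (z ^ n - 1)]
      simp
    simp only [Function.comp_apply]
    rw [this, sq_one hz1]
  obtain ⟨κ, C, h0, h1, hC, h⟩ := est s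
  refine ⟨v.toList.length, fun j => v.toList.get j, κ, C, fun j => ?_, h0, h1, fun n hn => ?_⟩
  · have hj : v.toList.get j ∈ v := by
      rw [← Multiset.mem_toList]
      exact List.get_mem _ _
    have hall : ∀ z ∈ v, ‖z‖ = 1 ∧ ∀ n : ℕ, 1 ≤ n → z ^ n ≠ 1 := by
      intro z hz
      rw [hv, hu, Multiset.mem_filter, Multiset.mem_filter] at hz
      exact ⟨hz.1.2, hroots _ hz.1.1⟩
    exact hall _ hj
  · have e : ∏ j : Fin v.toList.length, (2 - 2 * ((v.toList.get j) ^ n).re) =
        (v.map (fun z => 2 - 2 * (z ^ n).re)).prod := by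
      conv_rhs => rw [← Multiset.coe_toList v, Multiset.map_coe, Multiset.prod_coe]
      exact Fin.prod_univ_fun_getElem v.toList (fun z => 2 - 2 * (z ^ n).re)
    rw [e, ← hprod, hu, ← unitp]
    have := (h n hn).1
    rw [← quot] at this
    exact this

end Pool.Agent.Q9.FD.TaskAsym
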