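import Pool.Agent.Q9.FD.Stmts

/-! MP_dde008_nt, blueprint of helper9: `TaskCyc` (by helper232). -/

set_option autoImplicit false

open Polynomial

namespace Pool.Agent.Q9.FD.TaskCyc

/-- a root of unity which is a root of `p` gives a cyclotomic factor -/
theorem cyc_dvd (p : ℤ[X]) (z : ℂ) (hz : (p.map (Int.castRingHom ℂ)).IsRoot z) (n : ℕ) (hn : 1 ≤ n)
    (h : z ^ n = 1) : ∃ d : ℕ, 1 ≤ d ∧ cyclotomic d ℤ ∣ p := by
  have hfin : IsOfFinOrder z := isOfFinOrder_iff_pow_eq_one.mpr ⟨n, hn, h⟩
  have hd : 0 < orderOf z := hfin.orderOf_pos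
  have hprim : IsPrimitiveRoot z (orderOf z) := IsPrimitiveRoot.orderOf z
  refine ⟨orderOf z, hd, ?_⟩
  rw [cyclotomic_eq_minpoly hprim hd]
  refine minpoly.isIntegrallyClosed_dvd (hprim.isIntegral hd) ?_
  rw [aeval_def, ← eval_map]
  exact hz

theorem main : Pool.Agent.Q9.FD.TaskCyc := by
  intro p hp
  induction hN : p.natDegree using Nat.strong_induction_on generalizing p with
  | _ N ih =>
    by_cases hex : ∃ z ∈ (p.map (Int.castRingHom ℂ)).roots, ∃ n : ℕ, 1 ≤ n ∧ z ^ n = 1
    · obtain ⟨z, hz, n, hn, hzn⟩ := hex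
      have hroot : (p.map (Int.castRingHom ℂ)).IsRoot z := (mem_roots'.mp hz).2
      obtain ⟨d, hd, q, hq⟩ := cyc_dvd p z hroot n hn hzn
      have hcm : (cyclotomic d ℤ).Monic := cyclotomic.monic d ℤ
      have hqm : q.Monic := by
        have : (cyclotomic d ℤ * q).Monic := hq ▸ hp
        exact hcm.of_mul_monic_left this
      have hdeg : q.natDegree < N := by
        rw [← hN, hq, hcm.natDegree_mul hqm]
        have : 0 < (cyclotomic d ℤ).natDegree := by
          rw [natDegree_cyclotomic]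
          exact Nat.totient_pos.mpr hd
        omega
      obtain ⟨T, R, hT, hR, hTR, h1, h2⟩ := ih q.natDegree hdeg q hqm rfl
      refine ⟨cyclotomic d ℤ * T, R, hcm.mul hT, hR, by rw [hq, hTR, mul_assoc], ?_, h2⟩
      intro w hw
      rw [Polynomial.map_mul, roots_mul (mul_ne_zero (hcm.map _).ne_zero (hT.map _).ne_zero),
        Multiset.mem_add] at hw
      rcases hw with hw | hw
      · refine ⟨d, hd, ?_⟩
        have h3 : (cyclotomic d ℂ).IsRoot w := by
          have := (mem_roots'.mp hw).2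
          rwa [map_cyclotomic] at this
        have h4 : cyclotomic d ℂ ∣ X ^ d - 1 := cyclotomic.dvd_X_pow_sub_one d ℂ
        have h5 := h3.dvd h4
        simpa [IsRoot, sub_eq_zero] using h5
      · exact h1 w hw
    · refine ⟨1, p, monic_one, hp, (one_mul p).symm, ?_, ?_⟩
      · intro z hz
        simp at hz
      · intro z hz n hn h
        exact hex ⟨z, hz, n, hn, h⟩

end Pool.Agent.Q9.FD.TaskCyc
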