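import Pool.Agent.Q9.FD.Stmts

set_option autoImplicit false

open Filter Topology

namespace Pool.Agent.Q9.FD.TaskDense

open Pool.Agent.Q9.FD

theorem e_add (x y : ℝ) : e (x + y) = e x * e y := by
  unfold e
  rw [← Complex.exp_add]
  congr 1
  push_cast
  ring

theorem e_int (k : ℤ) : e (k : ℝ) = 1 := by
  unfold e
  rw [← Complex.exp_int_mul_two_pi_mul_I k]
  congr 1
  push_cast
  ring

theorem hasMean_shift {a : ℕ → ℂ} {c : ℂ} (h : HasMean a c) (M : ℕ) :
    HasMean (fun n => a (n + M)) c := by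
  unfold HasMean at *
  have h1 : Tendsto (fun N : ℕ => (∑ n ∈ Finset.range (N + M), a (n + 1)) / ((N + M : ℕ) : ℂ))
      atTop (𝓝 c) := h.comp (tendsto_add_atTop_nat M)
  have h0 : Tendsto (fun N : ℕ => (1 : ℂ) / (N : ℂ)) atTop (𝓝 0) :=
    tendsto_one_div_atTop_nhds_zero_nat
  have h2 : Tendsto (fun N : ℕ => (1 : ℂ) + M * (1 / (N : ℂ))) atTop (𝓝 (1 + M * 0)) :=
    tendsto_const_nhds.add (h0.const_mul _)
  have h3 : Tendsto (fun N : ℕ => (∑ n ∈ Finset.range M, a (n + 1)) * (1 / (N : ℂ))) atTop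
      (𝓝 ((∑ n ∈ Finset.range M, a (n + 1)) * 0)) := h0.const_mul _
  have h4 := (h1.mul h2).sub h3
  have e1 : c * (1 + (M : ℂ) * 0) - (∑ n ∈ Finset.range M, a (n + 1)) * 0 = c := by ring
  rw [e1] at h4
  refine h4.congr' ?_
  filter_upwards [eventually_ge_atTop 1] with N hN
  have hN0 : (N : ℂ) ≠ 0 := by
    have : N ≠ 0 := by omega
    exact_mod_cast this
  have hNM : ((N + M : ℕ) : ℂ) ≠ 0 := by
    have : N + M ≠ 0 := by omega
    exact_mod_cast this
  have e2 : ∑ n ∈ Finset.range (N + M), a (n + 1) =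
      ∑ n ∈ Finset.range M, a (n + 1) + ∑ n ∈ Finset.range N, a (n + 1 + M) := by
    rw [add_comm N M, Finset.sum_range_add]
    congr 1
    refine Finset.sum_congr rfl fun n _ => ?_
    congr 1
    omega
  rw [e2]
  push_cast at hNM ⊢
  field_simp
  ring

theorem e_den {x : ℚ} {M : ℕ} (h : x.den ∣ M) : e ((M : ℝ) * x) = 1 := by
  obtain ⟨k, hk⟩ := h
  have h1 : (M : ℝ) * x = ((k * x.num : ℤ) : ℝ) := by
    have h2 : (x : ℝ) = (x.num : ℝ) / (x.den : ℝ) := by
      rw [Rat.cast_def]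
    have h3 : (x.den : ℝ) ≠ 0 := by exact_mod_cast x.den_nz
    rw [h2, hk]
    push_cast
    field_simp
  rw [h1, e_int]

theorem freq (hM : TaskMeanEx) (hZ : TaskZero) {m : ℕ} {G : ℕ → ℝ} (hG : ApproxBy m G)
    {M : ℕ} (hper : ¬ ∀ n, 1 ≤ n → G (n + M) = G n) :
    ∃ (x : ℚ) (c : ℂ), c ≠ 0 ∧ HasMean (fun n => (G n : ℂ) * e (-(n * x))) c ∧
      ¬ x.den ∣ M := by
  by_contra hcon
  push Not at hcon
  apply hper
  have hφ : ApproxBy m (fun n => G (n + M) - G n) := by
    refine ⟨hG.1, fun ε hε => ?_⟩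
    obtain ⟨K, hK1, hK2, h, hh1, hh2⟩ := hG.2 (ε / 2) (by positivity)
    refine ⟨K, hK1, hK2, fun n => h (n + M) - h n, fun n => ?_, fun n hn => ?_⟩
    · show h (n + K + M) - h (n + K) = h (n + M) - h n
      rw [show n + K + M = n + M + K by omega, hh1, hh1]
    · have h1 := hh2 (n + M) (by omega)
      have h2 := hh2 n hn
      rw [abs_le] at *
      constructor <;> linarith [h1.1, h1.2, h2.1, h2.2]
  have hz := hZ m _ hφ (fun x => ?_)
  · intro n hn
    have := hz n hn
    linarith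
  · obtain ⟨c, hc⟩ := (hM m G hG).1 x
    have h1 := hasMean_shift hc M
    have h2 : HasMean (fun n => (((G (n + M) - G n : ℝ)) : ℂ) * e (-(n * x)))
        (e ((M : ℝ) * x) * c - c) := by
      have h3 : Tendsto _ _ _ := (Filter.Tendsto.const_mul (e ((M : ℝ) * x)) h1).sub hc
      refine h3.congr fun N => ?_
      rw [← mul_div_assoc, ← sub_div, Finset.mul_sum, ← Finset.sum_sub_distrib]
      congr 1
      refine Finset.sum_congr rfl fun n _ => ?_
      have h5 : e (-(((n + 1 : ℕ) : ℝ) * x)) =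
          e ((M : ℝ) * x) * e (-(((n + 1 + M : ℕ) : ℝ) * x)) := by
        rw [← e_add]
        congr 1
        push_cast
        ring
      beta_reduce
      rw [h5]
      push_cast
      ring
    have h4 : e ((M : ℝ) * x) * c - c = 0 := by
      by_cases hc0 : c = 0
      · rw [hc0]; ring
      · rw [e_den (hcon x c hc0 hc)]; ring
    rw [h4] at h2
    exact h2

theorem dens (hM : TaskMeanEx) (hI : TaskInv) (hZ : TaskZero) {m : ℕ} {G : ℕ → ℝ}
    (hG : ApproxBy m G) (hU : UnitInv m G)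
    (hper : ¬ ∃ M : ℕ, 1 ≤ M ∧ ∀ n, 1 ≤ n → G (n + M) = G n) (a b : ℝ) (hab : a < b) :
    ∃ y : ℚ, a < y ∧ (y : ℝ) < b ∧ ∃ c : ℂ, c ≠ 0 ∧
      HasMean (fun n => (G n : ℂ) * e (-(n * y))) c := by
  have hm : 1 ≤ m := hG.1
  obtain ⟨Q, hQ⟩ := exists_nat_gt ((m : ℝ) / (b - a))
  have hba : 0 < b - a := sub_pos.2 hab
  push Not at hper
  obtain ⟨n0, hn0, hne⟩ := hper Q.factorial (Nat.one_le_iff_ne_zero.2 (Nat.factorial_ne_zero Q))
  obtain ⟨x, c, hc0, hc, hden⟩ := freq hM hZ hG (M := Q.factorial)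
    (fun h => hne (h n0 hn0))
  have hq : Q < x.den := by
    by_contra hlt
    exact hden (Nat.dvd_factorial x.den_pos (not_lt.1 hlt))
  have hprime : ∀ p : ℕ, p.Prime → p ∣ x.den → p ∣ m := by
    intro p hp hpd
    by_contra hpm
    have := (hM m G hG).2.2 x ⟨p, hp, hpd, hpm⟩
    exact hc0 (tendsto_nhds_unique hc this)
  have hqR : (0 : ℝ) < x.den := by exact_mod_cast x.den_pos
  have hmR : (0 : ℝ) < m := by exact_mod_cast hm
  have hmq : (m : ℝ) < (b - a) * x.den := by
    have h1 : (m : ℝ) / (b - a) < x.den := hQ.trans (by exact_mod_cast hq)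
    rw [div_lt_iff₀ hba] at h1
    linarith
  set i : ℤ := ⌊(a * x.den - x.num) / m⌋ + 1 with hi
  have hi1 : (a * x.den - x.num) / m < i := by
    rw [hi]; push_cast; exact Int.lt_floor_add_one _
  have hi2 : (i : ℝ) ≤ (a * x.den - x.num) / m + 1 := by
    rw [hi]; push_cast
    have := Int.floor_le ((a * x.den - x.num) / (m : ℝ))
    linarith
  rw [div_lt_iff₀ hmR] at hi1
  have hi3 : (i : ℝ) * m ≤ a * x.den - x.num + m := by
    have := mul_le_mul_of_nonneg_right hi2 hmR.le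
    rw [add_mul, div_mul_cancel₀ _ hmR.ne', one_mul] at this
    exact this
  -- the inverse of the numerator
  have hcop : IsCoprime x.num (x.den : ℤ) := by
    rw [Int.isCoprime_iff_gcd_eq_one]
    exact x.reduced
  obtain ⟨α, β, hαβ⟩ := hcop
  set j0 : ℤ := i * α with hj0
  have hj1 : (0 : ℤ) ≤ j0 + x.den * |j0| := by
    have h1 : (1 : ℤ) ≤ x.den := by exact_mod_cast x.den_pos
    have h2 : |j0| ≤ x.den * |j0| := by nlinarith [abs_nonneg j0]
    have h3 := neg_abs_le j0
    linarith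
  obtain ⟨j, hj⟩ := Int.eq_ofNat_of_zero_le hj1
  have hjs : ∃ t : ℤ, (j : ℤ) * x.num - i = t * x.den := by
    refine ⟨-i * β + |j0| * x.num, ?_⟩
    rw [← hj, hj0]
    have : i * α * x.num = i - i * β * x.den := by
      have h5 : i * (α * x.num + β * x.den) = i := by rw [hαβ, mul_one]
      linarith
    linear_combination this
  obtain ⟨t, ht⟩ := hjs
  have hcopu : (1 + m * j).Coprime m := by
    simp [Nat.Coprime]
  have hfr := hI m G hG hU x (1 + m * j) c hprime (by omega) hcopu hc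
  refine ⟨((x.num + m * i : ℤ) : ℚ) / (x.den : ℚ), ?_, ?_, c, hc0, ?_⟩
  · push_cast
    rw [lt_div_iff₀ hqR]
    linarith
  · push_cast
    rw [div_lt_iff₀ hqR]
    nlinarith
  · have hkey : ∀ n : ℕ, e (-(n * (((1 + m * j : ℕ) : ℝ) * (x : ℝ)))) =
        e (-(n * ((((x.num + m * i : ℤ) : ℚ) / (x.den : ℚ) : ℚ) : ℝ))) := by
      intro n
      have hx : (x : ℝ) = (x.num : ℝ) / (x.den : ℝ) := by rw [Rat.cast_def]
      have htR : (j : ℝ) * x.num - i = t * x.den := by exact_mod_cast ht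
      have h6 : -((n : ℝ) * (((1 + m * j : ℕ) : ℝ) * (x : ℝ))) =
          -((n : ℝ) * ((((x.num + m * i : ℤ) : ℚ) / (x.den : ℚ) : ℚ) : ℝ)) +
            ((-(n * (m * t)) : ℤ) : ℝ) := by
        rw [hx]
        push_cast
        have h7 : (j : ℝ) * x.num = i + t * x.den := by linarith
        field_simp
        linear_combination (-(n : ℝ) * m) * h7
      rw [h6, e_add, e_int, mul_one]
    simp only [hkey] at hfr
    exact hfr

theorem main : Pool.Agent.Q9.FD.TaskDense := by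
  intro hM hI hZ m G hG hU
  by_cases hper : ∃ M : ℕ, 1 ≤ M ∧ ∀ n, 1 ≤ n → G (n + M) = G n
  · exact Or.inl hper
  · refine Or.inr fun a b hab => ?_
    have hba : 0 < b - a := sub_pos.2 hab
    have hstep : ∀ k : ℕ, a + (b - a) / ((k : ℝ) + 2) < a + (b - a) / ((k : ℝ) + 1) := by
      intro k
      have : (b - a) / ((k : ℝ) + 2) < (b - a) / ((k : ℝ) + 1) :=
        div_lt_div_of_pos_left hba (by positivity) (by linarith)
      linarith
    choose y hy1 hy2 hy3 using fun k : ℕ =>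
      dens hM hI hZ hG hU hper (a + (b - a) / ((k : ℝ) + 2)) (a + (b - a) / ((k : ℝ) + 1))
        (hstep k)
    have hanti : StrictAnti y := by
      refine strictAnti_nat_of_succ_lt fun k => ?_
      have h1 := hy2 (k + 1)
      have h2 := hy1 k
      have h3 : (((k + 1 : ℕ) : ℝ) + 1) = (k : ℝ) + 2 := by push_cast; ring
      rw [h3] at h1
      exact_mod_cast h1.trans h2
    refine Set.infinite_of_injective_forall_mem hanti.injective fun k => ⟨?_, ?_, hy3 k⟩
    · have : 0 < (b - a) / ((k : ℝ) + 2) := by positivity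
      linarith [hy1 k]
    · have : (b - a) / ((k : ℝ) + 1) ≤ b - a := by
        rw [div_le_iff₀ (by positivity)]
        nlinarith [(Nat.cast_nonneg k : (0 : ℝ) ≤ k)]
      linarith [hy2 k]

end Pool.Agent.Q9.FD.TaskDense
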