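import Pool.Agent.Q9.FD.Stmts

/-!
# FAD-systems: assembly of the structure of `|det (A ^ n - 1)|` (MP_dde008_nt)
-/

set_option autoImplicit false

open Filter Topology Polynomial

namespace Pool.Agent.Q9.FD.TaskDetAsm

lemma prodP_mul {T R : Polynomial ℤ} (hT : T.Monic) (hR : R.Monic) (n : ℕ) :
    prodP (T * R) n = prodP T n * prodP R n := by
  unfold prodP
  have h : (T * R).map (Int.castRingHom ℂ) ≠ 0 := ((hT.mul hR).map _).ne_zero
  rw [Polynomial.map_mul] at h ⊢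
  rw [Polynomial.roots_mul h, Multiset.map_add, Multiset.prod_add]

lemma norm_eq {z : ℂ} {a : ℤ} (h : z = a) : ‖z‖ = ((a.natAbs : ℕ) : ℝ) := by
  rw [h, Complex.norm_intCast, Nat.cast_natAbs, Int.cast_abs]

lemma floor_norm {z : ℂ} {a : ℤ} (h : z = a) : ⌊‖z‖⌋₊ = a.natAbs := by
  rw [norm_eq h, Nat.floor_natCast]

lemma one_le_prod (s : Multiset ℂ) : (1 : ℝ) ≤ (s.map (fun z => max 1 ‖z‖)).prod := by
  induction s using Multiset.induction_on with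
  | empty => simp
  | cons a s ih =>
    rw [Multiset.map_cons, Multiset.prod_cons]
    have h1 : (1 : ℝ) ≤ max 1 ‖a‖ := le_max_left _ _
    nlinarith

theorem main : Pool.Agent.Q9.FD.TaskDetAsm := by
  intro hDet hCyc hInt hTor hExp hSign hAsym k A hne
  obtain ⟨T, R, hT, hR, hTR, hTr, hRr⟩ := hCyc A.charpoly A.charpoly_monic
  have hprod : ∀ n : ℕ, 1 ≤ n → (((A ^ n - 1).det : ℤ) : ℂ) = prodP T n * prodP R n := by
    intro n hn
    rw [hDet k A n hn, hTR, prodP_mul hT hR]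
  have hTi := hInt hDet T hT
  have hRi := hInt hDet R hR
  obtain ⟨m0, hm0, hper, hinv⟩ := hTor T hT hTr
  obtain ⟨K, a, ν, hexp, hν⟩ := hExp R hR
  obtain ⟨s, b, hsign⟩ := hSign R hR hRr
  obtain ⟨r, lam, κ, C, hlam, hκ0, hκ1, has⟩ := hAsym R hR hRr
  have hDn : ∀ n : ℕ, 1 ≤ n → ((⌊‖prodP R n‖⌋₊ : ℕ) : ℝ) = ‖prodP R n‖ := by
    intro n hn
    obtain ⟨c, hc⟩ := hRi n hn
    rw [floor_norm hc, norm_eq hc]
  have hRne : ∀ n : ℕ, 1 ≤ n → prodP R n ≠ 0 := by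
    intro n hn
    unfold prodP
    refine Multiset.prod_ne_zero ?_
    intro h0
    obtain ⟨z, hz, hz0⟩ := Multiset.mem_map.1 h0
    exact hRr z hz n hn (sub_eq_zero.1 hz0)
  have hb1 : |b| = 1 := (hsign 1 le_rfl).2.1
  have hb2 : ‖(b : ℂ)‖ = 1 := by
    rw [Complex.norm_intCast, ← Int.cast_abs, hb1, Int.cast_one]
  refine ⟨m0, fun n => ⌊‖prodP T n‖⌋₊, fun n => ⌊‖prodP R n‖⌋₊, K, fun i => s * a i,
    fun i => b * ν i, mah R, r, lam, κ, C, hm0, ?_, ?_, ?_, ?_, ?_, ?_, ?_, ?_, hlam, hκ0, hκ1, ?_⟩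
  · intro n _
    show ⌊‖prodP T (n + m0)‖⌋₊ = ⌊‖prodP T n‖⌋₊
    rw [hper n]
  · intro u n hu hn hc
    show ⌊‖prodP T (u * n)‖⌋₊ = ⌊‖prodP T n‖⌋₊
    rw [hinv u n hu hn hc]
  · show ⌊‖prodP T 1‖⌋₊ ≠ 0
    obtain ⟨c, hc⟩ := hTi 1 le_rfl
    rw [floor_norm hc]
    intro h0
    have hc0 : c = 0 := Int.natAbs_eq_zero.1 h0
    have h1 := hprod 1 le_rfl
    rw [hc, hc0, pow_one, Int.cast_zero, zero_mul] at h1
    exact hne (by exact_mod_cast h1)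
  · intro n hn
    obtain ⟨c, hc⟩ := hTi n hn
    obtain ⟨d, hd⟩ := hRi n hn
    have h1 := hprod n hn
    rw [hc, hd] at h1
    have h2 : (A ^ n - 1).det = c * d := by exact_mod_cast h1
    show |(A ^ n - 1).det| = ((⌊‖prodP T n‖⌋₊ * ⌊‖prodP R n‖⌋₊ : ℕ) : ℤ)
    rw [floor_norm hc, floor_norm hd, h2, abs_mul, Nat.cast_mul, Int.natCast_natAbs,
      Int.natCast_natAbs]
  · intro n hn
    show ⌊‖prodP R n‖⌋₊ ≠ 0
    intro h0
    have h1 := hDn n hn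
    rw [h0, Nat.cast_zero] at h1
    exact hRne n hn (norm_eq_zero.1 h1.symm)
  · intro n hn
    show ((⌊‖prodP R n‖⌋₊ : ℕ) : ℂ) = ∑ i, ((s * a i : ℤ) : ℂ) * (b * ν i) ^ n
    have h1 : ((⌊‖prodP R n‖⌋₊ : ℕ) : ℂ) = ((‖prodP R n‖ : ℝ) : ℂ) := by
      have h2 := congrArg (fun x : ℝ => (x : ℂ)) (hDn n hn)
      simpa using h2
    rw [h1, (hsign n hn).1, hexp n, Finset.mul_sum]
    refine Finset.sum_congr rfl fun i _ => ?_
    push_cast
    rw [mul_pow]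
    ring
  · exact one_le_prod _
  · intro i
    show ‖(b : ℂ) * ν i‖ ≤ mah R
    rw [norm_mul, hb2, one_mul]
    exact hν i
  · intro n hn
    show |((⌊‖prodP R n‖⌋₊ : ℕ) : ℝ) / mah R ^ n - ∏ j, (2 - 2 * (lam j ^ n).re)| ≤ C * κ ^ n
    rw [hDn n hn]
    exact has n hn

end Pool.Agent.Q9.FD.TaskDetAsm
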