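import Pool.Agent.Q9.FD.Stmts

set_option autoImplicit false

open Polynomial

namespace Pool.Agent.Q9.FD.TaskDetCong

/-- the congruence -/
private theorem cong (k : ℕ) (A : Matrix (Fin k) (Fin k) ℤ) (p : ℕ) (hp : p.Prime) :
    (p : ℤ) ∣ (A ^ p - 1).det - (A - 1).det := by
  rcases Nat.eq_zero_or_pos k with rfl | hk
  · simp [Matrix.det_fin_zero]
  have : Nonempty (Fin k) := ⟨⟨0, hk⟩⟩
  have : Fact p.Prime := ⟨hp⟩
  rw [← ZMod.intCast_zmod_eq_zero_iff_dvd]
  rw [Int.cast_sub]
  have key : ∀ M : Matrix (Fin k) (Fin k) ℤ, ((M.det : ℤ) : ZMod p) = (M.map (Int.castRingHom (ZMod p))).det := by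
    intro M
    have := RingHom.map_det (Int.castRingHom (ZMod p)) M
    simpa using this
  set B : Matrix (Fin k) (Fin k) (ZMod p) := A.map (Int.castRingHom (ZMod p)) with hB
  have e1 : (A ^ p - 1).map (Int.castRingHom (ZMod p)) = (B - 1) ^ p := by
    rw [sub_pow_char_of_commute p (Commute.one_right B), one_pow]
    change (Int.castRingHom (ZMod p)).mapMatrix (A ^ p - 1) = _
    rw [map_sub, map_pow, map_one]
    rfl
  have e2 : (A - 1).map (Int.castRingHom (ZMod p)) = B - 1 := by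
    change (Int.castRingHom (ZMod p)).mapMatrix (A - 1) = _
    rw [map_sub, map_one]
    rfl
  have k1 := key (A ^ p - 1)
  have k2 := key (A - 1)
  rw [e1, Matrix.det_pow, ZMod.pow_card] at k1
  rw [e2] at k2
  rw [k1, k2, sub_self]

/-- the product over the roots of unity -/
private theorem roots {p : ℕ} (hp : 0 < p) {ζ : ℂ} (h : IsPrimitiveRoot ζ p) :
    (X ^ p - 1 : ℂ[X]) = ∏ i ∈ Finset.range p, (X - C (ζ ^ i)) := by
  rw [X_pow_sub_one_eq_prod hp h]
  have : nthRootsFinset p (1 : ℂ) = (Finset.range p).image (fun i => ζ ^ i) := by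
    symm
    apply Finset.eq_of_subset_of_card_le
    · intro z hz
      obtain ⟨i, -, rfl⟩ := Finset.mem_image.1 hz
      rw [mem_nthRootsFinset hp, ← pow_mul, mul_comm, pow_mul, h.pow_eq_one, one_pow]
    · rw [h.card_nthRootsFinset, Finset.card_image_of_injOn, Finset.card_range]
      intro a ha b hb hab
      exact h.pow_inj (Finset.mem_range.1 ha) (Finset.mem_range.1 hb) hab
  rw [this, Finset.prod_image]
  intro a ha b hb hab
  exact h.pow_inj (Finset.mem_range.1 ha) (Finset.mem_range.1 hb) hab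

/-- `f ↦ det (f(A))` -/
private noncomputable def dt {k : ℕ} (A : Matrix (Fin k) (Fin k) ℂ) : ℂ[X] →* ℂ where
  toFun f := (aeval A f).det
  map_one' := by simp
  map_mul' f g := by rw [map_mul, Matrix.det_mul]

private theorem dt_apply {k : ℕ} (A : Matrix (Fin k) (Fin k) ℂ) (f : ℂ[X]) : dt A f = (aeval A f).det := rfl

private theorem sign (k : ℕ) (A : Matrix (Fin k) (Fin k) ℤ) (p : ℕ) (hp : p.Prime) (h2 : p ≠ 2) :
    ∃ r : ℝ, 0 ≤ r ∧ (((A ^ p - 1).det : ℤ) : ℝ) = (((A - 1).det : ℤ) : ℝ) * r := by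
  obtain ⟨m, hm⟩ := hp.odd_of_ne_two h2
  set ζ : ℂ := Complex.exp (2 * Real.pi * Complex.I / p) with hζ
  have hprim : IsPrimitiveRoot ζ p := Complex.isPrimitiveRoot_exp p hp.ne_zero
  set B : Matrix (Fin k) (Fin k) ℂ := A.map (Int.castRingHom ℂ) with hB
  have hdet : ∀ z : ℂ, dt B (X - C z) = (B - z • 1).det := by
    intro z
    rw [dt_apply]
    simp [Algebra.algebraMap_eq_smul_one]
  have hdp : dt B (X ^ p - 1) = (B ^ p - 1).det := by
    rw [dt_apply]
    simp
  have hconj : ∀ z : ℂ, (B - (starRingEnd ℂ z) • 1).det = starRingEnd ℂ (B - z • 1).det := by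
    intro z
    rw [RingHom.map_det]
    congr 1
    ext i j
    simp [hB, Matrix.one_apply, Matrix.smul_apply, Matrix.sub_apply]
    split_ifs <;> simp
  have hprod : (B ^ p - 1).det = (B - 1).det *
      ∏ i ∈ Finset.range m, ((B - (ζ ^ (i + 1)) • 1).det * starRingEnd ℂ (B - (ζ ^ (i + 1)) • 1).det) := by
    rw [← hdp, roots hp.pos hprim, map_prod]
    simp_rw [hdet]
    have e1 : p = (2 * m) + 1 := hm
    rw [e1, Finset.prod_range_succ', pow_zero, one_smul, mul_comm]
    congr 1
    rw [two_mul, Finset.prod_range_add, Finset.prod_mul_distrib]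
    congr 1
    rw [← Finset.prod_range_reflect]
    refine Finset.prod_congr rfl fun i hi => ?_
    rw [← hconj]
    have hi' := Finset.mem_range.1 hi
    have : ζ ^ (m + (m - 1 - i) + 1) = starRingEnd ℂ (ζ ^ (i + 1)) := by
      have h1 : ζ ^ (m + (m - 1 - i) + 1) * ζ ^ (i + 1) = 1 := by
        rw [← pow_add]
        have : m + (m - 1 - i) + 1 + (i + 1) = p := by omega
        rw [this]; exact hprim.pow_eq_one
      have h3 : ‖ζ ^ (i + 1)‖ = 1 := by
        rw [norm_pow, hprim.norm'_eq_one hp.ne_zero, one_pow]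
      have h4 : starRingEnd ℂ (ζ ^ (i + 1)) * ζ ^ (i + 1) = 1 := by
        rw [mul_comm, Complex.mul_conj, Complex.normSq_eq_norm_sq, h3]; simp
      have hne : ζ ^ (i + 1) ≠ 0 := by
        intro h0; rw [h0] at h3; simp at h3
      exact mul_right_cancel₀ hne (h1.trans h4.symm)
    rw [this]
  refine ⟨∏ i ∈ Finset.range m, Complex.normSq (B - (ζ ^ (i + 1)) • 1).det,
    Finset.prod_nonneg fun i _ => Complex.normSq_nonneg _, ?_⟩
  have hc1 : (((A ^ p - 1).det : ℤ) : ℂ) = (B ^ p - 1).det := by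
    have := RingHom.map_det (Int.castRingHom ℂ) (A ^ p - 1)
    simp only [eq_intCast] at this
    rw [this]
    congr 1
    rw [map_sub, map_pow, map_one]
    rfl
  have hc2 : (((A - 1).det : ℤ) : ℂ) = (B - 1).det := by
    have := RingHom.map_det (Int.castRingHom ℂ) (A - 1)
    simp only [eq_intCast] at this
    rw [this]
    congr 1
    rw [map_sub, map_one]
    rfl
  have : ((((A ^ p - 1).det : ℤ) : ℝ) : ℂ) = (((((A - 1).det : ℤ) : ℝ) *
      ∏ i ∈ Finset.range m, Complex.normSq (B - (ζ ^ (i + 1)) • 1).det : ℝ) : ℂ) := by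
    rw [Complex.ofReal_intCast, hc1, Complex.ofReal_mul, Complex.ofReal_intCast, hc2, Complex.ofReal_prod, hprod]
    congr 1
    refine Finset.prod_congr rfl fun i _ => ?_
    rw [Complex.mul_conj]
  exact_mod_cast this

theorem main : Pool.Agent.Q9.FD.TaskDetCong := by
  intro k A p hp h2
  obtain ⟨r, hr, h⟩ := sign k A p hp h2
  have hc := cong k A p hp
  rcases le_or_gt 0 (A - 1).det with ha | ha
  · have hb : 0 ≤ (A ^ p - 1).det := by
      have : (0 : ℝ) ≤ (((A ^ p - 1).det : ℤ) : ℝ) := by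
        rw [h]; exact mul_nonneg (by exact_mod_cast ha) hr
      exact_mod_cast this
    rw [abs_of_nonneg ha, abs_of_nonneg hb]; exact hc
  · have hb : (A ^ p - 1).det ≤ 0 := by
      have : (((A ^ p - 1).det : ℤ) : ℝ) ≤ 0 := by
        rw [h]; exact mul_nonpos_of_nonpos_of_nonneg (by exact_mod_cast ha.le) hr
      exact_mod_cast this
    rw [abs_of_neg ha, abs_of_nonpos hb]
    have : -(A ^ p - 1).det - -(A - 1).det = -((A ^ p - 1).det - (A - 1).det) := by ring
    rw [this]; exact (dvd_neg).2 hc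

end Pool.Agent.Q9.FD.TaskDetCong
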