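import Pool.Agent.Q9.FD.Stmts

set_option autoImplicit false

open Polynomial

namespace Pool.Agent.Q9.FD.TaskDetProd

theorem det_sub_scalar {k : ℕ} (B : Matrix (Fin k) (Fin k) ℂ) (t : ℂ) :
    (B - Matrix.scalar (Fin k) t).det = (B.charpoly.roots.map fun z => z - t).prod := by
  have h1 : (Matrix.scalar (Fin k) t - B).det = (B.charpoly.roots.map fun z => t - z).prod := by
    rw [← Matrix.eval_charpoly]
    exact (IsAlgClosed.splits B.charpoly).eval_eq_prod_roots_of_monic (Matrix.charpoly_monic B) t
  have h2 : B - Matrix.scalar (Fin k) t = -(Matrix.scalar (Fin k) t - B) := by abel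
  have hcard : Multiset.card B.charpoly.roots = k := by
    rw [← (IsAlgClosed.splits B.charpoly).natDegree_eq_card_roots, Matrix.charpoly_natDegree_eq_dim,
      Fintype.card_fin]
  rw [h2, Matrix.det_neg, h1, Fintype.card_fin]
  have h3 : (B.charpoly.roots.map fun z => z - t) = (B.charpoly.roots.map fun z => t - z).map
      (fun x => -x) := by
    rw [Multiset.map_map]
    exact Multiset.map_congr rfl fun z _ => by simp
  rw [h3, Multiset.prod_map_neg, Multiset.card_map, hcard]

theorem det_prod {k : ℕ} (B : Matrix (Fin k) (Fin k) ℂ) (s : Multiset ℂ) :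
    (aeval B (s.map fun t => X - C t).prod).det =
      (B.charpoly.roots.map fun z => ((s.map fun t => X - C t).prod).eval z).prod := by
  induction s using Multiset.induction_on with
  | empty => simp
  | cons t s ih =>
    rw [Multiset.map_cons, Multiset.prod_cons, map_mul, Matrix.det_mul, ih]
    have h1 : aeval B (X - C t) = B - Matrix.scalar (Fin k) t := by
      rw [map_sub, aeval_X, aeval_C]
      rfl
    rw [h1, det_sub_scalar, ← Multiset.prod_map_mul]
    congr 1
    exact Multiset.map_congr rfl fun z _ => by simp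

theorem main : Pool.Agent.Q9.FD.TaskDetProd := by
  intro k A n hn
  set B : Matrix (Fin k) (Fin k) ℂ := (Int.castRingHom ℂ).mapMatrix A with hB
  have hq : (X ^ n - 1 : ℂ[X]).Monic := by
    have := monic_X_pow_sub_C (1 : ℂ) (by omega : n ≠ 0)
    simpa using this
  have hsplit := (IsAlgClosed.splits (X ^ n - 1 : ℂ[X])).eq_prod_roots_of_monic hq
  have h1 := det_prod B (X ^ n - 1 : ℂ[X]).roots
  rw [← hsplit] at h1
  have h2 : (((A ^ n - 1).det : ℤ) : ℂ) = (aeval B (X ^ n - 1 : ℂ[X])).det := by
    have : aeval B (X ^ n - 1 : ℂ[X]) = (Int.castRingHom ℂ).mapMatrix (A ^ n - 1) := by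
      rw [map_sub, map_pow, aeval_X, map_one, hB, map_sub, map_pow, map_one]
    rw [this, ← RingHom.map_det]
    rfl
  rw [h2, h1]
  unfold prodP
  have h3 : A.charpoly.map (Int.castRingHom ℂ) = B.charpoly := (Matrix.charpoly_map A _).symm
  rw [h3]
  congr 1
  exact Multiset.map_congr rfl fun z _ => by simp

end Pool.Agent.Q9.FD.TaskDetProd
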