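import Pool.Agent.Q9.FD.Stmts

set_option autoImplicit false

open Polynomial

namespace Pool.Agent.Q9.FD.TaskExp

/-- expansion over a multiset -/
theorem aux (s : Multiset ℂ) : ∃ (K : ℕ) (a : Fin K → ℤ) (ν : Fin K → ℂ),
    (∀ n : ℕ, (s.map (fun z => z ^ n - 1)).prod = ∑ k, (a k : ℂ) * ν k ^ n) ∧
    ∀ k, ‖ν k‖ ≤ (s.map (fun z => max 1 ‖z‖)).prod := by
  induction s using Multiset.induction_on with
  | empty =>
    refine ⟨1, fun _ => 1, fun _ => 1, fun n => by simp, fun k => by simp⟩
  | cons z s ih =>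
    obtain ⟨K, a, ν, h1, h2⟩ := ih
    have hpos : 0 ≤ (s.map (fun z => max 1 ‖z‖)).prod := by
      apply Multiset.prod_nonneg
      intro x hx
      rw [Multiset.mem_map] at hx
      obtain ⟨y, -, rfl⟩ := hx
      positivity
    refine ⟨K + K, Fin.append a (fun k => -a k), Fin.append (fun k => z * ν k) ν, fun n => ?_, fun k => ?_⟩
    · rw [Multiset.map_cons, Multiset.prod_cons, h1, Fin.sum_univ_add]
      simp only [Fin.append_left, Fin.append_right, mul_pow, Int.cast_neg, neg_mul,
        Finset.sum_neg_distrib]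
      rw [sub_mul, one_mul, Finset.mul_sum, sub_eq_add_neg]
      congr 1
      exact Finset.sum_congr rfl fun k _ => by ring
    · rw [Multiset.map_cons, Multiset.prod_cons]
      refine Fin.addCases (fun k => ?_) (fun k => ?_) k
      · rw [Fin.append_left, norm_mul]
        exact mul_le_mul (le_max_right _ _) (h2 k) (norm_nonneg _) (by positivity)
      · rw [Fin.append_right]
        calc ‖ν k‖ ≤ _ := h2 k
          _ ≤ _ := le_mul_of_one_le_left hpos (le_max_left _ _)

theorem main : Pool.Agent.Q9.FD.TaskExp := fun R _ =>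
  aux (R.map (Int.castRingHom ℂ)).roots

end Pool.Agent.Q9.FD.TaskExp
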