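import Pool.Agent.Q9.FD.Stmts

/-! MP_dde008_nt, blueprint of helper9: `TaskFreq` (by helper232). -/

set_option autoImplicit false

open Filter Topology

namespace Pool.Agent.Q9.FD.TaskFreq

theorem main : Pool.Agent.Q9.FD.TaskFreq := by
  intro a c hc hm
  have hc' : 0 < ‖c‖ := norm_pos_iff.mpr hc
  refine ⟨‖c‖ / 4, by positivity, ?_⟩
  by_contra hnot
  rw [Filter.not_frequently] at hnot
  obtain ⟨N₀, hN₀⟩ := eventually_atTop.mp hnot
  -- norms of the means tend to `‖c‖`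
  have h1 : Tendsto (fun N : ℕ => ‖(∑ n ∈ Finset.range N, a (n + 1)) / (N : ℂ)‖) atTop (𝓝 ‖c‖) :=
    hm.norm
  have h2 : ∀ᶠ N : ℕ in atTop, ‖c‖ / 2 < ‖(∑ n ∈ Finset.range N, a (n + 1)) / (N : ℂ)‖ :=
    h1.eventually_const_lt (by linarith)
  set C : ℝ := ∑ n ∈ Finset.range N₀, ‖a (n + 1)‖ with hC
  have hC0 : 0 ≤ C := Finset.sum_nonneg fun _ _ => norm_nonneg _
  have h3 : ∀ N : ℕ, N₀ ≤ N → ‖∑ n ∈ Finset.range N, a (n + 1)‖ ≤ C + N * (‖c‖ / 4) := by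
    intro N hN
    refine (norm_sum_le _ _).trans ?_
    have h4 : ∑ n ∈ Finset.range N, ‖a (n + 1)‖ =
        C + ∑ n ∈ Finset.Ico N₀ N, ‖a (n + 1)‖ := by
      rw [hC, Finset.sum_range_add_sum_Ico _ hN]
    rw [h4]
    have h5 : ∑ n ∈ Finset.Ico N₀ N, ‖a (n + 1)‖ ≤ ∑ n ∈ Finset.Ico N₀ N, ‖c‖ / 4 := by
      refine Finset.sum_le_sum fun n hn => ?_
      have := hN₀ (n + 1) (by have := (Finset.mem_Ico.mp hn).1; omega)
      exact le_of_lt (not_le.mp this)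
    have h6 : ∑ n ∈ Finset.Ico N₀ N, ‖c‖ / 4 = ((N - N₀ : ℕ) : ℝ) * (‖c‖ / 4) := by
      rw [Finset.sum_const, Nat.card_Ico, nsmul_eq_mul]
    have h7 : ((N - N₀ : ℕ) : ℝ) ≤ N := by exact_mod_cast Nat.sub_le _ _
    have h8 : ((N - N₀ : ℕ) : ℝ) * (‖c‖ / 4) ≤ N * (‖c‖ / 4) :=
      mul_le_mul_of_nonneg_right h7 (by positivity)
    linarith
  obtain ⟨N₁, hN₁⟩ := exists_nat_gt (C / (‖c‖ / 4))
  obtain ⟨N, hN, hN'⟩ := ((eventually_ge_atTop (max N₀ (max N₁ 1))).and h2).exists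
  have hNN₀ : N₀ ≤ N := (le_max_left _ _).trans hN
  have hNN₁ : N₁ ≤ N := ((le_max_left _ _).trans (le_max_right _ _)).trans hN
  have hN1 : 1 ≤ N := ((le_max_right _ _).trans (le_max_right _ _)).trans hN
  have hNpos : (0 : ℝ) < N := by exact_mod_cast hN1
  rw [norm_div, Complex.norm_natCast, lt_div_iff₀ hNpos] at hN'
  have h9 := h3 N hNN₀
  have h10 : C < N * (‖c‖ / 4) := by
    have : C / (‖c‖ / 4) < N := hN₁.trans_le (by exact_mod_cast hNN₁)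
    rwa [div_lt_iff₀ (by positivity)] at this
  nlinarith

end Pool.Agent.Q9.FD.TaskFreq
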