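import Pool.Agent.Q9.FD.Stmts

set_option autoImplicit false

namespace Pool.Agent.Q9.FD.TaskGauss

open Function

universe u

theorem main : Pool.Agent.Q9.FD.TaskGauss.{u} := by
  intro X f p hp hfin
  classical
  have : Fact p.Prime := ⟨hp⟩
  set A : Set X := {x : X | f^[p] x = x} with hA
  have : Fintype A := hfin.fintype
  have hmap : ∀ x ∈ A, f x ∈ A := by
    intro x hx
    change f^[p] (f x) = f x
    rw [← iterate_succ_apply, iterate_succ_apply', show f^[p] x = x from hx]
  let g : Function.End A := fun x => ⟨f x, hmap x x.2⟩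
  have hg : ∀ (n : ℕ) (x : A), ((g ^ n) x : X) = f^[n] x := by
    intro n
    induction n with
    | zero => intro x; rfl
    | succ n ih =>
      intro x
      rw [pow_succ]
      change ((g ^ n) (g x) : X) = _
      rw [ih]
      rfl
  have h1 : g ^ p ^ 1 = 1 := by
    rw [pow_one]
    funext x
    apply Subtype.ext
    rw [hg]
    exact x.2
  have h2 := Equiv.Perm.card_fixedPoints_modEq h1
  have h3 : Fintype.card A = fix f p := by
    unfold fix
    rw [← hA, ← Nat.card_coe_set_eq, Nat.card_eq_fintype_card]
  have h4 : Fintype.card (fixedPoints g) = fix f 1 := by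
    unfold fix
    rw [← Nat.card_coe_set_eq, ← Nat.card_eq_fintype_card]
    refine Nat.card_congr ⟨fun x => ⟨x.1.1, congrArg Subtype.val x.2⟩,
      fun x => ⟨⟨x.1, ?_⟩, ?_⟩, fun x => ?_, fun x => ?_⟩
    · have hx : f x.1 = x.1 := x.2
      exact iterate_fixed hx p
    · apply Subtype.ext
      exact x.2
    · rfl
    · rfl
  rw [h3, h4] at h2
  have := (Nat.modEq_iff_dvd.1 h2.symm)
  exact this

end Pool.Agent.Q9.FD.TaskGauss
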