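import Pool.Agent.Q9.FD.Stmts

set_option autoImplicit false

open Filter Topology

namespace Pool.Agent.Q9.FD.TaskGcd

open Pool.Agent.Q9.FD

theorem periodic (M : ℕ) (G : ℕ → ℚ) (h : ∀ n, 1 ≤ n → G (n + M) = G n) (n : ℕ) (hn : 1 ≤ n) (k : ℕ) :
    G (n + k * M) = G n := by
  induction k with
  | zero => simp
  | succ k ih =>
    rw [show n + (k + 1) * M = (n + k * M) + M by ring, h _ (by omega), ih]

theorem congr_mod (M : ℕ) (G : ℕ → ℚ) (h : ∀ n, 1 ≤ n → G (n + M) = G n) (a b : ℕ) (ha : 1 ≤ a)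
    (hb : 1 ≤ b) (hab : a ≡ b [MOD M]) : G a = G b := by
  rcases le_total a b with hle | hle
  · obtain ⟨k, hk⟩ := (Nat.modEq_iff_dvd' hle).1 hab
    rw [show b = a + k * M by rw [mul_comm]; omega, periodic M G h a ha]
  · obtain ⟨k, hk⟩ := (Nat.modEq_iff_dvd' hle).1 hab.symm
    rw [show a = b + k * M by rw [mul_comm]; omega, periodic M G h b hb]

theorem eq_gcd (M : ℕ) (G : ℕ → ℚ) (hM : 1 ≤ M) (h : ∀ n, 1 ≤ n → G (n + M) = G n)
    (hu : UnitInv M G) (n : ℕ) (hn : 1 ≤ n) : G n = G (Nat.gcd n M) := by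
  have hg : 0 < Nat.gcd n M := Nat.gcd_pos_of_pos_left _ hn
  obtain ⟨n', M', hco, hn', hM'⟩ := Nat.exists_coprime n M
  set g := Nat.gcd n M with hgdef
  have hM0 : M' ≠ 0 := by
    rintro rfl
    omega
  haveI : NeZero M := ⟨by omega⟩
  have hdvd : M' ∣ M := ⟨g, hM'⟩
  obtain ⟨u, hu'⟩ := ZMod.unitsMap_surjective hdvd (ZMod.unitOfCoprime n' hco)
  have hval : (((u : ZMod M).val : ℕ) : ZMod M') = (n' : ZMod M') := by
    have h1 := congrArg (fun z : (ZMod M')ˣ => (z : ZMod M')) hu'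
    simp only [ZMod.coe_unitOfCoprime] at h1
    rw [← h1, ZMod.unitsMap_val, ZMod.natCast_val]
  have hcop : ((u : ZMod M).val + M).Coprime M := by
    rw [Nat.coprime_add_self_left]
    exact ZMod.val_coe_unit_coprime u
  have hmod : (u : ZMod M).val + M ≡ n' [MOD M'] := by
    have h2 : (u : ZMod M).val ≡ n' [MOD M'] := (ZMod.natCast_eq_natCast_iff _ _ _).1 hval
    have h3 : M ≡ 0 [MOD M'] := (Nat.modEq_zero_iff_dvd).2 hdvd
    simpa using h2.add h3
  have hmod2 : ((u : ZMod M).val + M) * g ≡ n [MOD M] := by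
    have := Nat.ModEq.mul_right' g hmod
    rwa [← hn', ← hM'] at this
  rw [← hu ((u : ZMod M).val + M) g (by omega) hg hcop]
  exact (congr_mod M G h _ _ (Nat.mul_pos (by omega) hg) hn hmod2).symm

theorem main : Pool.Agent.Q9.FD.TaskGcd := by
  intro M G hM h hu
  refine ⟨fun n => ∑ x ∈ n.divisorsAntidiagonal, (ArithmeticFunction.moebius x.1 : ℚ) * G x.2, ?_⟩
  intro n hn
  have hmob := (ArithmeticFunction.sum_eq_iff_sum_mul_moebius_eq
    (f := fun n => ∑ x ∈ n.divisorsAntidiagonal, (ArithmeticFunction.moebius x.1 : ℚ) * G x.2)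
    (g := G)).2 (fun n _ => rfl)
  rw [← Finset.sum_filter]
  have hf : M.divisors.filter (fun d => d ∣ n) = (Nat.gcd n M).divisors := by
    ext d
    have hg : Nat.gcd n M ≠ 0 := (Nat.gcd_pos_of_pos_left _ hn).ne'
    simp only [Finset.mem_filter, Nat.mem_divisors, Nat.dvd_gcd_iff]
    constructor
    · rintro ⟨⟨h1, _⟩, h2⟩
      exact ⟨⟨h2, h1⟩, hg⟩
    · rintro ⟨⟨h1, h2⟩, _⟩
      exact ⟨⟨h2, by omega⟩, h1⟩
  rw [hf, hmob _ (Nat.gcd_pos_of_pos_left _ hn)]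
  exact eq_gcd M G hM h hu n hn

end Pool.Agent.Q9.FD.TaskGcd
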