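import Pool.Agent.Q9.FD.Stmts

set_option autoImplicit false

open Filter Topology Polynomial

namespace Pool.Agent.Q9.FD.TaskIntProd

theorem main : Pool.Agent.Q9.FD.TaskIntProd := by
  intro _ p hp n _
  refine ⟨resultant p (X ^ n - 1) p.natDegree n, ?_⟩
  set φ := Int.castRingHom ℂ with hφ
  have h1 := resultant_map_map p (X ^ n - 1 : ℤ[X]) p.natDegree n φ
  have h2 : (p.map φ).natDegree = p.natDegree := hp.natDegree_map φ
  have h3 : ((X ^ n - 1 : ℤ[X]).map φ) = (X ^ n - 1 : ℂ[X]) := by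
    rw [Polynomial.map_sub, Polynomial.map_pow, map_X, Polynomial.map_one]
  rw [h3] at h1
  have hdeg : (X ^ n - 1 : ℂ[X]).natDegree ≤ n := by
    refine (natDegree_sub_le _ _).trans ?_
    rw [natDegree_X_pow, natDegree_one]
    simp
  have h4 := resultant_eq_prod_eval (p.map φ) (X ^ n - 1 : ℂ[X]) n hdeg
    (IsAlgClosed.splits (p.map φ))
  rw [h2, h1, (hp.map φ).leadingCoeff, one_pow, one_mul] at h4
  have h5 : φ (resultant p (X ^ n - 1) p.natDegree n) =
      ((resultant p (X ^ n - 1) p.natDegree n : ℤ) : ℂ) := rfl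
  rw [← h5, h4]
  unfold prodP
  congr 2
  funext z
  simp

end Pool.Agent.Q9.FD.TaskIntProd
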