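import Pool.Agent.Q9.FD.Stmts

set_option autoImplicit false

open Filter Topology

namespace Pool.Agent.Q9.FD.TaskInv

theorem norm_e (x : ℝ) : ‖e x‖ = 1 := by
  unfold e
  rw [Complex.norm_exp]
  simp

theorem e_add_int (x : ℝ) (k : ℤ) : e (x + k) = e x := by
  unfold e
  rw [Complex.exp_eq_exp_iff_exists_int]
  exact ⟨k, by push_cast; ring⟩

theorem window {f : ℕ → ℂ} {T : ℕ} (hf : ∀ n, f (n + T) = f n) (N : ℕ) :
    ∑ i ∈ Finset.range T, f (N + i) = ∑ i ∈ Finset.range T, f i := by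
  induction N with
  | zero => simp
  | succ N ih =>
    rw [← ih]
    have h1 := Finset.sum_range_succ (fun i => f (N + i)) T
    have h2 := Finset.sum_range_succ' (fun i => f (N + i)) T
    rw [h1] at h2
    rw [hf, Nat.add_zero] at h2
    have h3 := add_right_cancel h2
    rw [h3]
    refine Finset.sum_congr rfl fun i _ => ?_
    congr 1
    omega

theorem mean_periodic {f : ℕ → ℂ} {T : ℕ} (hT : 1 ≤ T) (hf : ∀ n, f (n + T) = f n) :
    HasMean f ((∑ i ∈ Finset.range T, f i) / T) := by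
  set S := ∑ i ∈ Finset.range T, f i with hS
  have hT0 : (T : ℂ) ≠ 0 := by
    have : T ≠ 0 := by omega
    exact_mod_cast this
  let g : ℕ → ℂ := fun N => ∑ n ∈ Finset.range N, f (n + 1) - N * (S / T)
  have hg : ∀ N, g (N + T) = g N := by
    intro N
    show ∑ n ∈ Finset.range (N + T), f (n + 1) - ((N + T : ℕ) : ℂ) * (S / T) =
      ∑ n ∈ Finset.range N, f (n + 1) - N * (S / T)
    rw [Finset.sum_range_add]
    have h1 : ∑ x ∈ Finset.range T, f (N + x + 1) = S := by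
      have := window hf (N + 1)
      rw [← hS] at this
      rw [← this]
      refine Finset.sum_congr rfl fun i _ => ?_
      congr 1
      omega
    rw [h1]
    push_cast
    field_simp
    ring
  obtain ⟨C, hC⟩ : ∃ C : ℝ, ∀ N, ‖g N‖ ≤ C := by
    refine ⟨∑ i ∈ Finset.range T, ‖g i‖, fun N => ?_⟩
    have hp : Function.Periodic g T := hg
    rw [← hp.map_mod_nat N]
    exact Finset.single_le_sum (f := fun i => ‖g i‖) (fun i _ => norm_nonneg _)
      (Finset.mem_range.2 (Nat.mod_lt _ (by omega)))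
  unfold HasMean
  have h2 : Tendsto (fun N : ℕ => g N / (N : ℂ)) atTop (𝓝 0) := by
    rw [tendsto_zero_iff_norm_tendsto_zero]
    have h3 : Tendsto (fun N : ℕ => C / (N : ℝ)) atTop (𝓝 0) :=
      tendsto_const_div_atTop_nhds_zero_nat C
    refine squeeze_zero (fun N => norm_nonneg _) (fun N => ?_) h3
    rw [norm_div, Complex.norm_natCast]
    exact div_le_div_of_nonneg_right (hC N) (Nat.cast_nonneg _)
  have h4 := h2.add_const (S / (T : ℂ))
  rw [zero_add] at h4
  refine h4.congr' ?_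
  filter_upwards [eventually_ge_atTop 1] with N hN
  have hN0 : (N : ℂ) ≠ 0 := by
    have : N ≠ 0 := by omega
    exact_mod_cast this
  show (∑ n ∈ Finset.range N, f (n + 1) - N * (S / T)) / N + S / T = _
  field_simp
  ring

theorem sum_mul {f : ℕ → ℂ} {T u : ℕ} (hT : 1 ≤ T) (hf : ∀ n, f (n + T) = f n)
    (hu : u.Coprime T) :
    ∑ n ∈ Finset.range T, f (u * n) = ∑ n ∈ Finset.range T, f n := by
  have hp : Function.Periodic f T := hf
  have h1 : ∀ n ∈ Finset.range T, f (u * n) = f ((u * n) % T) := fun n _ => (hp.map_mod_nat _).symm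
  rw [Finset.sum_congr rfl h1]
  have hinj : Set.InjOn (fun n => (u * n) % T) (Finset.range T : Set ℕ) := by
    intro a ha b hb hab
    have ha' := Finset.mem_range.1 (Finset.mem_coe.1 ha)
    have hb' := Finset.mem_range.1 (Finset.mem_coe.1 hb)
    have h2 : u * a ≡ u * b [MOD T] := hab
    have h3 : a ≡ b [MOD T] := Nat.ModEq.cancel_left_of_coprime (by rwa [Nat.gcd_comm]) h2
    have h4 : a % T = b % T := h3
    rwa [Nat.mod_eq_of_lt ha', Nat.mod_eq_of_lt hb'] at h4
  have himg : (Finset.range T).image (fun n => (u * n) % T) = Finset.range T := by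
    apply Finset.eq_of_subset_of_card_le
    · intro k hk
      obtain ⟨n, _, rfl⟩ := Finset.mem_image.1 hk
      exact Finset.mem_range.2 (Nat.mod_lt _ (by omega))
    · rw [Finset.card_image_of_injOn hinj]
  conv_rhs => rw [← himg]
  rw [Finset.sum_image hinj]

theorem avg_close {F f : ℕ → ℂ} {δ : ℝ} (h : ∀ n, 1 ≤ n → ‖F n - f n‖ ≤ δ) (N : ℕ)
    (hN : 1 ≤ N) :
    ‖(∑ n ∈ Finset.range N, F (n + 1)) / (N : ℂ) - (∑ n ∈ Finset.range N, f (n + 1)) / (N : ℂ)‖
      ≤ δ := by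
  have hN0 : (0 : ℝ) < N := by exact_mod_cast hN
  rw [← sub_div, norm_div, Complex.norm_natCast, div_le_iff₀ hN0, ← Finset.sum_sub_distrib]
  refine (norm_sum_le _ _).trans ?_
  refine (Finset.sum_le_sum fun n _ => h (n + 1) (by omega)).trans ?_
  rw [Finset.sum_const, Finset.card_range, nsmul_eq_mul, mul_comm]

theorem main : Pool.Agent.Q9.FD.TaskInv := by
  intro m G hG hU x u c hx hu hum hc
  obtain ⟨hm, hap⟩ := hG
  unfold HasMean
  rw [Metric.tendsto_atTop]
  intro ε hε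
  set δ := ε / 8 with hδ
  have hδ0 : 0 < δ := by positivity
  obtain ⟨M, hM1, hMp, h, hh, hGh⟩ := hap δ hδ0
  set T := M * x.den with hTdef
  have hT : 1 ≤ T := Nat.one_le_iff_ne_zero.2 (Nat.mul_ne_zero (by omega) x.den_nz)
  have huT : u.Coprime T := by
    by_contra hcon
    obtain ⟨p, hp, hpu, hpT⟩ := Nat.Prime.not_coprime_iff_dvd.1 hcon
    have hpm : p ∣ m := by
      rcases (Nat.Prime.dvd_mul hp).1 hpT with h1 | h1
      · exact hMp p hp h1
      · exact hx p hp h1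
    exact Nat.Prime.not_coprime_iff_dvd.2 ⟨p, hp, hpu, hpm⟩ hum
  have hhT : ∀ n, h (n + T) = h n := by
    intro n
    have hp : Function.Periodic h M := hh
    have := hp.nat_mul x.den n
    rw [hTdef, mul_comm M]
    exact_mod_cast this
  have hxT : (T : ℝ) * (x : ℝ) = ((M * x.num : ℤ) : ℝ) := by
    rw [hTdef]
    push_cast
    have h1 : (x : ℝ) * (x.den : ℝ) = (x.num : ℝ) := by
      exact_mod_cast Rat.mul_den_eq_num x
    rw [← h1]; ring
  let f1 : ℕ → ℂ := fun n => (h n : ℂ) * e (-(n * x))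
  let f2 : ℕ → ℂ := fun n => (h n : ℂ) * e (-(n * (u * x)))
  have hf1 : ∀ n, f1 (n + T) = f1 n := by
    intro n
    show (h (n + T) : ℂ) * e (-(((n + T : ℕ) : ℝ) * x)) = (h n : ℂ) * e (-(n * x))
    rw [hhT]
    congr 1
    have e1 : -(((n + T : ℕ) : ℝ) * (x : ℝ)) = -((n : ℝ) * x) + ((-(M * x.num) : ℤ) : ℝ) := by
      rw [Int.cast_neg, ← hxT]
      push_cast; ring
    rw [e1, e_add_int]
  have hf2 : ∀ n, f2 (n + T) = f2 n := by
    intro n
    show (h (n + T) : ℂ) * e (-(((n + T : ℕ) : ℝ) * (u * x))) = (h n : ℂ) * e (-(n * (u * x)))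
    rw [hhT]
    congr 1
    have e1 : -(((n + T : ℕ) : ℝ) * (u * (x : ℝ))) =
        -((n : ℝ) * (u * x)) + ((-(u * (M * x.num)) : ℤ) : ℝ) := by
      rw [Int.cast_neg, Int.cast_mul, ← hxT]
      push_cast; ring
    rw [e1, e_add_int]
  have hm1 := mean_periodic hT hf1
  have hm2 := mean_periodic hT hf2
  set μ1 : ℂ := (∑ i ∈ Finset.range T, f1 i) / T with hμ1
  set μ2 : ℂ := (∑ i ∈ Finset.range T, f2 i) / T with hμ2
  have hb : ‖c - μ1‖ ≤ δ := by
    have hlim : Tendsto (fun N : ℕ => ‖(∑ n ∈ Finset.range N,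
        (fun n : ℕ => (G n : ℂ) * e (-(n * x))) (n + 1)) / (N : ℂ) -
        (∑ n ∈ Finset.range N, f1 (n + 1)) / (N : ℂ)‖) atTop (𝓝 ‖c - μ1‖) :=
      (Tendsto.sub hc hm1).norm
    refine le_of_tendsto hlim ?_
    filter_upwards [eventually_ge_atTop 1] with N hN
    refine avg_close (F := fun n : ℕ => (G n : ℂ) * e (-(n * x))) (f := f1) (fun n hn => ?_) N hN
    show ‖(G n : ℂ) * e (-(n * x)) - (h n : ℂ) * e (-(n * x))‖ ≤ δ
    rw [← sub_mul, norm_mul, norm_e, mul_one, ← Complex.ofReal_sub, Complex.norm_real]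
    exact hGh n hn
  have hcμ : ‖μ1 - μ2‖ ≤ 2 * δ := by
    rw [hμ1, hμ2, ← sum_mul hT hf1 huT, ← sub_div, ← Finset.sum_sub_distrib, norm_div,
      Complex.norm_natCast]
    have hT0 : (0 : ℝ) < T := by exact_mod_cast hT
    rw [div_le_iff₀ hT0]
    refine (norm_sum_le _ _).trans ?_
    have hterm : ∀ n ∈ Finset.range T, ‖f1 (u * n) - f2 n‖ ≤ 2 * δ := by
      intro n _
      show ‖(h (u * n) : ℂ) * e (-(((u * n : ℕ) : ℝ) * x)) - (h n : ℂ) * e (-(n * (u * x)))‖ ≤ _
      have e1 : -(((u * n : ℕ) : ℝ) * (x : ℝ)) = -((n : ℝ) * (u * x)) := by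
        push_cast; ring
      rw [e1, ← sub_mul, norm_mul, norm_e, mul_one, ← Complex.ofReal_sub, Complex.norm_real]
      rcases Nat.eq_zero_or_pos n with rfl | hn
      · simp only [mul_zero, sub_self, norm_zero]; positivity
      · have h1 := hGh n hn
        have h2 := hGh (u * n) (Nat.mul_pos hu hn)
        have h3 := hU u n hu hn hum
        rw [h3] at h2
        rw [Real.norm_eq_abs]
        rw [abs_le] at h1 h2 ⊢
        constructor <;> linarith [h1.1, h1.2, h2.1, h2.2]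
    refine (Finset.sum_le_sum hterm).trans ?_
    rw [Finset.sum_const, Finset.card_range, nsmul_eq_mul, mul_comm]
  unfold HasMean at hm2
  rw [Metric.tendsto_atTop] at hm2
  obtain ⟨N0, hN0⟩ := hm2 δ hδ0
  refine ⟨max N0 1, fun N hN => ?_⟩
  have hN1 : 1 ≤ N := le_trans (le_max_right _ _) hN
  have h5 := hN0 N (le_trans (le_max_left _ _) hN)
  rw [dist_eq_norm] at h5 ⊢
  have h6 : ‖(∑ n ∈ Finset.range N, (fun n : ℕ => (G n : ℂ) * e (-(n * (u * x)))) (n + 1)) / (N : ℂ) -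
      (∑ n ∈ Finset.range N, f2 (n + 1)) / (N : ℂ)‖ ≤ δ := by
    refine avg_close (F := fun n : ℕ => (G n : ℂ) * e (-(n * (u * x)))) (f := f2)
      (fun n hn => ?_) N hN1
    show ‖(G n : ℂ) * e (-(n * (u * x))) - (h n : ℂ) * e (-(n * (u * x)))‖ ≤ δ
    rw [← sub_mul, norm_mul, norm_e, mul_one, ← Complex.ofReal_sub, Complex.norm_real]
    exact hGh n hn
  set A : ℂ := (∑ n ∈ Finset.range N, (fun n : ℕ => (G n : ℂ) * e (-(n * (u * x)))) (n + 1)) /
    (N : ℂ) with hA
  set B : ℂ := (∑ n ∈ Finset.range N, f2 (n + 1)) / (N : ℂ) with hB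
  have e7 : A - c = (A - B) + (B - μ2) + (μ2 - μ1) + (μ1 - c) := by ring
  have h8 : ‖A - c‖ ≤ ‖A - B‖ + ‖B - μ2‖ + ‖μ2 - μ1‖ + ‖μ1 - c‖ := by
    rw [e7]
    refine (norm_add_le _ _).trans ?_
    gcongr
    refine (norm_add_le _ _).trans ?_
    gcongr
    exact norm_add_le _ _
  rw [norm_sub_rev μ2 μ1, norm_sub_rev μ1 c] at h8
  have : ‖A - c‖ < ε := by
    have : ε = 8 * δ := by rw [hδ]; ring
    linarith
  exact this

end Pool.Agent.Q9.FD.TaskInv
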