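import Pool.Agent.Q9.FD.Stmts

set_option autoImplicit false

open Filter Topology

namespace Pool.Agent.Q9.FD.TaskLP

private lemma approx_mul {m : ℕ} {G H : ℕ → ℝ} (hG : ApproxBy m G) (hH : ApproxBy m H) {A B : ℝ}
    (hA : ∀ n, 1 ≤ n → |G n| ≤ A) (hB : ∀ n, 1 ≤ n → |H n| ≤ B) :
    ApproxBy m (fun n => G n * H n) := by
  obtain ⟨hm, hG⟩ := hG
  obtain ⟨-, hH⟩ := hH
  refine ⟨hm, fun ε hε => ?_⟩
  have hA0 : 0 ≤ A := (abs_nonneg _).trans (hA 1 le_rfl)
  have hB0 : 0 ≤ B := (abs_nonneg _).trans (hB 1 le_rfl)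
  set η := min 1 (ε / (A + B + 2)) with hη
  have hη0 : 0 < η := lt_min one_pos (by positivity)
  have hη1 : η ≤ 1 := min_le_left _ _
  have hη2 : η * (A + B + 2) ≤ ε := by
    have : η ≤ ε / (A + B + 2) := min_le_right _ _
    rwa [le_div_iff₀ (by positivity)] at this
  obtain ⟨M, hM, hMp, g, hg, hgG⟩ := hG η hη0
  obtain ⟨M', hM', hMp', h, hh, hhH⟩ := hH η hη0
  have hper : ∀ (f : ℕ → ℝ) (M : ℕ), (∀ n, f (n + M) = f n) → ∀ k n : ℕ, f (n + k * M) = f n := by
    intro f M hf k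
    induction k with
    | zero => intro n; simp
    | succ k ih =>
      intro n
      rw [show n + (k + 1) * M = (n + k * M) + M by ring, hf, ih]
  refine ⟨M * M', Nat.mul_pos hM hM', fun p hp hd => ?_, fun n => g n * h n, fun n => ?_, fun n hn => ?_⟩
  · rcases (Nat.Prime.dvd_mul hp).1 hd with h1 | h1
    · exact hMp p hp h1
    · exact hMp' p hp h1
  · have h1 := hper g M hg M' n
    have h2 := hper h M' hh M n
    show g (n + M * M') * h (n + M * M') = g n * h n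
    rw [h2, mul_comm M M', h1]
  · have h1 := hgG n hn
    have h2 := hhH n hn
    have h3 : G n * H n - g n * h n = G n * (H n - h n) + (G n - g n) * H n - (G n - g n) * (H n - h n) := by ring
    rw [h3]
    have h4 : |G n * (H n - h n)| ≤ A * η := by
      rw [abs_mul]
      exact mul_le_mul (hA n hn) h2 (abs_nonneg _) hA0
    have h5 : |(G n - g n) * H n| ≤ η * B := by
      rw [abs_mul]
      exact mul_le_mul h1 (hB n hn) (abs_nonneg _) hη0.le
    have h6 : |(G n - g n) * (H n - h n)| ≤ η * 1 := by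
      rw [abs_mul]
      exact mul_le_mul h1 (h2.trans hη1) (abs_nonneg _) hη0.le
    have h7 := abs_sub (G n * (H n - h n) + (G n - g n) * H n) ((G n - g n) * (H n - h n))
    have h8 := abs_add_le (G n * (H n - h n)) ((G n - g n) * H n)
    nlinarith

private lemma gcd_per (N : ℕ) (n k : ℕ) : Nat.gcd (n + k * N) N = Nat.gcd n N := by
  rw [Nat.gcd_add_mul_right_left]

private lemma approx_gcd {m N : ℕ} {r : ℕ → ℝ} (hm : 1 ≤ m) (h : GcdSeq r N)
    (hd : ∀ p : ℕ, p.Prime → p ∣ N → p ∣ m) : ApproxBy m r := by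
  obtain ⟨hN, hr⟩ := h
  refine ⟨hm, fun ε hε => ⟨N, hN, hd, fun n => r (Nat.gcd n N), fun n => ?_, fun n hn => ?_⟩⟩
  · have := gcd_per N n 1
    rw [one_mul] at this
    show r (Nat.gcd (n + N) N) = r (Nat.gcd n N)
    rw [this]
  · show |r n - r (Nat.gcd n N)| ≤ ε
    rw [← hr n hn, sub_self, abs_zero]
    exact hε.le

private lemma bdd_gcd {N : ℕ} {r : ℕ → ℝ} (h : GcdSeq r N) : ∃ B, ∀ n, 1 ≤ n → r n ≤ B := by
  obtain ⟨hN, hr⟩ := h
  refine ⟨∑ d ∈ N.divisors, |r d|, fun n hn => ?_⟩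
  rw [hr n hn]
  refine (le_abs_self _).trans ?_
  exact Finset.single_le_sum (f := fun d => |r d|) (fun d _ => abs_nonneg _)
    (Nat.mem_divisors.2 ⟨Nat.gcd_dvd_right _ _, by omega⟩)

private lemma inv_gcd {N m : ℕ} {r : ℕ → ℝ} (h : GcdSeq r N) (hd : N ∣ m) : UnitInv m r := by
  obtain ⟨hN, hr⟩ := h
  intro u n hu hn hc
  rw [hr (u * n) (Nat.mul_pos hu hn), hr n hn]
  congr 1
  have : Nat.Coprime u N := Nat.Coprime.coprime_dvd_right hd hc
  exact Nat.Coprime.gcd_mul_left_cancel n this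

/-- the value at the exponent `v` -/
private noncomputable def ψ (p : ℕ) (v : ℕ) (x y : ℝ) : ℝ := ((p : ℝ) ^ v)⁻¹ ^ x * (p : ℝ) ^ (-y * ((p : ℝ) ^ v))

private lemma ψ_pos (p : ℕ) (hp : p.Prime) (v : ℕ) (x y : ℝ) : 0 < ψ p v x y := by
  have : (0 : ℝ) < p := by exact_mod_cast hp.pos
  unfold ψ
  positivity

private lemma ψ_anti (p : ℕ) (hp : p.Prime) (v w : ℕ) (h : v ≤ w) (x y : ℝ) (hx : 0 ≤ x) (hy : 0 ≤ y) :
    ψ p w x y ≤ ψ p v x y := by
  have h0 : (1 : ℝ) ≤ p := by exact_mod_cast hp.one_le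
  have h1 : (p : ℝ) ^ v ≤ (p : ℝ) ^ w := pow_le_pow_right₀ h0 h
  have hv : (0 : ℝ) < (p : ℝ) ^ v := by positivity
  unfold ψ
  refine mul_le_mul ?_ ?_ (by positivity) (by positivity)
  · exact Real.rpow_le_rpow (by positivity) (inv_anti₀ hv h1) hx
  · refine Real.rpow_le_rpow_of_exponent_le h0 ?_
    nlinarith

private lemma ψ_one (p : ℕ) (hp : p.Prime) (v : ℕ) (x y : ℝ) (hx : 0 ≤ x) (hy : 0 ≤ y) : ψ p v x y ≤ 1 := by
  refine (ψ_anti p hp 0 v (Nat.zero_le _) x y hx hy).trans ?_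
  have h0 : (1 : ℝ) ≤ p := by exact_mod_cast hp.one_le
  unfold ψ
  rw [pow_zero, inv_one, Real.one_rpow, one_mul, mul_one]
  exact Real.rpow_le_one_of_one_le_of_nonpos h0 (by linarith)

private lemma ψ_zero (p : ℕ) (v : ℕ) : ψ p v 0 0 = 1 := by
  unfold ψ
  simp

private lemma ψ_lim (p : ℕ) (hp : p.Prime) (x y : ℝ) (hx : 0 ≤ x) (hy : 0 ≤ y) (hxy : ¬ (x = 0 ∧ y = 0)) :
    Tendsto (fun v => ψ p v x y) atTop (𝓝 0) := by
  have h0 : (1 : ℝ) < p := by exact_mod_cast hp.one_lt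
  have hpow : Tendsto (fun v : ℕ => (p : ℝ) ^ v) atTop atTop := tendsto_pow_atTop_atTop_of_one_lt h0
  rcases hx.eq_or_lt with hx0 | hx0
  · have hy0 : 0 < y := lt_of_le_of_ne hy (fun h => hxy ⟨hx0.symm, h.symm⟩)
    have h1 : Tendsto (fun v : ℕ => (p : ℝ) ^ (-y * ((p : ℝ) ^ v))) atTop (𝓝 0) := by
      have h2 : Tendsto (fun v : ℕ => -y * ((p : ℝ) ^ v)) atTop atBot :=
        hpow.const_mul_atTop_of_neg (by linarith)
      exact (tendsto_rpow_atBot_of_base_gt_one _ h0).comp h2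
    refine h1.congr fun v => ?_
    unfold ψ
    rw [← hx0, Real.rpow_zero, one_mul]
  · have h1 : Tendsto (fun v : ℕ => ((p : ℝ) ^ v)⁻¹ ^ x) atTop (𝓝 0) := by
      have h2 : Tendsto (fun v : ℕ => ((p : ℝ) ^ v)⁻¹) atTop (𝓝 0) := tendsto_inv_atTop_zero.comp hpow
      have h3 := h2.rpow_const (p := x) (Or.inr hx)
      rwa [Real.zero_rpow hx0.ne'] at h3
    refine squeeze_zero (fun v => (ψ_pos p hp v x y).le) (fun v => ?_) h1
    unfold ψ
    refine mul_le_of_le_one_right (by positivity) ?_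
    refine Real.rpow_le_one_of_one_le_of_nonpos h0.le ?_
    have : (0 : ℝ) < (p : ℝ) ^ v := by positivity
    nlinarith

private lemma factor_eq (p n : ℕ) (x y : ℝ) :
    absp p n ^ x * (p : ℝ) ^ (-y * (absp p n)⁻¹) = ψ p (padicValNat p n) x y := by
  unfold ψ absp
  rw [inv_inv]

/-- the truncated valuation -/
private noncomputable def tv (p V n : ℕ) : ℕ := if p ^ V ∣ n then V else padicValNat p n

private lemma tv_per (p V n : ℕ) (hp : p.Prime) : tv p V (n + p ^ V) = tv p V n := by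
  haveI := Fact.mk hp
  unfold tv
  have h1 : p ^ V ∣ n + p ^ V ↔ p ^ V ∣ n := Nat.dvd_add_self_right
  by_cases h : p ^ V ∣ n
  · rw [if_pos h, if_pos (h1.2 h)]
  · rw [if_neg h, if_neg (fun h2 => h (h1.1 h2))]
    have hn : n ≠ 0 := by
      rintro rfl
      exact h (dvd_zero _)
    apply le_antisymm
    · by_contra hlt
      push_neg at hlt
      have h3 : p ^ (padicValNat p n + 1) ∣ n + p ^ V :=
        (padicValNat_dvd_iff_le (by omega)).2 hlt
      have h4 : padicValNat p n + 1 ≤ V := by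
        by_contra h5
        push_neg at h5
        exact h ((padicValNat_dvd_iff_le hn).2 (by omega))
      have h6 : p ^ (padicValNat p n + 1) ∣ n := (Nat.dvd_add_left (pow_dvd_pow p h4)).1 h3
      have := (padicValNat_dvd_iff_le hn).1 h6
      omega
    · have h4 : padicValNat p n ≤ V := by
        by_contra h5
        push_neg at h5
        exact h ((padicValNat_dvd_iff_le hn).2 (by omega))
      exact (padicValNat_dvd_iff_le (by omega)).1 (dvd_add pow_padicValNat_dvd (pow_dvd_pow p h4))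

private lemma approx_factor {m p N N' : ℕ} {s t : ℕ → ℝ} (hp : p.Prime) (hm : 1 ≤ m) (hs : GcdSeq s N) (ht : GcdSeq t N')
    (h0 : ∀ n, 1 ≤ n → 0 ≤ s n ∧ 0 ≤ t n) (hN : N ∣ m) (hN' : N' ∣ m) (hpm : p ∣ m) :
    ApproxBy m (fun n => absp p n ^ (s n) * (p : ℝ) ^ (-(t n) * (absp p n)⁻¹)) := by
  haveI := Fact.mk hp
  obtain ⟨hN1, hs⟩ := hs
  obtain ⟨hN1', ht⟩ := ht
  refine ⟨hm, fun ε hε => ?_⟩
  have hV : ∀ᶠ V : ℕ in atTop, ∀ q ∈ N.divisors ×ˢ N'.divisors,
      (s q.1 = 0 ∧ t q.2 = 0) ∨ ψ p V (s q.1) (t q.2) ≤ ε := by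
    rw [Filter.eventually_all_finset]
    intro q hq
    rw [Finset.mem_product, Nat.mem_divisors, Nat.mem_divisors] at hq
    have hq1 : 1 ≤ q.1 := Nat.pos_of_dvd_of_pos hq.1.1 hN1
    have hq2 : 1 ≤ q.2 := Nat.pos_of_dvd_of_pos hq.2.1 hN1'
    by_cases hz : s q.1 = 0 ∧ t q.2 = 0
    · exact Eventually.of_forall fun V => Or.inl hz
    · have := ψ_lim p hp (s q.1) (t q.2) (h0 _ hq1).1 (h0 _ hq2).2 hz
      exact (this.eventually (ge_mem_nhds hε)).mono fun V hV => Or.inr hV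
  obtain ⟨V, hV⟩ := hV.exists
  refine ⟨N * N' * p ^ V, Nat.mul_pos (Nat.mul_pos hN1 hN1') (pow_pos hp.pos V), fun q hq hd => ?_,
    fun n => ψ p (tv p V n) (s (Nat.gcd n N)) (t (Nat.gcd n N')), fun n => ?_, fun n hn => ?_⟩
  · rcases (Nat.Prime.dvd_mul hq).1 hd with h1 | h1
    · rcases (Nat.Prime.dvd_mul hq).1 h1 with h2 | h2
      · exact h2.trans hN
      · exact h2.trans hN'
    · exact (hq.dvd_of_dvd_pow h1).trans hpm
  · have h1 : Nat.gcd (n + N * N' * p ^ V) N = Nat.gcd n N := by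
      rw [show N * N' * p ^ V = (N' * p ^ V) * N by ring]
      exact gcd_per N n _
    have h2 : Nat.gcd (n + N * N' * p ^ V) N' = Nat.gcd n N' := by
      rw [show N * N' * p ^ V = (N * p ^ V) * N' by ring]
      exact gcd_per N' n _
    have h3 : tv p V (n + N * N' * p ^ V) = tv p V n := by
      have : ∀ k : ℕ, tv p V (n + k * p ^ V) = tv p V n := by
        intro k
        induction k with
        | zero => simp
        | succ k ih => rw [show n + (k + 1) * p ^ V = (n + k * p ^ V) + p ^ V by ring, tv_per p V _ hp, ih]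
      exact this _
    show ψ p (tv p V (n + N * N' * p ^ V)) (s (Nat.gcd (n + N * N' * p ^ V) N)) (t (Nat.gcd (n + N * N' * p ^ V) N')) = _
    rw [h1, h2, h3]
  · have hn0 : n ≠ 0 := by omega
    show |absp p n ^ (s n) * (p : ℝ) ^ (-(t n) * (absp p n)⁻¹) - ψ p (tv p V n) (s (Nat.gcd n N)) (t (Nat.gcd n N'))| ≤ ε
    rw [factor_eq, ← hs n hn, ← ht n hn]
    by_cases h : p ^ V ∣ n
    · have htv : tv p V n = V := if_pos h
      rw [htv]
      have h1 : V ≤ padicValNat p n := (padicValNat_dvd_iff_le hn0).1 h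
      rcases hV (Nat.gcd n N, Nat.gcd n N') (by
        rw [Finset.mem_product, Nat.mem_divisors, Nat.mem_divisors]
        exact ⟨⟨Nat.gcd_dvd_right _ _, by omega⟩, ⟨Nat.gcd_dvd_right _ _, by omega⟩⟩) with hz | hz
      · have hz1 : s n = 0 := (hs n hn).trans hz.1
        have hz2 : t n = 0 := (ht n hn).trans hz.2
        rw [hz1, hz2, ψ_zero, ψ_zero, sub_self, abs_zero]
        exact hε.le
      · have hz' : ψ p V (s n) (t n) ≤ ε := by rw [hs n hn, ht n hn]; exact hz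
        have h2 := ψ_anti p hp V (padicValNat p n) h1 (s n) (t n) (h0 n hn).1 (h0 n hn).2
        have h3 := ψ_pos p hp (padicValNat p n) (s n) (t n)
        rw [abs_le]
        constructor <;> linarith
    · have htv : tv p V n = padicValNat p n := if_neg h
      rw [htv, sub_self, abs_zero]
      exact hε.le

private lemma inv_factor {m p N N' : ℕ} {s t : ℕ → ℝ} (hp : p.Prime) (hs : GcdSeq s N) (ht : GcdSeq t N')
    (hN : N ∣ m) (hN' : N' ∣ m) (hpm : p ∣ m) :
    UnitInv m (fun n => absp p n ^ (s n) * (p : ℝ) ^ (-(t n) * (absp p n)⁻¹)) := by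
  haveI := Fact.mk hp
  intro u n hu hn hc
  have h1 := inv_gcd hs hN u n hu hn hc
  have h2 := inv_gcd ht hN' u n hu hn hc
  have h3 : absp p (u * n) = absp p n := by
    unfold absp
    rw [padicValNat.mul (by omega) (by omega)]
    have h4 : padicValNat p u = 0 := padicValNat.eq_zero_of_not_dvd (fun hd => by
      have := Nat.dvd_gcd hd hpm
      rw [hc] at this
      exact hp.one_lt.ne' (Nat.dvd_one.1 this))
    rw [h4, zero_add]
  show absp p (u * n) ^ (s (u * n)) * (p : ℝ) ^ (-(t (u * n)) * (absp p (u * n))⁻¹) = _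
  rw [h1, h2, h3]

theorem main : Pool.Agent.Q9.FD.TaskLP := by
  intro S r s t hadm
  obtain ⟨hS, ⟨N, hN⟩, hr, hst⟩ := hadm
  classical
  choose! Ns hNs using fun p hp => (hst p hp).1
  choose! Nt hNt using fun p hp => (hst p hp).2.1
  have h0 := fun p hp => (hst p hp).2.2
  set m := N * ∏ p ∈ S, (Ns p * Nt p * p) with hm
  have hm1 : 1 ≤ m := by
    rw [hm]
    refine Nat.mul_pos hN.1 (Finset.prod_pos fun p hp => ?_)
    exact Nat.mul_pos (Nat.mul_pos (hNs p hp).1.1 (hNt p hp).1.1) (hS p hp).pos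
  have hdiv : ∀ p ∈ S, Ns p ∣ m ∧ Nt p ∣ m ∧ p ∣ m := by
    intro p hp
    have h1 : Ns p * Nt p * p ∣ m := (Finset.dvd_prod_of_mem (fun p => Ns p * Nt p * p) hp).trans (Dvd.intro_left _ rfl)
    exact ⟨(Dvd.intro _ (by ring : Ns p * (Nt p * p) = Ns p * Nt p * p)).trans h1,
      (Dvd.intro _ (by ring : Nt p * (Ns p * p) = Ns p * Nt p * p)).trans h1,
      (Dvd.intro_left _ rfl).trans h1⟩
  obtain ⟨B, hB⟩ := bdd_gcd hN
  have hfac : ∀ p ∈ S, ∀ n, 1 ≤ n → 0 < absp p n ^ (s p n) * (p : ℝ) ^ (-(t p n) * (absp p n)⁻¹) ∧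
      absp p n ^ (s p n) * (p : ℝ) ^ (-(t p n) * (absp p n)⁻¹) ≤ 1 := by
    intro p hp n hn
    rw [factor_eq]
    exact ⟨ψ_pos p (hS p hp) _ _ _, ψ_one p (hS p hp) _ _ _ (h0 p hp n hn).1 (h0 p hp n hn).2⟩
  have hprod : ∀ T : Finset ℕ, T ⊆ S → (∀ n, 1 ≤ n → 0 < gfac T r s t n ∧ gfac T r s t n ≤ B) ∧
      UnitInv m (gfac T r s t) ∧ ApproxBy m (gfac T r s t) := by
    intro T
    induction T using Finset.induction_on with
    | empty =>
      intro _
      have he : gfac ∅ r s t = r := by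
        funext n
        unfold gfac
        rw [Finset.prod_empty, mul_one]
      rw [he]
      exact ⟨fun n hn => ⟨hr n hn, hB n hn⟩, inv_gcd hN (Dvd.intro _ rfl),
        approx_gcd hm1 hN fun p _ hd => hd.trans (Dvd.intro _ rfl)⟩
    | insert p T hpT ih =>
      intro hsub
      have hp : p ∈ S := hsub (Finset.mem_insert_self p T)
      obtain ⟨i1, i2, i3⟩ := ih (fun x hx => hsub (Finset.mem_insert_of_mem hx))
      have he : gfac (insert p T) r s t = fun n => gfac T r s t n *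
          (absp p n ^ (s p n) * (p : ℝ) ^ (-(t p n) * (absp p n)⁻¹)) := by
        funext n
        unfold gfac
        rw [Finset.prod_insert hpT]
        ring
      rw [he]
      refine ⟨fun n hn => ?_, fun u n hu hn hc => ?_, ?_⟩
      · obtain ⟨j1, j2⟩ := hfac p hp n hn
        obtain ⟨k1, k2⟩ := i1 n hn
        exact ⟨mul_pos k1 j1, (mul_le_of_le_one_right k1.le j2).trans k2⟩
      · have e1 := i2 u n hu hn hc
        have e2 := inv_factor (hS p hp) (hNs p hp).1 (hNt p hp).1 (hdiv p hp).1 (hdiv p hp).2.1 (hdiv p hp).2.2 u n hu hn hc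
        show gfac T r s t (u * n) * _ = gfac T r s t n * _
        rw [e1]
        exact congrArg _ e2
      · refine approx_mul (A := B) (B := 1) i3 (approx_factor (hS p hp) hm1 (hNs p hp).1 (hNt p hp).1 (h0 p hp)
          (hdiv p hp).1 (hdiv p hp).2.1 (hdiv p hp).2.2) (fun n hn => ?_) (fun n hn => ?_)
        · rw [abs_of_pos (i1 n hn).1]
          exact (i1 n hn).2
        · rw [abs_of_pos (hfac p hp n hn).1]
          exact (hfac p hp n hn).2
  exact ⟨m, B, hprod S (Finset.Subset.refl S)⟩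

end Pool.Agent.Q9.FD.TaskLP
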