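import Pool.Agent.Q9.FD.Stmts

set_option autoImplicit false

/-! # The limsup of the `n`-th roots -/

open Filter Topology

namespace Pool.Agent.Q9.FD.TaskLam

theorem root_tendsto {c : ℝ} (hc : 0 < c) (Λ : ℝ) :
    Tendsto (fun n : ℕ => c ^ (1 / (n : ℝ)) * Λ) atTop (𝓝 Λ) := by
  have h1 : Tendsto (fun n : ℕ => (1 : ℝ) / (n : ℝ)) atTop (𝓝 0) := tendsto_one_div_atTop_nhds_zero_nat
  have h2 : Tendsto (fun n : ℕ => c ^ (1 / (n : ℝ))) atTop (𝓝 (c ^ (0 : ℝ))) :=
    ((Real.continuousAt_const_rpow hc.ne').tendsto).comp h1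
  rw [Real.rpow_zero] at h2
  simpa using h2.mul_const Λ

theorem root_eq {c Λ : ℝ} (hc : 0 < c) (hL : 0 < Λ) {n : ℕ} (hn : 1 ≤ n) :
    (c * Λ ^ n) ^ (1 / (n : ℝ)) = c ^ (1 / (n : ℝ)) * Λ := by
  rw [Real.mul_rpow hc.le (pow_nonneg hL.le _), one_div,
    Real.pow_rpow_inv_natCast hL.le (by omega)]

theorem main : Pool.Agent.Q9.FD.TaskLam := by
  intro a Λ B δ hL hδ hup hlow
  have hB : (0 : ℝ) < max B 1 := lt_max_of_lt_right one_pos
  have hv := root_tendsto hB Λ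
  have huv : (fun n : ℕ => (a n : ℝ) ^ (1 / (n : ℝ))) ≤ᶠ[atTop]
      fun n : ℕ => (max B 1) ^ (1 / (n : ℝ)) * Λ := by
    filter_upwards [eventually_ge_atTop 1] with n hn
    rw [← root_eq hB hL hn]
    refine Real.rpow_le_rpow (Nat.cast_nonneg _) ((hup n hn).trans ?_) (by positivity)
    exact mul_le_mul_of_nonneg_right (le_max_left _ _) (pow_nonneg hL.le _)
  have hbd : IsBoundedUnder (· ≤ ·) atTop fun n : ℕ => (a n : ℝ) ^ (1 / (n : ℝ)) :=
    hv.isBoundedUnder_le.mono_le huv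
  apply le_antisymm
  · rw [← hv.limsup_eq]
    refine limsup_le_limsup huv ?_ hv.isBoundedUnder_le
    exact isCoboundedUnder_le_of_le atTop (x := 0) fun n => by positivity
  · refine le_of_forall_lt_imp_le_of_dense fun b hb => ?_
    refine le_limsup_of_frequently_le ?_ hbd
    have h1 : ∀ᶠ n : ℕ in atTop, b < δ ^ (1 / (n : ℝ)) * Λ :=
      (root_tendsto hδ Λ).eventually (lt_mem_nhds hb)
    refine (hlow.and_eventually (h1.and (eventually_ge_atTop 1))).mono ?_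
    rintro n ⟨h2, h3, h4⟩
    refine h3.le.trans ?_
    rw [← root_eq hδ hL h4]
    exact Real.rpow_le_rpow (by positivity) h2 (by positivity)

end Pool.Agent.Q9.FD.TaskLam
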