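import Pool.Agent.Q9.FD.Stmts

set_option autoImplicit false

open Filter Topology

namespace Pool.Agent.Q9.FD.TaskMeanEx

/-- the partial means -/
noncomputable def am (b : ℕ → ℂ) (N : ℕ) : ℂ := (∑ n ∈ Finset.range N, b (n + 1)) / (N : ℂ)

lemma am_le {b b' : ℕ → ℂ} {ε : ℝ} (hε : 0 ≤ ε) (h : ∀ n, 1 ≤ n → ‖b n - b' n‖ ≤ ε) (N : ℕ) :
    ‖am b N - am b' N‖ ≤ ε := by
  unfold am
  rw [← sub_div, ← Finset.sum_sub_distrib, norm_div, Complex.norm_natCast]
  rcases Nat.eq_zero_or_pos N with h0 | h0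
  · rw [h0]; simpa using hε
  · have hN : (0 : ℝ) < N := by exact_mod_cast h0
    rw [div_le_iff₀ hN]
    refine (norm_sum_le _ _).trans ((Finset.sum_le_sum fun n _ => h (n + 1) (by omega)).trans ?_)
    rw [Finset.sum_const, Finset.card_range, nsmul_eq_mul]
    linarith

lemma approx0 {b : ℕ → ℂ} (h : ∀ ε : ℝ, 0 < ε → ∃ b' : ℕ → ℂ, HasMean b' 0 ∧
    ∀ n, 1 ≤ n → ‖b n - b' n‖ ≤ ε) : HasMean b 0 := by
  unfold HasMean
  rw [Metric.tendsto_atTop]
  intro ε hε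
  obtain ⟨b', h1, h2⟩ := h (ε / 2) (by positivity)
  unfold HasMean at h1
  rw [Metric.tendsto_atTop] at h1
  obtain ⟨N₀, hN₀⟩ := h1 (ε / 2) (by positivity)
  refine ⟨N₀, fun N hN => ?_⟩
  have h3 := hN₀ N hN
  rw [dist_zero_right] at h3 ⊢
  have h4 := am_le (by positivity) h2 N
  have h5 : ‖am b N‖ ≤ ‖am b N - am b' N‖ + ‖am b' N‖ := by
    have := norm_add_le (am b N - am b' N) (am b' N)
    rwa [sub_add_cancel] at this
  change ‖am b' N‖ < ε / 2 at h3
  change ‖am b N‖ < ε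
  linarith

lemma approxC {b : ℕ → ℂ} (h : ∀ ε : ℝ, 0 < ε → ∃ (b' : ℕ → ℂ) (c : ℂ), HasMean b' c ∧
    ∀ n, 1 ≤ n → ‖b n - b' n‖ ≤ ε) : ∃ c, HasMean b c := by
  have : CauchySeq (am b) := by
    rw [Metric.cauchySeq_iff]
    intro ε hε
    obtain ⟨b', c, h1, h2⟩ := h (ε / 4) (by positivity)
    have h3 : CauchySeq (am b') := h1.cauchySeq
    rw [Metric.cauchySeq_iff] at h3
    obtain ⟨N₀, hN₀⟩ := h3 (ε / 4) (by positivity)
    refine ⟨N₀, fun m hm n hn => ?_⟩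
    have a1 := hN₀ m hm n hn
    have a2 := am_le (by positivity) h2 m
    have a3 := am_le (by positivity) h2 n
    rw [dist_eq_norm] at a1 ⊢
    have a4 : am b m - am b n = (am b m - am b' m) + (am b' m - am b' n) - (am b n - am b' n) := by
      ring
    rw [a4]
    have a5 := norm_sub_le ((am b m - am b' m) + (am b' m - am b' n)) (am b n - am b' n)
    have a6 := norm_add_le (am b m - am b' m) (am b' m - am b' n)
    linarith
  exact cauchySeq_tendsto_of_complete this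

lemma per_bdd {R : ℕ → ℂ} {M : ℕ} (hM : 1 ≤ M) (h : ∀ N, ‖R (N + M)‖ = ‖R N‖) :
    ∃ B : ℝ, ∀ N, ‖R N‖ ≤ B := by
  have hp : Function.Periodic (fun N => ‖R N‖) M := h
  refine ⟨∑ i ∈ Finset.range M, ‖R i‖, fun N => ?_⟩
  have h1 : ‖R (N % M)‖ = ‖R N‖ := hp.map_mod_nat N
  rw [← h1]
  exact Finset.single_le_sum (f := fun i => ‖R i‖) (fun _ _ => norm_nonneg _)
    (Finset.mem_range.2 (Nat.mod_lt _ (by omega)))

lemma quasi {b : ℕ → ℂ} {M : ℕ} (hM : 1 ≤ M) {q : ℂ} (hq : ‖q‖ = 1)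
    (hb : ∀ n, b (n + M) = q * b n) : ∃ d, HasMean b d ∧ (q ≠ 1 → d = 0) := by
  obtain ⟨S, hS⟩ : ∃ S : ℕ → ℂ, ∀ N, S N = ∑ n ∈ Finset.range N, b (n + 1) := ⟨_, fun _ => rfl⟩
  have hS1 : ∀ N, S (N + M) = S M + q * S N := by
    intro N
    rw [hS, hS, hS, add_comm N M, Finset.sum_range_add, Finset.mul_sum]
    congr 1
    refine Finset.sum_congr rfl fun n _ => ?_
    rw [← hb]
    congr 1
    ring
  have hbd : ∀ d : ℂ, (∃ B : ℝ, ∀ N, ‖S N - d * N‖ ≤ B) → HasMean b d := by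
    rintro d ⟨B, hB⟩
    unfold HasMean
    rw [tendsto_iff_norm_sub_tendsto_zero]
    have h1 : Tendsto (fun N : ℕ => B / (N : ℝ)) atTop (𝓝 0) :=
      tendsto_const_div_atTop_nhds_zero_nat B
    refine squeeze_zero' (Eventually.of_forall fun _ => norm_nonneg _) ?_ h1
    filter_upwards [eventually_ge_atTop 1] with N hN
    have hN0 : (0 : ℝ) < N := by exact_mod_cast hN
    have hN1 : (N : ℂ) ≠ 0 := by exact_mod_cast hN0.ne'
    have e1 : (∑ n ∈ Finset.range N, b (n + 1)) / (N : ℂ) - d = (S N - d * N) / N := by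
      rw [hS]
      field_simp
    rw [e1, norm_div, Complex.norm_natCast]
    exact div_le_div_of_nonneg_right (hB N) hN0.le
  by_cases h1 : q = 1
  · refine ⟨S M / M, hbd _ (per_bdd hM fun N => ?_), fun h => absurd h1 h⟩
    have hM0 : (M : ℂ) ≠ 0 := by exact_mod_cast (by omega : M ≠ 0)
    congr 1
    rw [hS1, h1]
    push_cast
    field_simp
    ring
  · refine ⟨0, hbd _ ?_, fun _ => rfl⟩
    have h2 : 1 - q ≠ 0 := sub_ne_zero.2 (Ne.symm h1)
    obtain ⟨B, hB⟩ := per_bdd (R := fun N => S N - S M / (1 - q)) hM fun N => by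
      have e1 : S (N + M) - S M / (1 - q) = q * (S N - S M / (1 - q)) := by
        rw [hS1]
        field_simp
        ring
      rw [e1, norm_mul, hq, one_mul]
    refine ⟨B + ‖S M / (1 - q)‖, fun N => ?_⟩
    rw [zero_mul, sub_zero]
    have h3 := norm_add_le (S N - S M / (1 - q)) (S M / (1 - q))
    rw [sub_add_cancel] at h3
    have h4 := hB N
    linarith

lemma e_add (x y : ℝ) : e (x + y) = e x * e y := by
  unfold e
  rw [← Complex.exp_add]
  congr 1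
  push_cast
  ring

lemma e_norm (x : ℝ) : ‖e x‖ = 1 := by
  unfold e
  have : 2 * (Real.pi : ℂ) * Complex.I * x = ((2 * Real.pi * x : ℝ) : ℂ) * Complex.I := by
    push_cast; ring
  rw [this, Complex.norm_exp_ofReal_mul_I]

lemma e_one {x : ℝ} (h : e x = 1) : ∃ z : ℤ, x = z := by
  unfold e at h
  rw [Complex.exp_eq_one_iff] at h
  obtain ⟨n, hn⟩ := h
  refine ⟨n, ?_⟩
  have hpi : (Real.pi : ℂ) ≠ 0 := by exact_mod_cast Real.pi_ne_zero
  have h1 : (x : ℂ) = (n : ℂ) := by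
    have h2 : (2 * (Real.pi : ℂ) * Complex.I) ≠ 0 := by
      simp [hpi]
    apply mul_left_cancel₀ h2
    rw [hn]
    ring
  exact_mod_cast h1

lemma per_mean {h : ℕ → ℝ} {M : ℕ} (hM : 1 ≤ M) (hp : ∀ n, h (n + M) = h n) (x : ℝ) :
    ∃ d, HasMean (fun n => (h n : ℂ) * e (-(n * x))) d ∧ ((¬ ∃ z : ℤ, M * x = z) → d = 0) := by
  obtain ⟨d, h1, h2⟩ := quasi (b := fun n => (h n : ℂ) * e (-(n * x))) (q := e (-(M * x))) hM
    (e_norm _) fun n => by
      rw [hp]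
      have : -(((n + M : ℕ) : ℝ) * x) = -(M * x) + -(n * x) := by push_cast; ring
      rw [this, e_add]
      ring
  refine ⟨d, h1, fun hz => h2 fun hq => hz ?_⟩
  obtain ⟨z, hz'⟩ := e_one hq
  exact ⟨-z, by push_cast; linarith⟩

lemma diff_le {G h : ℕ → ℝ} {ε : ℝ} (hG : ∀ n, 1 ≤ n → |G n - h n| ≤ ε) (x : ℝ) (n : ℕ)
    (hn : 1 ≤ n) : ‖(G n : ℂ) * e (-(n * x)) - (h n : ℂ) * e (-(n * x))‖ ≤ ε := by
  rw [← sub_mul, norm_mul, e_norm, mul_one, ← Complex.ofReal_sub, Complex.norm_real,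
    Real.norm_eq_abs]
  exact hG n hn

theorem main : Pool.Agent.Q9.FD.TaskMeanEx := by
  rintro m G ⟨hm, hG⟩
  refine ⟨fun x => ?_, fun x hx => ?_, fun x hx => ?_⟩
  · refine approxC fun ε hε => ?_
    obtain ⟨M, hM, -, h, hp, hh⟩ := hG ε hε
    obtain ⟨d, hd, -⟩ := per_mean hM hp x
    exact ⟨_, d, hd, diff_le hh x⟩
  · refine approx0 fun ε hε => ?_
    obtain ⟨M, hM, -, h, hp, hh⟩ := hG ε hε
    obtain ⟨d, hd, hd0⟩ := per_mean hM hp x
    have h0 : d = 0 := hd0 fun ⟨z, hz⟩ => by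
      have hM0 : (M : ℝ) ≠ 0 := by exact_mod_cast (by omega : M ≠ 0)
      have h1 : x = ((z / M : ℚ) : ℝ) := by
        push_cast
        field_simp
        linarith
      rw [h1] at hx
      exact hx ⟨_, rfl⟩
    rw [h0] at hd
    exact ⟨_, hd, diff_le hh x⟩
  · refine approx0 fun ε hε => ?_
    obtain ⟨M, hM, hMp, h, hpe, hh⟩ := hG ε hε
    obtain ⟨d, hd, hd0⟩ := per_mean hM hpe x
    have h0 : d = 0 := hd0 fun ⟨z, hz⟩ => by
      obtain ⟨p, hp, hpx, hpm⟩ := hx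
      apply hpm
      apply hMp p hp
      have h1 : (M : ℚ) * x = z := by exact_mod_cast hz
      have h2 : (M : ℚ) * x.num = z * x.den := by
        have h3 : (x.den : ℚ) ≠ 0 := by exact_mod_cast x.den_ne_zero
        have h4 : x * x.den = x.num := Rat.mul_den_eq_num x
        rw [← h1, mul_assoc, h4]
      have h3 : (M : ℤ) * x.num = z * x.den := by exact_mod_cast h2
      have h4 : (x.den : ℤ) ∣ (M : ℤ) * x.num := ⟨z, by rw [h3]; ring⟩
      have h5 : IsCoprime (x.den : ℤ) x.num := by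
        have := x.reduced
        rw [Int.isCoprime_iff_gcd_eq_one, Int.gcd_comm]
        simpa [Int.gcd] using this
      have h6 : (x.den : ℤ) ∣ (M : ℤ) := h5.dvd_of_dvd_mul_right h4
      have h7 : x.den ∣ M := by exact_mod_cast h6
      exact hpx.trans h7
    rw [h0] at hd
    exact ⟨_, hd, diff_le hh x⟩

end Pool.Agent.Q9.FD.TaskMeanEx
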