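import Pool.Agent.Q9.FD.Stmts
import Pool.Agent.W77.Nonres

set_option autoImplicit false

/-! A nonsquare is a nonresidue modulo infinitely many primes. -/

namespace Pool.Agent.Q9.FD.TaskNonres

theorem main : Pool.Agent.Q9.FD.TaskNonres := by
  intro w hw B
  have hw' : ¬ IsSquare ((w : ℕ) : ℤ) := by
    rwa [Int.isSquare_natCast_iff]
  obtain ⟨p, hB, hp, h⟩ := Pool.Agent.W77.infinite_nonres (w : ℤ) hw' B
  refine ⟨p, hp, hB, ?_⟩
  rwa [Int.cast_natCast] at h

end Pool.Agent.Q9.FD.TaskNonres
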