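import Pool.Agent.Q9.FD.Stmts

set_option autoImplicit false

open Filter Topology

namespace Pool.Agent.Q9.FD.TaskPole

variable {v : ℕ → ℝ} {B : ℝ}

/-- the derivative of the logarithm -/
lemma hasDeriv (hv : ∀ n, 1 ≤ n → |v n| ≤ B) {s : ℂ} (hs : ‖s‖ < 1) :
    HasDerivAt (fun z : ℂ => ∑' n : ℕ, (v (n + 1) : ℂ) / ((n : ℂ) + 1) * z ^ (n + 1))
      (∑' n : ℕ, (v (n + 1) : ℂ) * s ^ n) s := by
  obtain ⟨r, hr1, hr2⟩ := exists_between hs
  have hr0 : 0 ≤ r := (norm_nonneg s).trans hr1.le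
  have hu : Summable fun n : ℕ => B * r ^ n :=
    (summable_geometric_of_lt_one hr0 hr2).mul_left B
  refine hasDerivAt_tsum_of_isPreconnected (𝕜 := ℂ) (F := ℂ)
    (g := fun (n : ℕ) (z : ℂ) => (v (n + 1) : ℂ) / ((n : ℂ) + 1) * z ^ (n + 1))
    (g' := fun (n : ℕ) (z : ℂ) => (v (n + 1) : ℂ) * z ^ n)
    (t := Metric.ball (0 : ℂ) r) (y₀ := (0 : ℂ)) (y := s) hu
    Metric.isOpen_ball (convex_ball _ _).isPreconnected (fun n y _ => ?_) (fun n y hy => ?_)
    (Metric.mem_ball_self ((norm_nonneg s).trans_lt hr1)) ?_ (by simpa using hr1)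
  · have h1 := ((hasDerivAt_id' y).fun_pow (n + 1)).const_mul ((v (n + 1) : ℂ) / ((n : ℂ) + 1))
    refine h1.congr_deriv ?_
    have hn : (n : ℂ) + 1 ≠ 0 := by exact_mod_cast Nat.succ_ne_zero n
    push_cast
    field_simp
  · rw [norm_mul, norm_pow, Complex.norm_real, Real.norm_eq_abs]
    have h1 : ‖y‖ ≤ r := by
      have := Metric.mem_ball.1 hy
      rw [dist_zero_right] at this
      exact this.le
    have h2 := hv (n + 1) (by omega)
    have h3 : 0 ≤ B := (abs_nonneg _).trans h2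
    gcongr
  · refine (summable_zero).congr fun n => ?_
    simp

theorem main : Pool.Agent.Q9.FD.TaskPole := by
  intro v B hv w δ g hw hδ hg hgs
  have hopen : IsOpen (Metric.ball w δ) := Metric.isOpen_ball
  have hpos : ∀ z ∈ Metric.ball w δ, ‖z‖ < 1 → g z ≠ 0 := fun z hz hz1 => by
    rw [hgs z hz hz1]
    exact Complex.exp_ne_zero _
  -- the logarithmic derivative
  have hlog : ∀ z ∈ Metric.ball w δ, ‖z‖ < 1 →
      ∑' n : ℕ, (v (n + 1) : ℂ) * z ^ n = deriv g z / g z := by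
    intro z hz hz1
    have h1 : HasDerivAt (fun z : ℂ => Complex.exp
        (∑' n : ℕ, (v (n + 1) : ℂ) / ((n : ℂ) + 1) * z ^ (n + 1)))
        (Complex.exp (∑' n : ℕ, (v (n + 1) : ℂ) / ((n : ℂ) + 1) * z ^ (n + 1)) *
          ∑' n : ℕ, (v (n + 1) : ℂ) * z ^ n) z := (hasDeriv hv hz1).cexp
    have h2 : g =ᶠ[𝓝 z] fun z : ℂ => Complex.exp
        (∑' n : ℕ, (v (n + 1) : ℂ) / ((n : ℂ) + 1) * z ^ (n + 1)) := by
      have h3 : IsOpen {z : ℂ | ‖z‖ < 1} := isOpen_lt continuous_norm continuous_const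
      filter_upwards [hopen.mem_nhds hz, h3.mem_nhds hz1] with y hy1 hy2
      exact hgs y hy1 hy2
    have h3 := (h1.congr_of_eventuallyEq h2).deriv
    rw [← hgs z hz hz1] at h3
    rw [h3, mul_div_cancel_left₀ _ (hpos z hz hz1)]
  refine ⟨δ / 2, by positivity, ?_⟩
  -- the zeros
  have hzeros : {z : ℂ | z ∈ Metric.closedBall w (δ / 2) ∧ g z = 0}.Finite := by
    by_contra hinf
    have hinf' : {z : ℂ | z ∈ Metric.closedBall w (δ / 2) ∧ g z = 0}.Infinite := hinf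
    obtain ⟨x, hx, hacc⟩ := hinf'.exists_accPt_of_subset_isCompact
      (isCompact_closedBall w (δ / 2)) fun z hz => hz.1
    have hx' : x ∈ Metric.ball w δ := by
      rw [Metric.mem_ball]
      rw [Metric.mem_closedBall] at hx
      linarith
    have han : AnalyticOnNhd ℂ g (Metric.ball w δ) := hg.analyticOnNhd hopen
    have hfreq : ∃ᶠ z in 𝓝[≠] x, g z = 0 := by
      rw [accPt_iff_frequently] at hacc
      rw [frequently_nhdsWithin_iff]
      exact hacc.mono fun y hy => ⟨hy.2.2, hy.1⟩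
    have h0 := han.eqOn_zero_of_preconnected_of_frequently_eq_zero
      (convex_ball _ _).isPreconnected hx' hfreq
    obtain ⟨t, ht⟩ : ∃ t : ℝ, t = min (δ / 2) (1 / 2) := ⟨_, rfl⟩
    have ht0 : 0 < t := by rw [ht]; exact lt_min (by positivity) (by norm_num)
    have ht1 : t ≤ 1 / 2 := by rw [ht]; exact min_le_right _ _
    have ht2 : t ≤ δ / 2 := by rw [ht]; exact min_le_left _ _
    have hb : ((1 - t : ℝ) : ℂ) * w ∈ Metric.ball w δ := by
      rw [Metric.mem_ball, dist_eq_norm]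
      have : ((1 - t : ℝ) : ℂ) * w - w = ((-t : ℝ) : ℂ) * w := by push_cast; ring
      rw [this, norm_mul, hw, Complex.norm_real, Real.norm_eq_abs, abs_neg, abs_of_pos ht0]
      linarith
    have hn : ‖((1 - t : ℝ) : ℂ) * w‖ < 1 := by
      rw [norm_mul, hw, Complex.norm_real, Real.norm_eq_abs, abs_of_pos (by linarith)]
      linarith
    exact hpos _ hb hn (h0 hb)
  refine hzeros.subset fun z hz => ?_
  obtain ⟨hz1, hz2, hz3⟩ := hz
  refine ⟨Metric.ball_subset_closedBall hz2, ?_⟩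
  by_contra hgz
  apply hz3
  have hz4 : z ∈ Metric.ball w δ := Metric.ball_subset_ball (by linarith) hz2
  have hd : DifferentiableOn ℂ (deriv g) (Metric.ball w δ) := hg.deriv hopen
  have hc1 : ContinuousAt (deriv g) z := (hd.differentiableAt (hopen.mem_nhds hz4)).continuousAt
  have hc2 : ContinuousAt g z := (hg.differentiableAt (hopen.mem_nhds hz4)).continuousAt
  have hc3 : ContinuousAt (fun s => deriv g s / g s) z := hc1.div hc2 hgz
  have hray : Tendsto (fun ρ : ℝ => (ρ : ℂ) * z) (𝓝[<] 1) (𝓝 z) := by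
    have h1 : Continuous fun ρ : ℝ => (ρ : ℂ) * z := by fun_prop
    have h2 := (h1.tendsto 1).mono_left (nhdsWithin_le_nhds (s := Set.Iio 1))
    simpa using h2
  have h1 : Tendsto (fun ρ : ℝ => (1 - ρ : ℂ) * ((ρ : ℂ) * z * (deriv g ((ρ : ℂ) * z) /
      g ((ρ : ℂ) * z)))) (𝓝[<] 1) (𝓝 (0 * (z * (deriv g z / g z)))) := by
    refine Tendsto.mul ?_ (hray.mul (hc3.tendsto.comp hray))
    have h1 : Continuous fun ρ : ℝ => (1 - ρ : ℂ) := by fun_prop
    have h2 := (h1.tendsto 1).mono_left (nhdsWithin_le_nhds (s := Set.Iio 1))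
    simpa using h2
  rw [zero_mul] at h1
  refine h1.congr' ?_
  have he1 : ∀ᶠ ρ : ℝ in 𝓝[<] 1, (ρ : ℂ) * z ∈ Metric.ball w δ := hray (hopen.mem_nhds hz4)
  have he2 : ∀ᶠ ρ : ℝ in 𝓝[<] 1, 0 < ρ := nhdsWithin_le_nhds (lt_mem_nhds one_pos)
  filter_upwards [he1, he2, self_mem_nhdsWithin] with ρ h2 h3 h4
  have h5 : ‖(ρ : ℂ) * z‖ < 1 := by
    rw [norm_mul, hz1, Complex.norm_real, Real.norm_eq_abs, abs_of_pos h3, mul_one]
    exact h4
  rw [← hlog _ h2 h5]
  congr 1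
  rw [← tsum_mul_left]
  refine tsum_congr fun n => ?_
  ring

end Pool.Agent.Q9.FD.TaskPole
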