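import Pool.Agent.Q9.FD.Stmts

set_option autoImplicit false

open Filter Topology

namespace Pool.Agent.Q9.FD.TaskProdLP

theorem per_mul {Q : ℕ → ℝ} {m : ℕ} (h : ∀ n, Q (n + m) = Q n) (k n : ℕ) :
    Q (n + m * k) = Q n := by
  induction k with
  | zero => simp
  | succ k ih => rw [Nat.mul_succ, ← Nat.add_assoc, h, ih]

theorem main : Pool.Agent.Q9.FD.TaskProdLP := by
  intro m m0 G P hG _ hm0 hP
  obtain ⟨hm, hA⟩ := hG
  set Q : ℕ → ℝ := fun n => P (n + m0) with hQdef
  have hQ : ∀ n, Q (n + m0) = Q n := fun n => hP (n + m0) (by omega)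
  have hQP : ∀ n, 1 ≤ n → Q n = P n := fun n hn => hP n hn
  set C : ℝ := ∑ i ∈ Finset.range m0, |Q i| with hCdef
  have hC0 : 0 ≤ C := Finset.sum_nonneg fun i _ => abs_nonneg _
  have hC : ∀ n, |Q n| ≤ C := by
    intro n
    have h1 : Q n = Q (n % m0) := by
      conv_lhs => rw [← Nat.mod_add_div n m0]
      exact per_mul hQ _ _
    rw [h1]
    exact Finset.single_le_sum (f := fun i => |Q i|) (fun i _ => abs_nonneg _)
      (Finset.mem_range.2 (Nat.mod_lt _ (by omega)))
  refine ⟨Nat.mul_pos (by omega) (by omega), fun ε hε => ?_⟩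
  obtain ⟨M, hM, hpM, h, hh, hGh⟩ := hA (ε / (C + 1)) (by positivity)
  refine ⟨m0 * M, Nat.mul_pos (by omega) (by omega), ?_, fun n => Q n * h n, ?_, ?_⟩
  · intro p hp hd
    rcases (hp.dvd_mul).1 hd with h1 | h1
    · exact Dvd.dvd.mul_right h1 _
    · exact Dvd.dvd.mul_left (hpM p hp h1) _
  · intro n
    show Q (n + m0 * M) * h (n + m0 * M) = Q n * h n
    rw [per_mul hQ M n, Nat.mul_comm m0 M, per_mul hh m0 n]
  · intro n hn
    show |P n * G n - Q n * h n| ≤ ε
    rw [← hQP n hn, ← mul_sub, abs_mul]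
    calc |Q n| * |G n - h n| ≤ C * (ε / (C + 1)) :=
          mul_le_mul (hC n) (hGh n hn) (abs_nonneg _) hC0
      _ ≤ ε := by
          rw [mul_div_assoc', div_le_iff₀ (by positivity)]
          nlinarith

end Pool.Agent.Q9.FD.TaskProdLP
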