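import Mathlib
import Pool.Agent.Q9.FD.Stmts

set_option autoImplicit false

open Filter Topology

namespace Pool.Agent.Q9.FD.TaskQmean

lemma e_add (x y : ℝ) : e (x + y) = e x * e y := by
  unfold e
  rw [← Complex.exp_add]
  congr 1
  push_cast
  ring

lemma e_nat_mul (x : ℝ) (n : ℕ) : e (n * x) = e x ^ n := by
  unfold e
  rw [← Complex.exp_nat_mul]
  congr 1
  push_cast
  ring

lemma e_sum {ι : Type*} (s : Finset ι) (f : ι → ℝ) : e (∑ i ∈ s, f i) = ∏ i ∈ s, e (f i) := by
  unfold e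
  rw [← Complex.exp_sum]
  congr 1
  push_cast
  rw [Finset.mul_sum]

lemma e_int (k : ℤ) : e k = 1 := by
  unfold e
  rw [Complex.exp_eq_one_iff]
  exact ⟨k, by push_cast; ring⟩

lemma e_zero : e 0 = 1 := by
  simpa using e_int 0

lemma e_neg (x : ℝ) : e (-x) = (starRingEnd ℂ) (e x) := by
  unfold e
  rw [← Complex.exp_conj]
  congr 1
  have h2 : (starRingEnd ℂ) (2 : ℂ) = 2 := Complex.conj_ofNat 2
  rw [map_mul, map_mul, map_mul, h2, Complex.conj_ofReal, Complex.conj_ofReal, Complex.conj_I]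
  push_cast
  ring

lemma hasMean_const_mul {a : ℕ → ℂ} {c : ℂ} (h : HasMean a c) (k : ℂ) :
    HasMean (fun n => k * a n) (k * c) := by
  unfold HasMean at *
  refine (h.const_mul k).congr (fun N => ?_)
  rw [← Finset.mul_sum, mul_div_assoc]

lemma hasMean_sum {ι : Type*} (s : Finset ι) {a : ι → ℕ → ℂ} {c : ι → ℂ}
    (h : ∀ i ∈ s, HasMean (a i) (c i)) :
    HasMean (fun n => ∑ i ∈ s, a i n) (∑ i ∈ s, c i) := by
  unfold HasMean at *
  refine (tendsto_finsetSum s h).congr (fun N => ?_)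
  rw [Finset.sum_comm, Finset.sum_div]

lemma exists_l (r : ℕ) (t : Fin r → ℝ) (ht : ∀ j, Irrational (t j)) :
    ∃ l : ℝ →ₗ[ℚ] ℚ, l 1 = 0 ∧ ∀ j, l (t j) ≠ 0 := by
  let S : Submodule ℚ ℝ := Submodule.span ℚ {(1 : ℝ)}
  obtain ⟨f, hf⟩ := Module.exists_dual_forall_apply_ne_zero (K := ℚ) (M := ℝ ⧸ S)
    (fun j => (Submodule.Quotient.mk (t j) : ℝ ⧸ S)) (fun j => by
      intro h0
      rw [Submodule.Quotient.mk_eq_zero, Submodule.mem_span_singleton] at h0
      obtain ⟨q, hq⟩ := h0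
      exact ht j ⟨q, by rw [← hq]; simp [Rat.smul_def]⟩)
  refine ⟨f.comp S.mkQ, ?_, fun j => hf j⟩
  have h1 : S.mkQ 1 = 0 := by
    rw [Submodule.mkQ_apply, Submodule.Quotient.mk_eq_zero]
    exact Submodule.mem_span_singleton_self 1
  rw [LinearMap.comp_apply, h1, map_zero]

/-- coefficients -/
noncomputable def kap : Fin 3 → ℂ := ![2, -1, -1]

/-- frequencies -/
noncomputable def eps : Fin 3 → ℝ := ![0, 1, -1]

lemma factor (z : ℂ) (t : ℝ) (hz : e t = z) (n : ℕ) :
    (((2 - 2 * (z ^ n).re : ℝ)) : ℂ) = ∑ a : Fin 3, kap a * e (n * (eps a * t)) := by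
  have h1 : e (n * (1 * t)) = z ^ n := by rw [one_mul, e_nat_mul, hz]
  have h2 : e (n * (-1 * t)) = (starRingEnd ℂ) (z ^ n) := by
    rw [show (n : ℝ) * (-1 * t) = -(n * t) by ring, e_neg, e_nat_mul, hz]
  have h0 : e (n * (0 * t)) = 1 := by
    rw [show (n : ℝ) * (0 * t) = 0 by ring, e_zero]
  rw [Fin.sum_univ_three]
  simp only [kap, eps, Matrix.cons_val_zero, Matrix.cons_val_one, Matrix.cons_val]
  rw [h0, h1, h2]
  generalize z ^ n = w
  apply Complex.ext
  · simp
    ring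
  · simp

lemma expand {r : ℕ} (lam : Fin r → ℂ) (t : Fin r → ℝ) (ht : ∀ j, e (t j) = lam j) (n : ℕ) :
    ((∏ j, (2 - 2 * (lam j ^ n).re) : ℝ) : ℂ)
      = ∑ p : Fin r → Fin 3, (∏ j, kap (p j)) * e (n * ∑ j, eps (p j) * t j) := by
  rw [Complex.ofReal_prod]
  have h1 : ∀ j, (((2 - 2 * (lam j ^ n).re : ℝ)) : ℂ)
      = ∑ a : Fin 3, kap a * e (n * (eps a * t j)) := fun j => factor _ _ (ht j) n
  rw [Finset.prod_congr rfl (fun j _ => h1 j)]
  rw [Finset.prod_univ_sum, Fintype.piFinset_univ]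
  refine Finset.sum_congr rfl (fun p _ => ?_)
  rw [Finset.prod_mul_distrib, Finset.mul_sum, e_sum]

theorem main : Pool.Agent.Q9.FD.TaskQmean := by
  intro hM r lam hlam
  have h1 : ∀ j, ∃ t : ℝ, e t = lam j := by
    intro j
    obtain ⟨θ, hθ⟩ := (Complex.norm_eq_one_iff _).1 (hlam j).1
    refine ⟨θ / (2 * Real.pi), ?_⟩
    rw [← hθ]
    unfold e
    congr 1
    have : (Real.pi : ℂ) ≠ 0 := by exact_mod_cast Real.pi_ne_zero
    push_cast
    field_simp
  choose t ht using h1
  have hirr : ∀ j, Irrational (t j) := by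
    rintro j ⟨q, hq⟩
    apply (hlam j).2 q.den q.pos
    rw [← ht j, ← e_nat_mul, ← hq]
    have : (q.den : ℝ) * (q : ℝ) = ((q.num : ℤ) : ℝ) := by
      have h := Rat.den_mul_eq_num q
      exact_mod_cast h
    rw [this, e_int]
  obtain ⟨l, hl1, hl⟩ := exists_l r t hirr
  have hlq : ∀ q : ℚ, l (q : ℝ) = 0 := by
    intro q
    have : (q : ℝ) = q • (1 : ℝ) := by simp [Rat.smul_def]
    rw [this, map_smul, hl1, smul_zero]
  let p0 : Fin r → Fin 3 := fun j => if 0 < l (t j) then 1 else 2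
  have hle : ∀ (a : Fin 3) (s : ℝ), l (eps a * s) = (![0, 1, -1] : Fin 3 → ℚ) a * l s := by
    intro a s
    fin_cases a
    · simp [eps]
    · simp [eps]
    · simp [eps]
  have hpos : ∀ j (a : Fin 3), a ≠ p0 j → 0 < l (eps (p0 j) * t j) - l (eps a * t j) := by
    intro j a ha
    rw [hle, hle]
    by_cases hj : 0 < l (t j)
    · have hp : p0 j = 1 := if_pos hj
      rw [hp] at ha ⊢
      fin_cases a
      · simpa using hj
      · exact absurd rfl ha
      · simp
        linarith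
    · have hp : p0 j = 2 := if_neg hj
      have hj' : l (t j) < 0 := lt_of_le_of_ne (not_lt.1 hj) (hl j)
      rw [hp] at ha ⊢
      fin_cases a
      · simpa using hj'
      · simp
        linarith
      · exact absurd rfl ha
  have hkap : ∏ j, kap (p0 j) = (-1) ^ r := by
    have : ∀ j, kap (p0 j) = -1 := by
      intro j
      by_cases hj : 0 < l (t j)
      · have hp : p0 j = 1 := if_pos hj
        rw [hp]
        simp [kap]
      · have hp : p0 j = 2 := if_neg hj
        rw [hp]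
        simp [kap]
    rw [Finset.prod_congr rfl (fun j _ => this j)]
    simp
  refine ⟨∑ j, eps (p0 j) * t j, fun m G hG x c hc => ?_⟩
  have hterm : ∀ p : Fin r → Fin 3, HasMean
      (fun n => (∏ j, kap (p j)) * ((G n : ℂ) *
        e (-(n * (x + ∑ j, eps (p0 j) * t j - ∑ j, eps (p j) * t j)))))
      ((∏ j, kap (p j)) * (if p = p0 then c else 0)) := by
    intro p
    apply hasMean_const_mul
    by_cases hp : p = p0
    · rw [if_pos hp, hp]
      have : ∀ n : ℕ, (-( (n : ℝ) * ((x : ℝ) + ∑ j, eps (p0 j) * t j - ∑ j, eps (p0 j) * t j)))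
          = -(n * x) := by
        intro n
        ring
      simp only [this]
      exact hc
    · rw [if_neg hp]
      apply (hM m G hG).2.1
      rintro ⟨q, hq⟩
      have h2 : l ((x : ℝ) + ∑ j, eps (p0 j) * t j - ∑ j, eps (p j) * t j) = 0 := by
        rw [← hq]
        exact hlq q
      rw [map_sub, map_add, hlq, zero_add, map_sum, map_sum, ← Finset.sum_sub_distrib] at h2
      obtain ⟨j0, hj0⟩ := Function.ne_iff.1 hp
      have h3 : 0 < ∑ j, (l (eps (p0 j) * t j) - l (eps (p j) * t j)) := by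
        apply Finset.sum_pos'
        · intro j _
          by_cases hj : p j = p0 j
          · rw [hj, sub_self]
          · exact (hpos j _ hj).le
        · exact ⟨j0, Finset.mem_univ _, hpos j0 _ hj0⟩
      exact absurd h2 h3.ne'
  have hsum := hasMean_sum Finset.univ (fun p _ => hterm p)
  have hval : ∑ p : Fin r → Fin 3, (∏ j, kap (p j)) * (if p = p0 then c else 0) = (-1) ^ r * c := by
    rw [Finset.sum_eq_single p0]
    · rw [if_pos rfl, hkap]
    · intro p _ hp
      rw [if_neg hp, mul_zero]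
    · intro h
      exact absurd (Finset.mem_univ _) h
  rw [hval] at hsum
  have hfun : (fun n => (G n : ℂ) * ((∏ j, (2 - 2 * (lam j ^ n).re) : ℝ) : ℂ) *
      e (-(n * (x + ∑ j, eps (p0 j) * t j))))
      = (fun n : ℕ => ∑ p : Fin r → Fin 3, (∏ j, kap (p j)) * ((G n : ℂ) *
        e (-(n * (x + ∑ j, eps (p0 j) * t j - ∑ j, eps (p j) * t j))))) := by
    funext n
    rw [expand lam t ht n, Finset.mul_sum, Finset.sum_mul]
    refine Finset.sum_congr rfl (fun p _ => ?_)
    have : e (-((n : ℝ) * ((x : ℝ) + ∑ j, eps (p0 j) * t j - ∑ j, eps (p j) * t j)))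
        = e (n * ∑ j, eps (p j) * t j) * e (-((n : ℝ) * (x + ∑ j, eps (p0 j) * t j))) := by
      rw [← e_add]
      congr 1
      ring
    rw [this]
    ring
  rw [hfun]
  exact hsum

end Pool.Agent.Q9.FD.TaskQmean
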