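import Pool.Agent.Q9.FD.Stmts

set_option autoImplicit false

open Filter Topology

namespace Pool.Agent.Q9.FD.TaskRR

open Pool.Agent.Q9.FD

theorem sparse (d : ℕ) (hd : d ≠ 0) (u : ℂ) (hu : ‖u‖ < 1) :
    HasSum (fun n : ℕ => if d ∣ n then u ^ n / (n : ℂ) else 0)
      ((1 / (d : ℂ)) * (-Complex.log (1 - u ^ d))) := by
  have hinj : Function.Injective (fun m : ℕ => d * m) := fun m m' h =>
    Nat.eq_of_mul_eq_mul_left (Nat.pos_of_ne_zero hd) h
  rw [← hinj.hasSum_iff]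
  · have hw : ‖u ^ d‖ < 1 := by
      rw [norm_pow]
      exact pow_lt_one₀ (norm_nonneg _) hu hd
    have h := (Complex.hasSum_taylorSeries_neg_log hw).mul_left (1 / (d : ℂ))
    have e : ((fun n : ℕ => if d ∣ n then u ^ n / (n : ℂ) else 0) ∘ fun m : ℕ => d * m) =
        fun m : ℕ => (1 / (d : ℂ)) * ((u ^ d) ^ m / (m : ℂ)) := by
      funext m
      show (if d ∣ d * m then u ^ (d * m) / ((d * m : ℕ) : ℂ) else 0) = _
      rw [if_pos (dvd_mul_right d m), pow_mul, Nat.cast_mul, div_mul_eq_div_div]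
      ring
    rw [e]
    exact h
  · intro n hn
    rw [if_neg]
    rintro ⟨m, rfl⟩
    exact hn ⟨m, rfl⟩

theorem factor (w : ℂ) (hw : ‖w‖ < 1) (E : ℤ) :
    (1 - w) ^ E.toNat * Complex.exp ((E : ℂ) * (-Complex.log (1 - w))) = (1 - w) ^ (-E).toNat := by
  have h1 : (1 - w) ≠ 0 := by
    intro h
    have : w = 1 := (sub_eq_zero.1 h).symm
    rw [this] at hw
    simp at hw
  rw [Complex.exp_int_mul, Complex.exp_neg, Complex.exp_log h1, inv_zpow', ← zpow_natCast,
    ← zpow_natCast, ← zpow_add₀ h1]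
  congr 1
  omega

theorem main : Pool.Agent.Q9.FD.TaskRR := by
  intro M K γ a ν L b hL hν hb
  have hj : 1 ≤ ∏ d ∈ M.divisors, ((γ d).den * d) := by
    exact Nat.succ_le_of_lt (Finset.prod_pos fun d hd =>
      Nat.mul_pos (γ d).den_pos (Nat.pos_of_mem_divisors hd))
  set j := ∏ d ∈ M.divisors, ((γ d).den * d) with hjdef
  have hc : ∀ d : ℕ, ∃ c : ℤ, d ∈ M.divisors → (j : ℂ) * (γ d : ℂ) * (1 / (d : ℂ)) = c := by
    intro d
    by_cases hd : d ∈ M.divisors
    · obtain ⟨q, hq⟩ : (γ d).den * d ∣ j := Finset.dvd_prod_of_mem _ hd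
      refine ⟨q * (γ d).num, fun _ => ?_⟩
      have hd0 : (d : ℂ) ≠ 0 := Nat.cast_ne_zero.2 (Nat.pos_of_mem_divisors hd).ne'
      have hden : ((γ d).den : ℂ) ≠ 0 := Nat.cast_ne_zero.2 (γ d).den_pos.ne'
      have hγ : (γ d : ℂ) * ((γ d).den : ℂ) = ((γ d).num : ℂ) := by
        exact_mod_cast congrArg (fun x : ℚ => (x : ℂ)) (Rat.mul_den_eq_num (γ d))
      rw [hq]
      push_cast
      rw [← hγ]
      field_simp
    · exact ⟨0, fun h => absurd h hd⟩
  choose c hc using hc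
  refine ⟨j, hj,
    ∏ d ∈ M.divisors, ∏ k, (1 - Polynomial.C (ν k ^ d) * Polynomial.X ^ d) ^ ((-(c d * a k)).toNat),
    ∏ d ∈ M.divisors, ∏ k, (1 - Polynomial.C (ν k ^ d) * Polynomial.X ^ d) ^ ((c d * a k).toNat),
    ?_, ?_⟩
  · intro h
    have h2 := congrArg (Polynomial.eval 0) h
    rw [Polynomial.eval_prod, Polynomial.eval_zero, Finset.prod_eq_zero_iff] at h2
    obtain ⟨d, hd, h3⟩ := h2
    rw [Polynomial.eval_prod, Finset.prod_eq_zero_iff] at h3
    obtain ⟨k, _, h4⟩ := h3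
    have hd0 : d ≠ 0 := (Nat.pos_of_mem_divisors hd).ne'
    simp [hd0] at h4
  · intro z hz
    have hw : ∀ k, ‖ν k * z‖ < 1 := by
      intro k
      rw [norm_mul]
      calc ‖ν k‖ * ‖z‖ ≤ L * ‖z‖ := mul_le_mul_of_nonneg_right (hν k) (norm_nonneg _)
        _ = ‖z‖ * L := mul_comm _ _
        _ < 1 := hz
    have hS : HasSum (fun n : ℕ => ∑ d ∈ M.divisors, ∑ k, ((γ d : ℂ) * (a k : ℂ)) *
        (if d ∣ n then (ν k * z) ^ n / (n : ℂ) else 0))
        (∑ d ∈ M.divisors, ∑ k, ((γ d : ℂ) * (a k : ℂ)) *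
          ((1 / (d : ℂ)) * (-Complex.log (1 - (ν k * z) ^ d)))) := by
      apply hasSum_sum
      intro d hd
      apply hasSum_sum
      intro k _
      exact (sparse d (Nat.pos_of_mem_divisors hd).ne' _ (hw k)).mul_left _
    have e : (fun n : ℕ => (b (n + 1) : ℂ) / ((n : ℂ) + 1) * z ^ (n + 1)) =
        fun n : ℕ => ∑ d ∈ M.divisors, ∑ k, ((γ d : ℂ) * (a k : ℂ)) *
          (if d ∣ (n + 1) then (ν k * z) ^ (n + 1) / ((n + 1 : ℕ) : ℂ) else 0) := by
      funext n
      rw [hb (n + 1) (by omega), Finset.sum_mul, Finset.sum_div, Finset.sum_mul]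
      apply Finset.sum_congr rfl
      intro d _
      rw [Finset.mul_sum, Finset.sum_div, Finset.sum_mul]
      apply Finset.sum_congr rfl
      intro k _
      push_cast
      split_ifs
      · rw [mul_pow]
        ring
      · ring
    have hS1 : HasSum (fun n : ℕ => (b (n + 1) : ℂ) / ((n : ℂ) + 1) * z ^ (n + 1))
        (∑ d ∈ M.divisors, ∑ k, ((γ d : ℂ) * (a k : ℂ)) *
          ((1 / (d : ℂ)) * (-Complex.log (1 - (ν k * z) ^ d)))) := by
      have h0 := (hasSum_nat_add_iff' 1).2 hS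
      simp only [Finset.range_one, Finset.sum_singleton, Nat.cast_zero, div_zero, ite_self,
        mul_zero, Finset.sum_const_zero, sub_zero] at h0
      rw [e]
      exact h0
    rw [hS1.tsum_eq, ← Complex.exp_nat_mul, Finset.mul_sum, Complex.exp_sum, Polynomial.eval_prod,
      Polynomial.eval_prod, ← Finset.prod_mul_distrib]
    apply Finset.prod_congr rfl
    intro d hd
    rw [Finset.mul_sum, Complex.exp_sum, Polynomial.eval_prod, Polynomial.eval_prod,
      ← Finset.prod_mul_distrib]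
    apply Finset.prod_congr rfl
    intro k _
    have hd0 : d ≠ 0 := (Nat.pos_of_mem_divisors hd).ne'
    have hwd : ‖(ν k * z) ^ d‖ < 1 := by
      rw [norm_pow]
      exact pow_lt_one₀ (norm_nonneg _) (hw k) hd0
    have he : (j : ℂ) * (((γ d : ℂ) * (a k : ℂ)) * ((1 / (d : ℂ)) * (-Complex.log (1 - (ν k * z) ^ d)))) =
        ((c d * a k : ℤ) : ℂ) * (-Complex.log (1 - (ν k * z) ^ d)) := by
      push_cast
      rw [← hc d hd]
      ring
    have hev : ∀ N : ℕ, Polynomial.eval z ((1 - Polynomial.C (ν k ^ d) * Polynomial.X ^ d) ^ N) =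
        (1 - (ν k * z) ^ d) ^ N := by
      intro N
      simp [mul_pow]
    rw [he, hev, hev]
    exact factor _ hwd _

end Pool.Agent.Q9.FD.TaskRR
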