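import Pool.Agent.Q9.FD.Stmts

set_option autoImplicit false

namespace Pool.Agent.Q9.FD.TaskRat

theorem main : Pool.Agent.Q9.FD.TaskRat := by
  intro hNon c hc hB
  obtain ⟨B, hB⟩ := hB
  -- powers which are rational
  have hrat : ∀ p : ℕ, p.Prime → B < p → ∃ q : ℚ, c ^ (p - 1) = q := by
    intro p hp hpB
    obtain ⟨x, y, hx, hy, hxy, -⟩ := hB p hp hpB
    have hy0 : (y : ℝ) ≠ 0 := by
      intro h
      have : y = 0 := by exact_mod_cast h
      exact hy (this ▸ dvd_zero p)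
    refine ⟨(x : ℚ) / y, ?_⟩
    push_cast
    rw [eq_div_iff hy0, mul_comm]
    exact hxy
  -- two primes
  obtain ⟨p, hp1, hp2⟩ := Nat.exists_infinite_primes (B + 3)
  have hp1' : 2 ≤ p - 1 := by omega
  have : NeZero (p - 1) := ⟨by omega⟩
  obtain ⟨q, hq1, hq2, hq3⟩ := Nat.forall_exists_prime_gt_and_eq_mod
    (q := p - 1) (a := -1) (isUnit_one.neg) (B + 3)
  obtain ⟨P, hP⟩ := hrat p hp2 (by omega)
  obtain ⟨Q, hQ⟩ := hrat q hq2 (by omega)
  have hdvd : (p - 1) ∣ q + 1 := by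
    rw [← ZMod.natCast_eq_zero_iff]
    push_cast
    rw [hq3]
    ring
  obtain ⟨k, hk⟩ := hdvd
  have hc2 : c ^ (q - 1) * c ^ 2 = (P : ℝ) ^ k := by
    rw [← hP, ← pow_mul, ← hk, ← pow_add]
    congr 1
    omega
  have hcq : c ^ (q - 1) ≠ 0 := (pow_pos hc _).ne'
  obtain ⟨s, hs⟩ : ∃ s : ℚ, c ^ 2 = s := by
    refine ⟨P ^ k / Q, ?_⟩
    push_cast
    rw [← hQ, eq_div_iff hcq, mul_comm]
    exact hc2
  have hs0 : 0 < s := by
    have : (0 : ℝ) < s := by rw [← hs]; positivity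
    exact_mod_cast this
  -- numerator and denominator
  obtain ⟨u, hu⟩ : ∃ u : ℕ, (u : ℤ) = s.num := by
    exact ⟨s.num.toNat, Int.toNat_of_nonneg (Rat.num_nonneg.2 hs0.le)⟩
  set v : ℕ := s.den with hv
  have hv0 : 0 < v := s.den_pos
  have hu0 : 0 < u := by
    have : 0 < s.num := Rat.num_pos.2 hs0
    omega
  have hsuv : c ^ 2 * v = u := by
    rw [hs]
    have h1 : (s : ℝ) = (s.num : ℝ) / (s.den : ℝ) := by
      exact_mod_cast (Rat.num_div_den s).symm
    have h2 : (s.den : ℝ) ≠ 0 := by exact_mod_cast s.den_pos.ne'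
    rw [h1, hv, div_mul_cancel₀ _ h2]
    exact_mod_cast hu.symm
  -- `u v` is a square
  have hsq : IsSquare (u * v) := by
    by_contra hcon
    obtain ⟨p', hp', hlt, hns⟩ := hNon (u * v) hcon (B + u * v + 3)
    have : Fact p'.Prime := ⟨hp'⟩
    obtain ⟨x, y, hx, hy, hxy, hmod⟩ := hB p' hp' (by omega)
    apply hns
    have huv0 : 0 < u * v := Nat.mul_pos hu0 hv0
    have hvle : v ≤ u * v := Nat.le_mul_of_pos_left v hu0
    have hne : ((u * v : ℕ) : ZMod p') ≠ 0 := by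
      rw [Ne, ZMod.natCast_eq_zero_iff]
      intro h
      have := Nat.le_of_dvd huv0 h
      omega
    have hvne : ((v : ℕ) : ZMod p') ≠ 0 := by
      rw [Ne, ZMod.natCast_eq_zero_iff]
      intro h
      have := Nat.le_of_dvd hv0 h
      omega
    rw [ZMod.euler_criterion p' hne]
    have hodd : p' - 1 = 2 * (p' / 2) := by
      have := hp'.eq_two_or_odd
      omega
    set t := p' / 2 with ht
    have hreal : (y : ℝ) * u ^ t = x * v ^ t := by
      rw [← hxy, hodd, pow_mul, ← hsuv, mul_pow]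
      ring
    have hnat : y * u ^ t = x * v ^ t := by exact_mod_cast hreal
    have hz : (y : ZMod p') * (u : ZMod p') ^ t = x * (v : ZMod p') ^ t := by
      exact_mod_cast congrArg (Nat.cast : ℕ → ZMod p') hnat
    have hxyz : (x : ZMod p') = y := (ZMod.natCast_eq_natCast_iff _ _ _).2 hmod
    have hyne : (y : ZMod p') ≠ 0 := by
      rw [Ne, ZMod.natCast_eq_zero_iff]
      exact hy
    rw [hxyz] at hz
    have huv : (u : ZMod p') ^ t = (v : ZMod p') ^ t := mul_left_cancel₀ hyne hz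
    push_cast
    rw [mul_pow, huv, ← pow_add, ← two_mul, ← hodd]
    exact ZMod.pow_card_sub_one_eq_one hvne
  obtain ⟨w, hw⟩ := hsq
  refine ⟨(w : ℚ) / v, ?_⟩
  push_cast
  have hvR : (0 : ℝ) < v := by exact_mod_cast hv0
  rw [eq_div_iff hvR.ne']
  have h1 : (c * v) ^ 2 = (w : ℝ) ^ 2 := by
    have h2 : ((u * v : ℕ) : ℝ) = ((w * w : ℕ) : ℝ) := by rw [hw]
    push_cast at h2
    calc (c * (v : ℝ)) ^ 2 = (c ^ 2 * (v : ℝ)) * (v : ℝ) := by ring
      _ = (u : ℝ) * (v : ℝ) := by rw [hsuv]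
      _ = (w : ℝ) ^ 2 := by rw [h2]; ring
  have h3 : 0 ≤ c * v := by positivity
  exact (pow_left_inj₀ h3 (by positivity) two_ne_zero).1 h1

end Pool.Agent.Q9.FD.TaskRat
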