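import Pool.Agent.Q9.FD.Stmts

set_option autoImplicit false

open Polynomial

namespace Pool.Agent.Q9.FD.TaskSign

noncomputable def pr (s : Multiset ℂ) (n : ℕ) : ℂ := (s.map (fun z => z ^ n - 1)).prod

def Q (s : Multiset ℂ) : Prop := ∃ a b : ℤ, |b| = 1 ∧ |a| = 1 ∧
  ∀ n : ℕ, 1 ≤ n → (‖pr s n‖ : ℂ) = a * b ^ n * pr s n

theorem Q.add {s t : Multiset ℂ} (hs : Q s) (ht : Q t) : Q (s + t) := by
  obtain ⟨a, b, h1, h2, h3⟩ := hs
  obtain ⟨a', b', h1', h2', h3'⟩ := ht
  refine ⟨a * a', b * b', by rw [abs_mul, h1, h1', mul_one], by rw [abs_mul, h2, h2', mul_one],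
    fun n hn => ?_⟩
  have e : pr (s + t) n = pr s n * pr t n := by simp [pr]
  rw [e, norm_mul, Complex.ofReal_mul, h3 n hn, h3' n hn]
  push_cast
  ring

theorem Q.zero : Q 0 := ⟨1, 1, by simp, by simp, fun n _ => by simp [pr]⟩

theorem real_key {x : ℝ} (h1 : x ≠ 1) (h2 : x ≠ -1) : ∃ a b : ℤ, |b| = 1 ∧ |a| = 1 ∧
    ∀ n : ℕ, 1 ≤ n → |x ^ n - 1| = a * b ^ n * (x ^ n - 1) := by
  rcases lt_trichotomy |x| 1 with h | h | h
  · refine ⟨-1, 1, by simp, by simp, fun n hn => ?_⟩
    have h3 : x ^ n < 1 := lt_of_le_of_lt (le_abs_self _) (by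
      rw [abs_pow]; exact pow_lt_one₀ (abs_nonneg x) h (by omega))
    rw [abs_of_neg (by linarith)]
    push_cast
    ring
  · exfalso
    rcases abs_choice x with h3 | h3
    · exact h1 (by rw [← h3, h])
    · exact h2 (by linarith)
  · rcases lt_or_ge x 0 with hx | hx
    · refine ⟨1, -1, by simp, by simp, fun n hn => ?_⟩
      have h3 : 1 < |x| ^ n := one_lt_pow₀ h (by omega)
      rcases Nat.even_or_odd n with he | ho
      · have h4 : |x| ^ n = x ^ n := he.pow_abs x
        rw [h4] at h3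
        rw [abs_of_pos (by linarith)]
        push_cast
        rw [he.neg_one_pow]
        ring
      · have h4 : |x| ^ n = - x ^ n := by rw [abs_of_neg hx, ho.neg_pow]
        rw [h4] at h3
        rw [abs_of_neg (by linarith)]
        push_cast
        rw [ho.neg_one_pow]
        ring
    · refine ⟨1, 1, by simp, by simp, fun n hn => ?_⟩
      have h3 : 1 < |x| ^ n := one_lt_pow₀ h (by omega)
      rw [abs_of_nonneg hx] at h3
      rw [abs_of_pos (by linarith)]
      push_cast
      ring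

theorem Q.real {z : ℂ} (hz : z.im = 0) (h1 : z ≠ 1) (h2 : z ≠ -1) : Q {z} := by
  obtain ⟨x, rfl⟩ : ∃ x : ℝ, (x : ℂ) = z := ⟨z.re, Complex.ext rfl (by simp [hz])⟩
  have h1' : x ≠ 1 := by rintro rfl; simp at h1
  have h2' : x ≠ -1 := by rintro rfl; simp at h2
  obtain ⟨a, b, hb, ha, h⟩ := real_key h1' h2'
  refine ⟨a, b, hb, ha, fun n hn => ?_⟩
  have e : pr {(x : ℂ)} n = ((x ^ n - 1 : ℝ) : ℂ) := by simp [pr]
  rw [e, Complex.norm_real, Real.norm_eq_abs, h n hn]
  push_cast
  rfl

theorem Q.of_real (s : Multiset ℂ) (h : ∀ z ∈ s, z.im = 0 ∧ z ≠ 1 ∧ z ≠ -1) : Q s := by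
  induction s using Multiset.induction with
  | empty => exact Q.zero
  | cons z s ih =>
    have h1 := h z (Multiset.mem_cons_self z s)
    have h2 : z ::ₘ s = {z} + s := by rw [Multiset.singleton_add]
    rw [h2]
    exact (Q.real h1.1 h1.2.1 h1.2.2).add (ih fun w hw => h w (Multiset.mem_cons_of_mem hw))

theorem Q.conj (s : Multiset ℂ) : Q (s + s.map (starRingEnd ℂ)) := by
  refine ⟨1, 1, by simp, by simp, fun n _ => ?_⟩
  have e : pr (s.map (starRingEnd ℂ)) n = starRingEnd ℂ (pr s n) := by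
    unfold pr
    rw [Multiset.map_map, map_multiset_prod, Multiset.map_map]
    congr 1
    refine Multiset.map_congr rfl fun z _ => ?_
    simp
  have e2 : pr (s + s.map (starRingEnd ℂ)) n = pr s n * starRingEnd ℂ (pr s n) := by
    rw [← e]; simp [pr]
  rw [e2, Complex.mul_conj, Complex.norm_real, Real.norm_eq_abs, abs_of_nonneg (Complex.normSq_nonneg _)]
  push_cast
  ring

theorem main : TaskSign := by
  intro R hR hz
  set p : ℂ[X] := R.map (Int.castRingHom ℂ) with hp
  set s := p.roots with hs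
  have hconj : s.map (starRingEnd ℂ) = s := by
    have h1 : p.map (starRingEnd ℂ) = p := by
      rw [hp, Polynomial.map_map]
      congr 1
      exact RingHom.ext_int _ _
    have h2 : (p.map (starRingEnd ℂ)).roots = p.roots.map (starRingEnd ℂ) :=
      (IsAlgClosed.splits p).roots_map (starRingEnd ℂ)
    rw [h1] at h2
    exact h2.symm
  set sp := s.filter (fun z => 0 < z.im) with hsp
  have hneg : s.filter (fun z => z.im < 0) = sp.map (starRingEnd ℂ) := by
    conv_lhs => rw [← hconj]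
    rw [Multiset.filter_map]
    congr 1
    rw [hsp]
    refine Multiset.filter_congr fun z _ => ?_
    simp
  have hsplit : s = s.filter (fun z => z.im = 0) + (sp + sp.map (starRingEnd ℂ)) := by
    rw [← hneg]
    have h1 := Multiset.filter_add_not (fun z : ℂ => z.im = 0) s
    have h2 := Multiset.filter_add_not (fun z : ℂ => 0 < z.im) (s.filter fun z => ¬ z.im = 0)
    rw [Multiset.filter_filter, Multiset.filter_filter] at h2
    conv_lhs => rw [← h1, ← h2]
    congr 1
    congr 1
    · rw [hsp]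
      refine Multiset.filter_congr fun z _ => ?_
      constructor
      · rintro ⟨h3, -⟩; exact h3
      · intro h3; exact ⟨h3, h3.ne'⟩
    · refine Multiset.filter_congr fun z _ => ?_
      constructor
      · rintro ⟨h3, h4⟩; exact lt_of_le_of_ne (not_lt.mp h3) h4
      · intro h3; exact ⟨not_lt.mpr h3.le, h3.ne⟩
  have hQ : Q s := by
    rw [hsplit]
    refine (Q.of_real _ fun z hz' => ?_).add (Q.conj sp)
    rw [Multiset.mem_filter] at hz'
    have h1 := hz z hz'.1
    refine ⟨hz'.2, fun h2 => h1 1 le_rfl (by rw [h2, pow_one]), fun h2 => h1 2 (by norm_num) (by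
      rw [h2]; norm_num)⟩
  obtain ⟨a, b, hb, ha, h⟩ := hQ
  exact ⟨a, b, fun n hn => ⟨h n hn, hb, ha⟩⟩

end Pool.Agent.Q9.FD.TaskSign
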