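import Pool.Agent.Q9.FD.Stmts

set_option autoImplicit false

namespace Pool.Agent.Q9.FD.TaskTor

open Polynomial

theorem prodP_mul {P Q : Polynomial ℤ} (hP : P.Monic) (hQ : Q.Monic) (n : ℕ) :
    prodP (P * Q) n = prodP P n * prodP Q n := by
  unfold prodP
  rw [Polynomial.map_mul, Polynomial.roots_mul, Multiset.map_add, Multiset.prod_add]
  exact mul_ne_zero (hP.map _).ne_zero (hQ.map _).ne_zero

theorem prodP_one (n : ℕ) : prodP 1 n = 1 := by
  unfold prodP
  simp

theorem prodP_cyc {d : ℕ} (hd : 0 < d) (n : ℕ) :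
    prodP (cyclotomic d ℤ) n = ∏ z ∈ primitiveRoots d ℂ, (z ^ n - 1) := by
  have : NeZero (d : ℂ) := ⟨by exact_mod_cast hd.ne'⟩
  unfold prodP
  rw [map_cyclotomic, cyclotomic.roots_eq_primitiveRoots_val]
  rfl

/-- periodic and invariant -/
def Ok (a : ℕ → ℂ) (m : ℕ) : Prop := 1 ≤ m ∧ (∀ n : ℕ, a (n + m) = a n) ∧ UnitInv m a

theorem period_mul {a : ℕ → ℂ} {m : ℕ} (h : ∀ n : ℕ, a (n + m) = a n) (k n : ℕ) :
    a (n + m * k) = a n := by
  induction k with
  | zero => rfl
  | succ k ih => rw [Nat.mul_succ, ← add_assoc, h, ih]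

theorem Ok.mul {a b : ℕ → ℂ} {m m' : ℕ} (ha : Ok a m) (hb : Ok b m') :
    Ok (fun n => a n * b n) (m * m') := by
  refine ⟨Nat.mul_pos ha.1 hb.1, fun n => ?_, fun u n hu hn hc => ?_⟩
  · simp only
    rw [period_mul ha.2.1, mul_comm m m', period_mul hb.2.1]
  · simp only
    rw [ha.2.2 u n hu hn (Nat.Coprime.coprime_mul_right_right hc),
      hb.2.2 u n hu hn (Nat.Coprime.coprime_mul_left_right hc)]

theorem ok_cyc {d : ℕ} (hd : 0 < d) : Ok (prodP (cyclotomic d ℤ)) d := by
  refine ⟨hd, fun n => ?_, fun u n hu hn hc => ?_⟩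
  · rw [prodP_cyc hd, prodP_cyc hd]
    refine Finset.prod_congr rfl fun z hz => ?_
    rw [mem_primitiveRoots hd] at hz
    rw [pow_add, hz.pow_eq_one, mul_one]
  · rw [prodP_cyc hd, prodP_cyc hd]
    have hmod : u ^ Nat.totient d ≡ 1 [MOD d] := Nat.ModEq.pow_totient hc
    have hphi : 0 < Nat.totient d := Nat.totient_pos.2 hd
    have hpow : ∀ z : ℂ, z ^ d = 1 → z ^ (u ^ Nat.totient d) = z := by
      intro z hz
      rw [pow_eq_pow_mod _ hz, hmod, ← pow_eq_pow_mod _ hz, pow_one]
    have hsplit : u ^ Nat.totient d = u * u ^ (Nat.totient d - 1) := by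
      rw [← pow_succ', Nat.sub_add_cancel hphi]
    refine Finset.prod_bij (fun z _ => z ^ u) ?_ ?_ ?_ ?_
    · intro z hz
      rw [mem_primitiveRoots hd] at hz ⊢
      exact hz.pow_of_coprime u hc
    · intro z hz w hw h
      rw [mem_primitiveRoots hd] at hz hw
      have h1 : (z ^ u) ^ (u ^ (Nat.totient d - 1)) = (w ^ u) ^ (u ^ (Nat.totient d - 1)) := by
        rw [h]
      rw [← pow_mul, ← pow_mul, ← hsplit, hpow z hz.pow_eq_one, hpow w hw.pow_eq_one] at h1
      exact h1
    · intro w hw
      rw [mem_primitiveRoots hd] at hw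
      refine ⟨w ^ (u ^ (Nat.totient d - 1)), ?_, ?_⟩
      · rw [mem_primitiveRoots hd]
        exact hw.pow_of_coprime _ (hc.pow_left _)
      · rw [← pow_mul, mul_comm, ← hsplit, hpow w hw.pow_eq_one]
    · intro z hz
      rw [pow_mul]

theorem main : Pool.Agent.Q9.FD.TaskTor := by
  have key : ∀ (N : ℕ) (T : Polynomial ℤ), T.natDegree = N → T.Monic →
      (∀ z ∈ (T.map (Int.castRingHom ℂ)).roots, ∃ n : ℕ, 1 ≤ n ∧ z ^ n = 1) →
      ∃ m, Ok (prodP T) m := by
    intro N
    induction N using Nat.strong_induction_on with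
    | _ N ih =>
      intro T hN hT hroots
      rcases Nat.eq_zero_or_pos N with h0 | hpos
      · have h1 : T = 1 := eq_one_of_monic_natDegree_zero hT (hN.trans h0)
        subst h1
        refine ⟨1, le_rfl, fun n => ?_, fun u n _ _ _ => ?_⟩
        · rw [prodP_one, prodP_one]
        · rw [prodP_one, prodP_one]
      · -- a root
        have hTm : (T.map (Int.castRingHom ℂ)).Monic := hT.map _
        have hdeg : (T.map (Int.castRingHom ℂ)).natDegree = N := by
          rw [hT.natDegree_map, hN]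
        obtain ⟨z, hz⟩ := IsAlgClosed.exists_root (T.map (Int.castRingHom ℂ)) (by
          intro h
          rw [degree_eq_natDegree hTm.ne_zero, hdeg] at h
          have : N = 0 := by exact_mod_cast h
          omega)
        have hzr : z ∈ (T.map (Int.castRingHom ℂ)).roots := (mem_roots hTm.ne_zero).2 hz
        obtain ⟨n, hn, hzn⟩ := hroots z hzr
        set d := orderOf z with hd
        have hd0 : 0 < d := orderOf_pos_iff.2 (isOfFinOrder_iff_pow_eq_one.2 ⟨n, hn, hzn⟩)
        have hprim : IsPrimitiveRoot z d := IsPrimitiveRoot.orderOf z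
        have hmin : cyclotomic d ℤ = minpoly ℤ z := cyclotomic_eq_minpoly hprim hd0
        have hdvd : cyclotomic d ℤ ∣ T := by
          rw [hmin]
          refine minpoly.isIntegrallyClosed_dvd (hprim.isIntegral hd0) ?_
          rw [aeval_def, eval₂_eq_eval_map]
          exact hz
        obtain ⟨Q, hQ⟩ := hdvd
        have hcm : (cyclotomic d ℤ).Monic := cyclotomic.monic d ℤ
        have hQm : Q.Monic := by
          rw [hQ] at hT
          exact hcm.of_mul_monic_left hT
        have hcd : 0 < (cyclotomic d ℤ).natDegree := by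
          rw [natDegree_cyclotomic]
          exact Nat.totient_pos.2 hd0
        have hQd : Q.natDegree < N := by
          rw [← hN, hQ, hcm.natDegree_mul hQm]
          omega
        obtain ⟨m, hm⟩ := ih Q.natDegree hQd Q rfl hQm (fun w hw => hroots w (by
          rw [hQ, Polynomial.map_mul, roots_mul (mul_ne_zero (hcm.map _).ne_zero
            (hQm.map _).ne_zero)]
          exact Multiset.mem_add.2 (Or.inr hw)))
        refine ⟨d * m, ?_⟩
        have := (ok_cyc hd0).mul hm
        have e : prodP T = fun n => prodP (cyclotomic d ℤ) n * prodP Q n := by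
          funext n
          rw [hQ, prodP_mul hcm hQm]
        rw [e]
        exact this
  intro T hT hroots
  obtain ⟨m, hm⟩ := key _ T rfl hT hroots
  exact ⟨m, hm⟩

end Pool.Agent.Q9.FD.TaskTor
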