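import Pool.Agent.Q9.FD.Stmts

set_option autoImplicit false

open Filter Topology

namespace Pool.Agent.Q9.FD.TaskZero

/-- the indicator function of a residue class as a mean of characters -/
private lemma ind (M : ℕ) (hM : 1 ≤ M) (n n0 : ℕ) :
    (∑ j ∈ Finset.range M, (1 / (M : ℂ)) * e (((j : ℝ) / M) * ((n : ℝ) - n0))) =
      if (n : ℤ) ≡ n0 [ZMOD M] then 1 else 0 := by
  have hM0 : (M : ℂ) ≠ 0 := by exact_mod_cast (by omega : M ≠ 0)
  have h1 : ∀ j : ℕ, e (((j : ℝ) / M) * ((n : ℝ) - n0)) =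
      (Complex.exp (2 * Real.pi * Complex.I * (((n : ℂ) - n0) / M))) ^ j := by
    intro j
    unfold e
    rw [← Complex.exp_nat_mul]
    congr 1
    push_cast
    ring
  simp only [h1]
  rw [← Finset.mul_sum]
  split_ifs with h
  · obtain ⟨k, hk⟩ := h.symm.dvd
    have hz : Complex.exp (2 * Real.pi * Complex.I * (((n : ℂ) - n0) / M)) = 1 := by
      rw [Complex.exp_eq_one_iff]
      refine ⟨k, ?_⟩
      have : ((n : ℂ) - n0) = (M : ℂ) * k := by exact_mod_cast hk
      rw [this, mul_div_cancel_left₀ _ hM0]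
      ring
    rw [hz]
    simp [hM0]
  · have hz : Complex.exp (2 * Real.pi * Complex.I * (((n : ℂ) - n0) / M)) ≠ 1 := by
      intro hz
      rw [Complex.exp_eq_one_iff] at hz
      obtain ⟨k, hk⟩ := hz
      apply h
      have h2 : ((n : ℂ) - n0) / M = k := by
        have h3 : (2 * Real.pi * Complex.I : ℂ) ≠ 0 := Complex.two_pi_I_ne_zero
        apply mul_left_cancel₀ h3
        rw [hk]
        ring
      rw [div_eq_iff hM0] at h2
      have h4 : (n : ℤ) - n0 = k * M := by exact_mod_cast h2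
      exact (Int.modEq_iff_dvd.2 ⟨k, by rw [h4]; ring⟩).symm
    have hp : (Complex.exp (2 * Real.pi * Complex.I * (((n : ℂ) - n0) / M))) ^ M = 1 := by
      rw [← Complex.exp_nat_mul, Complex.exp_eq_one_iff]
      refine ⟨(n : ℤ) - n0, ?_⟩
      push_cast
      field_simp
    have := geom_sum_mul (Complex.exp (2 * Real.pi * Complex.I * (((n : ℂ) - n0) / M))) M
    rw [hp, sub_self] at this
    rcases mul_eq_zero.1 this with h5 | h5
    · rw [h5, mul_zero]
    · exact absurd (sub_eq_zero.1 h5) hz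

private lemma mean_sum {ι : Type*} (s : Finset ι) (a : ι → ℕ → ℂ) (h : ∀ i ∈ s, HasMean (a i) 0) :
    HasMean (fun n => ∑ i ∈ s, a i n) 0 := by
  classical
  induction s using Finset.induction_on with
  | empty =>
    unfold HasMean
    simp
  | insert i s hi ih =>
    have h1 := h i (Finset.mem_insert_self i s)
    have h2 := ih (fun j hj => h j (Finset.mem_insert_of_mem hj))
    unfold HasMean at *
    have h3 := h1.add h2
    rw [add_zero] at h3
    refine h3.congr fun N => ?_
    rw [← add_div, ← Finset.sum_add_distrib]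
    congr 1
    exact Finset.sum_congr rfl fun n _ => (Finset.sum_insert (f := fun i => a i (n + 1)) hi).symm

private lemma mean_mul (c : ℂ) (a : ℕ → ℂ) (h : HasMean a 0) : HasMean (fun n => c * a n) 0 := by
  unfold HasMean at *
  have := h.const_mul c
  rw [mul_zero] at this
  refine this.congr fun N => ?_
  rw [← Finset.mul_sum, mul_div_assoc]

theorem main : Pool.Agent.Q9.FD.TaskZero := by
  intro m φ hφ hx n0 hn0
  by_contra hne
  have hpos : 0 < |φ n0| := abs_pos.2 hne
  obtain ⟨-, hA⟩ := hφ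
  obtain ⟨M, hM, -, h, hper, hh⟩ := hA (|φ n0| / 4) (by positivity)
  have hM0 : (M : ℝ) ≠ 0 := by exact_mod_cast (by omega : M ≠ 0)
  -- the mean over the class
  have hmean : HasMean (fun n => (φ n : ℂ) * (if (n : ℤ) ≡ n0 [ZMOD M] then 1 else 0)) 0 := by
    have h1 : ∀ j ∈ Finset.range M, HasMean (fun n => ((1 / (M : ℂ)) * e (-((j : ℝ) / M) * n0)) *
        ((φ n : ℂ) * e (-(n * (((-(j : ℚ) / M : ℚ)) : ℝ))))) 0 := fun j _ => mean_mul _ _ (hx _)
    have h2 := mean_sum _ _ h1
    convert h2 using 2 with n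
    rw [← ind M hM n n0, Finset.mul_sum]
    refine Finset.sum_congr rfl fun j _ => ?_
    have h3 : e (((j : ℝ) / M) * ((n : ℝ) - n0)) =
        e (-((j : ℝ) / M) * n0) * e (-(n * (((-(j : ℚ) / M : ℚ)) : ℝ))) := by
      unfold e
      rw [← Complex.exp_add]
      congr 1
      push_cast
      ring
    rw [h3]
    ring
  have hperk : ∀ k n : ℕ, h (n + k * M) = h n := by
    intro k
    induction k with
    | zero => intro n; simp
    | succ k ih =>
      intro n
      rw [show n + (k + 1) * M = (n + k * M) + M by ring, hper, ih]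
  have hcls : ∀ n : ℕ, 1 ≤ n → (n : ℤ) ≡ n0 [ZMOD M] → |φ n - φ n0| ≤ |φ n0| / 2 := by
    intro n hn hmod
    have h1 : h n = h n0 := by
      have h4 : n ≡ n0 [MOD M] := Int.natCast_modEq_iff.1 hmod
      rcases le_total n n0 with hle | hle
      · obtain ⟨k, hk⟩ := (Nat.modEq_iff_dvd' hle).1 h4
        have : n0 = n + k * M := by rw [mul_comm]; omega
        rw [this, hperk]
      · obtain ⟨k, hk⟩ := (Nat.modEq_iff_dvd' hle).1 h4.symm
        have : n = n0 + k * M := by rw [mul_comm]; omega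
        rw [this, hperk]
    have h2 := hh n hn
    have h3 := hh n0 hn0
    rw [h1] at h2
    have : φ n - φ n0 = (φ n - h n0) - (φ n0 - h n0) := by ring
    rw [this]
    refine (abs_sub _ _).trans ?_
    linarith
  -- the sign
  obtain ⟨s, hs1, hs2⟩ : ∃ s : ℝ, |s| = 1 ∧ s * φ n0 = |φ n0| := by
    rcases le_total 0 (φ n0) with h0 | h0
    · exact ⟨1, by simp, by rw [one_mul, abs_of_nonneg h0]⟩
    · exact ⟨-1, by simp, by rw [abs_of_nonpos h0]; ring⟩
  have hcls2 : ∀ n : ℕ, 1 ≤ n → (n : ℤ) ≡ n0 [ZMOD M] → |φ n0| / 2 ≤ s * φ n := by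
    intro n hn hmod
    have h1 := hcls n hn hmod
    have h2 : |s * (φ n - φ n0)| ≤ |φ n0| / 2 := by rw [abs_mul, hs1, one_mul]; exact h1
    have h3 := (abs_le.1 h2).1
    have h4 : s * φ n = s * (φ n - φ n0) + s * φ n0 := by ring
    rw [h4, hs2]
    linarith
  -- lower bound
  have hlow : ∀ K : ℕ, (K : ℝ) * (|φ n0| / 2) ≤ ‖∑ n ∈ Finset.range ((n0 + K * M)), (φ (n + 1) : ℂ) *
      (if ((n + 1 : ℕ) : ℤ) ≡ n0 [ZMOD M] then 1 else 0)‖ := by
    intro K
    have hreal : (∑ n ∈ Finset.range ((n0 + K * M)), (φ (n + 1) : ℂ) *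
        (if ((n + 1 : ℕ) : ℤ) ≡ n0 [ZMOD M] then 1 else 0)) =
        ((∑ n ∈ Finset.range ((n0 + K * M)), φ (n + 1) *
        (if ((n + 1 : ℕ) : ℤ) ≡ n0 [ZMOD M] then 1 else 0) : ℝ) : ℂ) := by
      rw [Complex.ofReal_sum]
      refine Finset.sum_congr rfl fun n _ => ?_
      split_ifs <;> simp
    rw [hreal, Complex.norm_real, Real.norm_eq_abs]
    have h5 : ∀ n : ℕ, (if ((n + 1 : ℕ) : ℤ) ≡ n0 [ZMOD M] then |φ n0| / 2 else 0) ≤
        s * (φ (n + 1) * (if ((n + 1 : ℕ) : ℤ) ≡ n0 [ZMOD M] then 1 else 0)) := by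
      intro n
      split_ifs with h6
      · rw [mul_one]
        exact hcls2 (n + 1) (by omega) h6
      · simp
    have h7 : (K : ℝ) * (|φ n0| / 2) ≤ ∑ n ∈ Finset.range (n0 + K * M),
        (if ((n + 1 : ℕ) : ℤ) ≡ n0 [ZMOD M] then |φ n0| / 2 else 0) := by
      rw [← Finset.sum_filter]
      rw [Finset.sum_const, nsmul_eq_mul]
      refine mul_le_mul_of_nonneg_right ?_ (by positivity)
      have h8 : ((Finset.range K).image fun k => n0 - 1 + k * M) ⊆
          (Finset.range (n0 + K * M)).filter fun n => ((n + 1 : ℕ) : ℤ) ≡ n0 [ZMOD M] := by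
        intro y hy
        obtain ⟨k, hk, rfl⟩ := Finset.mem_image.1 hy
        rw [Finset.mem_range] at hk
        rw [Finset.mem_filter, Finset.mem_range]
        have h9 : k * M ≤ K * M := Nat.mul_le_mul_right M hk.le
        refine ⟨by omega, ?_⟩
        have : n0 - 1 + k * M + 1 = n0 + k * M := by omega
        rw [this]
        push_cast
        exact Int.modEq_iff_dvd.2 ⟨-k, by ring⟩
      have h10 : ((Finset.range K).image fun k => n0 - 1 + k * M).card = K := by
        rw [Finset.card_image_of_injective, Finset.card_range]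
        intro a b hab
        have hab' : n0 - 1 + a * M = n0 - 1 + b * M := hab
        have : a * M = b * M := by omega
        exact Nat.eq_of_mul_eq_mul_right (by omega) this
      have h11 := Finset.card_le_card h8
      rw [h10] at h11
      exact_mod_cast h11
    refine h7.trans ((Finset.sum_le_sum fun n _ => h5 n).trans ?_)
    rw [← Finset.mul_sum]
    refine (le_abs_self _).trans ?_
    rw [abs_mul, hs1, one_mul]
  have hev := (Metric.tendsto_nhds.1 hmean) (|φ n0| / (4 * M)) (by positivity)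
  obtain ⟨N0, hN0⟩ := eventually_atTop.1 hev
  set K := max N0 n0 with hK
  have hKM : K ≤ K * M := Nat.le_mul_of_pos_right K (by omega)
  have h12 := hN0 (n0 + K * M) (by omega)
  rw [dist_zero_right, norm_div] at h12
  have h13 := hlow K
  have hNpos : (0 : ℝ) < ‖((n0 + K * M : ℕ) : ℂ)‖ := by
    rw [Complex.norm_natCast]
    exact_mod_cast (by omega : 0 < n0 + K * M)
  rw [div_lt_iff₀ hNpos, Complex.norm_natCast] at h12
  have h14 : ((n0 + K * M : ℕ) : ℝ) ≤ 2 * (K * M) := by
    have : n0 + K * M ≤ 2 * (K * M) := by omega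
    exact_mod_cast this
  have hMpos : (0 : ℝ) < M := by exact_mod_cast (by omega : 0 < M)
  have h15 : |φ n0| / (4 * M) * ((n0 + K * M : ℕ) : ℝ) ≤ |φ n0| / (4 * M) * (2 * (K * M)) :=
    mul_le_mul_of_nonneg_left h14 (by positivity)
  have h16 : |φ n0| / (4 * M) * (2 * (K * M)) = (K : ℝ) * (|φ n0| / 2) := by
    field_simp
    ring
  linarith

end Pool.Agent.Q9.FD.TaskZero
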